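import Pool.Agent.Helper33P.Main

set_option autoImplicit false
set_option linter.unusedSectionVars false

/-! Almost every wave vector. -/

open MeasureTheory Filter Topology
open Pool.Agent.Results.MP_54f242_pr.InfraredMean

namespace Pool.Agent.Helper33P

variable {d : ℕ}

theorem phi_zero : Phi d 0 zero_le_one = 1 := by
  have hs : Summable (tau d 0 zero_le_one) := by
    refine summable_of_ne_finset_zero (s := {0}) fun x hx => ?_
    exact tau_zero_param x (by simpa using hx)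
  have hchi : chi d 0 zero_le_one = 1 := by
    unfold chi
    rw [tsum_eq_single 0 fun x hx => tau_zero_param x hx, Pool.Agent.Results.MP_54f242_pr.InfraredMean.tau_zero]
  -- almost every cluster has one point
  have h1 : ∫ ω, (Nr (d := d) ω 0).toReal ∂(P d 0 zero_le_one) = 1 := by
    rw [int_Nr 0 zero_le_one hs 0, hchi]
  have hfin := fin_ae 0 zero_le_one hs (0 : Fin d → ℤ)
  have hge : ∀ᵐ ω ∂(P d 0 zero_le_one), (0 : ℝ) ≤ (Nr (d := d) ω 0).toReal - 1 := by
    filter_upwards [hfin] with ω hω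
    have h2 : (1 : ENNReal) ≤ Nr ω 0 := by
      rw [Nr_eq]
      have : (1 : ℕ∞) ≤ Set.encard {y | (opn (d := d) ω).Reachable 0 y} :=
        Set.one_le_encard_iff_nonempty.2 ⟨0, SimpleGraph.Reachable.refl _⟩
      exact_mod_cast this
    have h3 : Nr ω 0 ≠ ⊤ := by
      rw [Nr_eq, ← hω.cast_ncard_eq]
      simp
    have := (ENNReal.toReal_le_toReal (by simp) h3).2 h2
    simp only [ENNReal.toReal_one] at this
    linarith
  have hz : ∀ᵐ ω ∂(P d 0 zero_le_one), (Nr (d := d) ω 0).toReal - 1 = 0 := by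
    have h4 : ∫ ω, ((Nr (d := d) ω 0).toReal - 1) ∂(P d 0 zero_le_one) = 0 := by
      rw [integral_sub (Nr_int 0 zero_le_one hs 0) (integrable_const 1), h1]
      simp
    exact (integral_eq_zero_iff_of_nonneg_ae hge
      ((Nr_int 0 zero_le_one hs 0).sub (integrable_const 1))).1 h4
  unfold Phi
  rw [integral_congr_ae (g := fun _ => (1 : ℝ))]
  · simp
  · filter_upwards [hz] with ω hω
    have h5 : (Nr (d := d) ω 0).toReal = 1 := by linarith
    have h6 : nc (d := d) ω 0 = 1 := by rw [nc_eq, h5]; simp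
    simp [h6]

/-- the majorant of all the parameters with `Φ ≤ B` -/
theorem family (B : ℝ) (hB : 1 ≤ B) :
    ∃ W : (Fin d → ℝ) → ENNReal, Measurable W ∧
      (∀ (p : NNReal) (hp : p ≤ 1), Summable (tau d p hp) → Phi d p hp ≤ B →
        ∀ k, ENNReal.ofReal (cs (tau d p hp) k) ≤ W k) ∧
      ∫⁻ k in cube d, W k ≤ ENNReal.ofReal ((2 * Real.pi) ^ d * (1 + 4 * B)) := by
  classical
  set S : Set NNReal := {p | ∃ hp : p ≤ 1, Summable (tau d p hp) ∧ Phi d p hp ≤ B} with hS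
  have hne : S.Nonempty := by
    refine ⟨0, zero_le_one, ?_, ?_⟩
    · refine summable_of_ne_finset_zero (s := {0}) fun x hx => ?_
      exact tau_zero_param x (by simpa using hx)
    · rw [phi_zero]; exact hB
  have hbd : BddAbove S := ⟨1, fun p hp => hp.choose⟩
  obtain ⟨u, hu1, hu2, hu3, hu4⟩ := (isLUB_csSup hne hbd).exists_seq_monotone_tendsto hne
  choose hp hs hΦ using hu4
  choose W hW1 hW2 hW3 using fun n => majorant (d := d) (u n) (hp n) (hs n)
  by_cases hmem : sSup S ∈ S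
  · obtain ⟨hp', hs', hΦ'⟩ := hmem
    obtain ⟨V, hV1, hV2, hV3⟩ := majorant (d := d) (sSup S) hp' hs'
    have hpos : ∀ k, 0 ≤ V k := fun k =>
      (hat_nonneg (sSup S) hp' hs' k).trans (hV2 _ hp' le_rfl k)
    refine ⟨fun k => ENNReal.ofReal (V k), (hV1.measurable).ennreal_ofReal, ?_, ?_⟩
    · intro p hp1 hs1 hΦ1 k
      exact ENNReal.ofReal_le_ofReal (hV2 p hp1 (le_csSup hbd ⟨hp1, hs1, hΦ1⟩) k)
    · rw [← ofReal_integral_eq_lintegral_ofReal (integrable_of_cont hV1)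
        (Eventually.of_forall hpos)]
      refine ENNReal.ofReal_le_ofReal (hV3.trans ?_)
      refine mul_le_mul_of_nonneg_left ?_ (by positivity)
      linarith
  · have hpos : ∀ n k, 0 ≤ W n k := fun n k =>
      (hat_nonneg (u n) (hp n) (hs n) k).trans (hW2 n _ (hp n) le_rfl k)
    refine ⟨fun k => liminf (fun n => ENNReal.ofReal (W n k)) atTop,
      .liminf fun n => (hW1 n).measurable.ennreal_ofReal, ?_, ?_⟩
    · intro p hp1 hs1 hΦ1 k
      have hlt : p < sSup S := lt_of_le_of_ne (le_csSup hbd ⟨hp1, hs1, hΦ1⟩)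
        (fun h => hmem (h ▸ ⟨hp1, hs1, hΦ1⟩))
      refine le_liminf_of_le (by isBoundedDefault) ?_
      filter_upwards [hu3.eventually (lt_mem_nhds hlt)] with n hn
      exact ENNReal.ofReal_le_ofReal (hW2 n p hp1 hn.le k)
    · refine (lintegral_liminf_le fun n => (hW1 n).measurable.ennreal_ofReal).trans ?_
      refine liminf_le_of_le (by isBoundedDefault) fun b hb => ?_
      obtain ⟨n, hn⟩ := hb.exists
      refine hn.trans ?_
      rw [← ofReal_integral_eq_lintegral_ofReal (integrable_of_cont (hW1 n))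
        (Eventually.of_forall (hpos n))]
      refine ENNReal.ofReal_le_ofReal ((hW3 n).trans ?_)
      refine mul_le_mul_of_nonneg_left ?_ (by positivity)
      linarith [hΦ n]

theorem ae_bound' : ∀ᵐ k : Fin d → ℝ, k ∈ cube d → ∃ C : ℝ, ∀ (p : NNReal) (hp : p ≤ 1),
    Summable (tau d p hp) →
      cs (tau d p hp) k ≤ C * (Phi d p hp * (1 + Real.log (Phi d p hp)) ^ 2) := by
  classical
  choose W hW1 hW2 hW3 using fun i : ℕ => family (d := d) ((2 : ℝ) ^ (i + 1))
    (one_le_pow₀ (by norm_num))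
  let c : ℕ → ENNReal := fun i => ENNReal.ofReal (1 / ((2 : ℝ) ^ i * (1 + i) ^ 2))
  have hVm : Measurable fun k : Fin d → ℝ => ∑' i, c i * W i k :=
    Measurable.tsum fun i => (hW1 i).const_mul _
  have hV : ∫⁻ k in cube d, ∑' i, c i * W i k < ⊤ := by
    rw [lintegral_tsum fun i => ((hW1 i).const_mul _).aemeasurable]
    have h1 : ∀ i : ℕ, ∫⁻ k in cube d, c i * W i k ≤
        ENNReal.ofReal ((2 * Real.pi) ^ d * (9 * (1 / ((i : ℝ) + 1) ^ 2))) := by
      intro i
      rw [lintegral_const_mul _ (hW1 i)]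
      refine (mul_le_mul_right (hW3 i) (c i)).trans ?_
      simp only [c]
      rw [← ENNReal.ofReal_mul (by positivity)]
      refine ENNReal.ofReal_le_ofReal ?_
      have h2 : (1 : ℝ) ≤ 2 ^ i := one_le_pow₀ (by norm_num)
      have h3 : 1 / ((2 : ℝ) ^ i * (1 + i) ^ 2) * (1 + 4 * (2 : ℝ) ^ (i + 1)) ≤
          9 * (1 / ((i : ℝ) + 1) ^ 2) := by
        have h4 : (0 : ℝ) < ((i : ℝ) + 1) ^ 2 := by positivity
        have h5 : (2 : ℝ) ^ (i + 1) = 2 * 2 ^ i := by ring
        rw [h5, add_comm (1 : ℝ) (i : ℝ), div_mul_eq_mul_div, one_mul, mul_one_div,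
          div_le_div_iff₀ (by positivity) h4]
        nlinarith
      calc 1 / ((2 : ℝ) ^ i * (1 + i) ^ 2) * ((2 * Real.pi) ^ d * (1 + 4 * (2 : ℝ) ^ (i + 1)))
          = (2 * Real.pi) ^ d * (1 / ((2 : ℝ) ^ i * (1 + i) ^ 2) * (1 + 4 * (2 : ℝ) ^ (i + 1))) := by
            ring
        _ ≤ _ := mul_le_mul_of_nonneg_left h3 (by positivity)
    refine (ENNReal.tsum_le_tsum h1).trans_lt ?_
    have hsum : Summable fun i : ℕ => (2 * Real.pi) ^ d * (9 * (1 / ((i : ℝ) + 1) ^ 2)) := by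
      refine Summable.mul_left _ (Summable.mul_left _ ?_)
      have := (summable_nat_add_iff 1).2 (Real.summable_one_div_nat_pow.2 (by norm_num : 1 < 2))
      simpa using this
    rw [← ENNReal.ofReal_tsum_of_nonneg (fun i => by positivity) hsum]
    exact ENNReal.ofReal_lt_top
  have hae := ae_lt_top hVm hV.ne
  rw [ae_restrict_iff' cube_meas] at hae
  filter_upwards [hae] with k hk hkc
  have hk := hk hkc
  set V := ∑' i, c i * W i k with hVdef
  refine ⟨4 * V.toReal, fun p hp hs => ?_⟩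
  set Φ := Phi d p hp with hΦ
  have hΦ1 : 1 ≤ Φ := one_le_Phi p hp hs
  set i := Nat.log 2 ⌊Φ⌋₊ with hi
  have hfl : ⌊Φ⌋₊ ≠ 0 := (Nat.floor_pos.2 hΦ1).ne'
  have h1 : (2 : ℝ) ^ i ≤ Φ := by
    have h2 : 2 ^ i ≤ ⌊Φ⌋₊ := Nat.pow_log_le_self 2 hfl
    have h3 : ((2 ^ i : ℕ) : ℝ) ≤ ⌊Φ⌋₊ := by exact_mod_cast h2
    push_cast at h3
    exact h3.trans (Nat.floor_le (by linarith))
  have h2 : Φ ≤ 2 ^ (i + 1) := by
    have h3 : ⌊Φ⌋₊ < 2 ^ (i + 1) := Nat.lt_pow_succ_log_self (by norm_num) _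
    have h4 : ((⌊Φ⌋₊ + 1 : ℕ) : ℝ) ≤ ((2 ^ (i + 1) : ℕ) : ℝ) := by exact_mod_cast h3
    push_cast at h4
    exact (Nat.lt_floor_add_one Φ).le.trans h4
  have h3 : ENNReal.ofReal (cs (tau d p hp) k) ≤ W i k := hW2 i p hp hs h2 k
  have h4 : c i * W i k ≤ V := ENNReal.le_tsum i
  have h5 : c i * ENNReal.ofReal (cs (tau d p hp) k) ≤ V := (mul_le_mul_right h3 (c i)).trans h4
  simp only [c] at h5
  rw [← ENNReal.ofReal_mul (by positivity)] at h5
  have h6 : 1 / ((2 : ℝ) ^ i * (1 + i) ^ 2) * cs (tau d p hp) k ≤ V.toReal :=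
    (ENNReal.ofReal_le_iff_le_toReal hk.ne).1 h5
  have h7 : (i : ℝ) ≤ Real.log Φ / Real.log 2 := by
    rw [le_div_iff₀ (Real.log_pos (by norm_num)), ← Real.log_pow]
    exact Real.log_le_log (by positivity) h1
  have hlog0 : 0 ≤ Real.log Φ := Real.log_nonneg hΦ1
  have h8 : (1 : ℝ) + i ≤ 2 * (1 + Real.log Φ) := by
    have h9 : Real.log Φ / Real.log 2 ≤ 2 * Real.log Φ := by
      rw [div_le_iff₀ (Real.log_pos (by norm_num))]
      have := Real.log_two_gt_d9
      nlinarith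
    linarith
  have hV0 : 0 ≤ V.toReal := ENNReal.toReal_nonneg
  have h10 : cs (tau d p hp) k ≤ V.toReal * ((2 : ℝ) ^ i * (1 + i) ^ 2) := by
    rw [one_div, inv_mul_le_iff₀ (by positivity)] at h6
    linarith
  refine h10.trans ?_
  have h11 : (1 + (i : ℝ)) ^ 2 ≤ 4 * (1 + Real.log Φ) ^ 2 := by
    calc (1 + (i : ℝ)) ^ 2 ≤ (2 * (1 + Real.log Φ)) ^ 2 := pow_le_pow_left₀ (by positivity) h8 2
      _ = _ := by ring
  calc V.toReal * ((2 : ℝ) ^ i * (1 + i) ^ 2)
      ≤ V.toReal * (Φ * (4 * (1 + Real.log Φ) ^ 2)) := by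
        refine mul_le_mul_of_nonneg_left ?_ hV0
        exact mul_le_mul h1 h11 (by positivity) (by linarith)
    _ = _ := by ring

end Pool.Agent.Helper33P
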