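import Pool.Agent.Helper33P.Fin

set_option autoImplicit false
set_option linter.unusedSectionVars false

/-! The coupling of the percolations at all parameters, and the maximal inequality in a finite set. -/

open MeasureTheory Filter Topology
open Pool.Agent.Results.MP_54f242_pr.InfraredMean

namespace Pool.Agent.Helper33P

variable {d : ℕ}

/-- the uniform distribution on `[0, 1]` -/
noncomputable def lam : Measure ℝ := volume.restrict (Set.Icc 0 1)

instance : IsProbabilityMeasure lam := ⟨by simp [lam]⟩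

/-- the threshold function -/
noncomputable def thr (t : NNReal) (u : ℝ) : Bool := decide (u ≤ t)

theorem thr_meas (t : NNReal) : Measurable (thr t) := by
  have h : MeasurableSet (thr t ⁻¹' {true}) := by
    have : thr t ⁻¹' {true} = Set.Iic (t : ℝ) := by ext u; simp [thr]
    rw [this]; exact measurableSet_Iic
  exact measurable_to_bool h

theorem map_thr (t : NNReal) (ht : t ≤ 1) : lam.map (thr t) = (PMF.bernoulli t ht).toMeasure := by
  have : IsProbabilityMeasure (lam.map (thr t)) :=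
    Measure.isProbabilityMeasure_map (thr_meas t).aemeasurable
  refine bool_ext _ _ ?_
  rw [Measure.map_apply (thr_meas t) (MeasurableSet.singleton true), ber_true]
  have h1 : thr t ⁻¹' {true} = Set.Iic (t : ℝ) := by ext u; simp [thr]
  rw [h1, lam, Measure.restrict_apply measurableSet_Iic]
  have h2 : Set.Iic (t : ℝ) ∩ Set.Icc 0 1 = Set.Icc 0 (t : ℝ) := by
    ext u
    simp only [Set.mem_inter_iff, Set.mem_Iic, Set.mem_Icc]
    have h3 : (t : ℝ) ≤ 1 := by exact_mod_cast ht
    constructor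
    · rintro ⟨h4, h5, h6⟩; exact ⟨h5, h4⟩
    · rintro ⟨h4, h5⟩; exact ⟨h5, h4, h5.trans h3⟩
  rw [h2, Real.volume_Icc, sub_zero]
  simp

/-- the coupling -/
noncomputable def mu (d : ℕ) : Measure ((Fin d → ℤ) × Fin d → ℝ) :=
  Measure.infinitePi (fun _ => lam)

instance : IsProbabilityMeasure (mu d) := by unfold mu; infer_instance

/-- the configuration at the parameter `t` -/
noncomputable def conf (t : NNReal) (U : (Fin d → ℤ) × Fin d → ℝ) : (Fin d → ℤ) × Fin d → Bool :=
  fun e => thr t (U e)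

theorem conf_meas (t : NNReal) : Measurable (conf (d := d) t) :=
  measurable_pi_iff.2 fun e => (thr_meas t).comp (measurable_pi_apply e)

theorem map_conf (t : NNReal) (ht : t ≤ 1) : (mu d).map (conf t) = P d t ht := by
  have := Measure.infinitePi_map_pi (μ := fun _ : (Fin d → ℤ) × Fin d => lam)
    (f := fun _ => thr t) (fun _ => thr_meas t)
  simp only [map_thr t ht] at this
  exact this

/-- connection at the parameter `t` -/
def rel (U : (Fin d → ℤ) × Fin d → ℝ) (t : NNReal) (x y : Fin d → ℤ) : Prop :=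
  (opn (conf t U)).Reachable x y

theorem rel_equiv (U : (Fin d → ℤ) × Fin d → ℝ) (t : NNReal) : Equivalence (rel U t) :=
  ⟨fun x => SimpleGraph.Reachable.refl x, fun h => SimpleGraph.Reachable.symm h,
    fun h h' => SimpleGraph.Reachable.trans h h'⟩

theorem rel_mono (U : (Fin d → ℤ) × Fin d → ℝ) (s t : NNReal) (h : s ≤ t) (x y : Fin d → ℤ)
    (hr : rel U s x y) : rel U t x y := by
  refine SimpleGraph.Reachable.mono (opn_mono fun e he => ?_) hr
  simp only [conf, thr, decide_eq_true_eq] at he ⊢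
  exact he.trans (by exact_mod_cast h)

theorem rel_meas (t : NNReal) (x y : Fin d → ℤ) :
    MeasurableSet {U : (Fin d → ℤ) × Fin d → ℝ | rel U t x y} :=
  conf_meas t (meas_reach x y)

theorem rel_prob (t : NNReal) (ht : t ≤ 1) (x y : Fin d → ℤ) :
    (mu d).real {U | rel U t x y} = tau d t ht (y - x) := by
  rw [← prob_reach t ht x y, ← map_conf t ht, Measure.map_apply (conf_meas t) (meas_reach x y)]
  rfl

/-- the quadratic form of the two-point function is an expectation -/
theorem qf_int (t : NNReal) (ht : t ≤ 1) (Λ : Finset (Fin d → ℤ)) (k : Fin d → ℝ) :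
    ∫ U, qf Λ (rel U t) k ∂(mu d) =
      ∑ x ∈ Λ, ∑ y ∈ Λ, tau d t ht (y - x) * Real.cos (dot k (y - x)) := by
  classical
  have h0 : ∀ U : (Fin d → ℤ) × Fin d → ℝ, qf Λ (rel U t) k = ∑ x ∈ Λ, ∑ y ∈ Λ,
      Set.indicator {U : (Fin d → ℤ) × Fin d → ℝ | rel U t x y}
        (fun _ => Real.cos (dot k (y - x))) U := by
    intro U
    unfold qf
    refine Finset.sum_congr rfl fun x _ => Finset.sum_congr rfl fun y _ => ?_
    simp only [Set.indicator_apply, Set.mem_ofPred_eq]
  have hint : ∀ x y : Fin d → ℤ, Integrable (Set.indicator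
      {U : (Fin d → ℤ) × Fin d → ℝ | rel U t x y} (fun _ => Real.cos (dot k (y - x)))) (mu d) :=
    fun x y => (integrable_const _).indicator (rel_meas t x y)
  simp_rw [h0]
  rw [integral_finsetSum _ fun x _ => integrable_finsetSum _ fun y _ => hint x y]
  refine Finset.sum_congr rfl fun x _ => ?_
  rw [integral_finsetSum _ fun y _ => hint x y]
  refine Finset.sum_congr rfl fun y _ => ?_
  rw [integral_indicator_const _ (rel_meas t x y), rel_prob t ht, smul_eq_mul]

theorem finite_max (Λ : Finset (Fin d → ℤ)) (M : Finset NNReal) (p : NNReal)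
    (hM : ∀ t ∈ M, t ≤ p) (hM1 : ∀ t ∈ M, t ≤ 1) :
    ∃ h : (Fin d → ℝ) → ℝ, Continuous h ∧ (∀ t (ht : t ∈ M) (k : Fin d → ℝ),
      ∑ x ∈ Λ, ∑ y ∈ Λ, tau d t (hM1 t ht) (y - x) * Real.cos (dot k (y - x)) ≤ h k) ∧
      ∫ k in cube d, h k ≤ (2 * Real.pi) ^ d *
        ∫ U, ∑ x ∈ Λ, 4 * (1 + (Nat.log 2 (cl Λ (rel U p) x).card : ℝ)) ^ 3 ∂(mu d) := by
  classical
  let I := {t // t ∈ insert p M} × {x // x ∈ Λ} × {y // y ∈ Λ}
  let A : I → Set ((Fin d → ℤ) × Fin d → ℝ) := fun i => {U | rel U i.1.1 i.2.1.1 i.2.2.1}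
  obtain ⟨D, hD, w, U, hw, hrep⟩ := finite_repr (mu d) A (fun i => rel_meas _ _ _)
  have hcl : ∀ a b : (Fin d → ℤ) × Fin d → ℝ, (∀ i, a ∈ A i ↔ b ∈ A i) → ∀ t ∈ insert p M,
      ∀ x ∈ Λ, ∀ y ∈ Λ, rel a t x y ↔ rel b t x y := by
    intro a b hab t ht x hx y hy
    exact hab ⟨⟨t, ht⟩, ⟨x, hx⟩, ⟨y, hy⟩⟩
  refine ⟨fun k => ∑ δ, w δ * HH Λ M (rel (U δ)) p k, ?_, ?_, ?_⟩
  · refine continuous_finsetSum _ fun δ _ => ?_
    exact continuous_const.mul (HH_cont _ _ _ _)
  · intro t ht k
    rw [← qf_int t (hM1 t ht) Λ k, hrep (fun V => qf Λ (rel V t) k)]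
    · refine Finset.sum_le_sum fun δ _ => mul_le_mul_of_nonneg_left ?_ (hw δ)
      exact qf_le Λ (rel_equiv (U δ)) (fun s t h x y => rel_mono (U δ) s t h x y) ht (hM t ht) k
    · intro a b hab
      unfold qf
      refine Finset.sum_congr rfl fun x hx => Finset.sum_congr rfl fun y hy => ?_
      simp only [hcl a b hab t (Finset.mem_insert_of_mem ht) x hx y hy]
  · have hI : ∀ δ, Integrable (fun k => w δ * HH Λ M (rel (U δ)) p k)
        (volume.restrict (cube d)) := fun δ =>
      integrable_of_cont (continuous_const.mul (HH_cont _ _ _ _))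
    rw [integral_finsetSum _ fun δ _ => hI δ,
      hrep (fun V => ∑ x ∈ Λ, 4 * (1 + (Nat.log 2 (cl Λ (rel V p) x).card : ℝ)) ^ 3),
      Finset.mul_sum]
    · refine Finset.sum_le_sum fun δ _ => ?_
      rw [integral_const_mul]
      have h1 := int_HH Λ (M := M) (r := rel (U δ))
        (fun s t h x y => rel_mono (U δ) s t h x y) p
      calc w δ * ∫ k in cube d, HH Λ M (rel (U δ)) p k
          ≤ w δ * ((2 * Real.pi) ^ d *
            ∑ x ∈ Λ, 4 * (1 + (Nat.log 2 (cl Λ (rel (U δ) p) x).card : ℝ)) ^ 3) :=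
            mul_le_mul_of_nonneg_left h1 (hw δ)
        _ = _ := by ring
    · intro a b hab
      refine Finset.sum_congr rfl fun x hx => ?_
      have : cl Λ (rel a p) x = cl Λ (rel b p) x := by
        ext y
        rw [mem_cl, mem_cl]
        constructor
        · rintro ⟨hy, h⟩
          exact ⟨hy, (hcl a b hab p (Finset.mem_insert_self _ _) x hx y hy).1 h⟩
        · rintro ⟨hy, h⟩
          exact ⟨hy, (hcl a b hab p (Finset.mem_insert_self _ _) x hx y hy).2 h⟩
      rw [this]

end Pool.Agent.Helper33P
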