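import Pool.Agent.Helper33P.Trunc2
import Pool.Agent.R942.AX.Lim

set_option autoImplicit false
set_option linter.unusedSectionVars false

/-! The Hausdorff dimension of the exceptional wave vectors. -/

open MeasureTheory Filter Topology
open Pool.Agent.Results.MP_54f242_pr.InfraredMean

namespace Pool.Agent.Helper33P

variable {d : ℕ}

/-! ### the Lipschitz constant -/

theorem walk_one (ω : (Fin d → ℤ) × Fin d → Bool) {u v : Fin d → ℤ}
    (p : (opn ω).Walk u v) : ∑ i, |v i - u i| ≤ p.length := by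
  induction p with
  | nil => simp
  | @cons u w v h p ih =>
    have h1 : ∑ i, |w i - u i| ≤ 1 := by
      rw [opn, SimpleGraph.fromRel_adj] at h
      rcases h.2 with ⟨j, h2, -⟩ | ⟨j, h2, -⟩
      · rw [h2]
        have : ∀ i : Fin d, |(u + (Pi.single j (1 : ℤ) : Fin d → ℤ)) i - u i| = if i = j then 1 else 0 := by
          intro i
          simp only [Pi.add_apply, add_sub_cancel_left, Pi.single_apply]
          split_ifs <;> simp
        simp_rw [this]
        simp
      · rw [h2]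
        have : ∀ i : Fin d, |w i - (w + (Pi.single j (1 : ℤ) : Fin d → ℤ)) i| = if i = j then 1 else 0 := by
          intro i
          simp only [Pi.add_apply, sub_add_cancel_left, abs_neg, Pi.single_apply]
          split_ifs <;> simp
        simp_rw [this]
        simp
    rw [SimpleGraph.Walk.length_cons]
    calc ∑ i, |v i - u i| ≤ ∑ i, (|v i - w i| + |w i - u i|) := by
          refine Finset.sum_le_sum fun i _ => ?_
          have h2 : v i - u i = (v i - w i) + (w i - u i) := by ring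
          rw [h2]
          exact abs_add_le _ _
      _ = ∑ i, |v i - w i| + ∑ i, |w i - u i| := Finset.sum_add_distrib
      _ ≤ _ := by push_cast; linarith

theorem small_one {n : ℕ} {ω : (Fin d → ℤ) × Fin d → Bool} (hs : small n ω 0) {x : Fin d → ℤ}
    (hx : (opn ω).Reachable 0 x) : ∑ i, |x i| ≤ n := by
  classical
  obtain ⟨p, hp⟩ := hx.exists_isPath
  have h1 : ((p.support.toFinset : Finset (Fin d → ℤ)) : Set (Fin d → ℤ)) ⊆
      {y | (opn ω).Reachable 0 y} := by
    intro y hy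
    have hy' : y ∈ p.support := by simpa using hy
    exact (p.takeUntil y hy').reachable
  have h2 := (Set.encard_le_encard h1).trans hs
  rw [Set.encard_coe_eq_coe_finsetCard] at h2
  have h3 : p.support.toFinset.card ≤ n := by exact_mod_cast h2
  rw [List.toFinset_card_of_nodup hp.support_nodup, SimpleGraph.Walk.length_support] at h3
  have h4 := walk_one ω p
  simp only [Pi.zero_apply, sub_zero] at h4
  omega

theorem tn_zero_of_far (n : ℕ) (p : NNReal) (hp : p ≤ 1) (x : Fin d → ℤ)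
    (hx : (n : ℤ) < ∑ i, |x i|) : tn d n p hp x = 0 := by
  unfold tn
  have : {ω : (Fin d → ℤ) × Fin d → Bool | (opn ω).Reachable 0 x ∧ small n ω 0} = ∅ := by
    by_contra hne
    obtain ⟨ω, h1, h2⟩ := Set.nonempty_iff_ne_empty.2 hne
    exact absurd (small_one h2 h1) (not_le.2 hx)
  rw [this]
  simp

theorem tn_sum_le (n : ℕ) (p : NNReal) (hp : p ≤ 1) :
    ∑ x ∈ FF d n, tn d n p hp x ≤ n := by
  classical
  have h1 : ∀ x, tn d n p hp x = ∫ ω, Set.indicator
      {ω : (Fin d → ℤ) × Fin d → Bool | (opn ω).Reachable 0 x ∧ small n ω 0}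
      (fun _ => (1 : ℝ)) ω ∂(P d p hp) := by
    intro x
    rw [integral_indicator_const _ (tn_meas n 0 x), smul_eq_mul, mul_one]
    rfl
  simp_rw [h1]
  rw [← integral_finsetSum _ fun x _ => (integrable_const _).indicator (tn_meas n 0 x)]
  have h2 : ∀ ω : (Fin d → ℤ) × Fin d → Bool, ∑ x ∈ FF d n, Set.indicator
      {ω : (Fin d → ℤ) × Fin d → Bool | (opn ω).Reachable 0 x ∧ small n ω 0}
      (fun _ => (1 : ℝ)) ω ≤ n := by
    intro ω
    simp only [Set.indicator_apply, Set.mem_ofPred_eq]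
    by_cases hs : small n ω 0
    · rw [← Finset.sum_filter, Finset.sum_const, nsmul_eq_mul, mul_one]
      have h3 : (((FF d n).filter fun x => (opn ω).Reachable 0 x ∧ small n ω 0 :
          Finset (Fin d → ℤ)) : Set (Fin d → ℤ)) ⊆ {y | (opn ω).Reachable 0 y} := by
        intro y hy
        exact (Finset.mem_filter.1 (Finset.mem_coe.1 hy)).2.1
      have h4 := (Set.encard_le_encard h3).trans hs
      rw [Set.encard_coe_eq_coe_finsetCard] at h4
      exact_mod_cast h4
    · rw [Finset.sum_eq_zero fun x _ => if_neg fun h => hs h.2]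
      exact Nat.cast_nonneg n
  calc _ ≤ ∫ _, (n : ℝ) ∂(P d p hp) := by
        refine integral_mono (integrable_finsetSum _ fun x _ =>
          (integrable_const _).indicator (tn_meas n 0 x)) (integrable_const _) fun ω => ?_
        exact h2 ω
    _ = n := by simp

theorem tn_lip (n : ℕ) (p : NNReal) (hp : p ≤ 1) (k k' : Fin d → ℝ) {ρ : ℝ} (hρ : 0 ≤ ρ)
    (hk : ∀ i, |k i - k' i| ≤ ρ) :
    cs (tn d n p hp) k ≤ cs (tn d n p hp) k' + n * (n * ρ) := by
  have h0 := cs_tn (d := d) n ⟨p, hp⟩ k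
  have h0' := cs_tn (d := d) n ⟨p, hp⟩ k'
  simp only at h0 h0'
  rw [h0, h0', ← sub_le_iff_le_add', ← Finset.sum_sub_distrib]
  have h1 : ∀ x ∈ FF d n, tn d n p hp x * Real.cos (dot k x) - tn d n p hp x * Real.cos (dot k' x)
      ≤ tn d n p hp x * (n * ρ) := by
    intro x _
    rcases lt_or_ge (n : ℤ) (∑ i, |x i|) with h | h
    · rw [tn_zero_of_far n p hp x h]; simp
    · rw [← mul_sub]
      refine mul_le_mul_of_nonneg_left ?_ (tn_nonneg n p hp x)
      have h2 : Real.cos (dot k x) - Real.cos (dot k' x) ≤ |dot k x - dot k' x| :=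
        (le_abs_self _).trans (Real.abs_cos_sub_cos_le _ _)
      refine h2.trans ?_
      have h3 : dot k x - dot k' x = ∑ i, (k i - k' i) * (x i : ℝ) := by
        unfold dot
        rw [← Finset.sum_sub_distrib]
        exact Finset.sum_congr rfl fun i _ => by ring
      rw [h3]
      refine (Finset.abs_sum_le_sum_abs _ _).trans ?_
      calc ∑ i, |(k i - k' i) * (x i : ℝ)| ≤ ∑ i, ρ * |(x i : ℝ)| := by
            refine Finset.sum_le_sum fun i _ => ?_
            rw [abs_mul]
            exact mul_le_mul_of_nonneg_right (hk i) (abs_nonneg _)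
        _ = ρ * ((∑ i, |x i| : ℤ) : ℝ) := by
            rw [← Finset.mul_sum]; push_cast; rfl
        _ ≤ ρ * n := mul_le_mul_of_nonneg_left (by exact_mod_cast h) hρ
        _ = n * ρ := mul_comm _ _
  refine (Finset.sum_le_sum h1).trans ?_
  rw [← Finset.sum_mul]
  exact mul_le_mul_of_nonneg_right (tn_sum_le n p hp) (by positivity)

/-! ### the grid -/

/-- the cell of the grid of `M ^ d` cells -/
def cell (M : ℕ) (Q : Fin d → Fin M) : Set (Fin d → ℝ) :=
  Set.pi Set.univ fun i => Set.Ioc (-Real.pi + 2 * Real.pi / M * (Q i : ℕ))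
    (-Real.pi + 2 * Real.pi / M * ((Q i : ℕ) + 1))

theorem cell_meas (M : ℕ) (Q : Fin d → Fin M) : MeasurableSet (cell M Q) :=
  MeasurableSet.univ_pi fun _ => measurableSet_Ioc

theorem cell_vol (M : ℕ) (Q : Fin d → Fin M) :
    volume (cell M Q) = ENNReal.ofReal ((2 * Real.pi / M) ^ d) := by
  unfold cell
  rw [volume_pi_pi]
  simp only [Real.volume_Ioc]
  have : ∀ i, (-Real.pi + 2 * Real.pi / M * (((Q i : ℕ) : ℝ) + 1)) -
      (-Real.pi + 2 * Real.pi / M * ((Q i : ℕ) : ℝ)) = 2 * Real.pi / M := fun i => by ring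
  simp_rw [this]
  rw [Finset.prod_const, Finset.card_univ, Fintype.card_fin, ENNReal.ofReal_pow (by positivity)]

theorem cell_sub (M : ℕ) (hM : 0 < M) (Q : Fin d → Fin M) : cell M Q ⊆ cube d := by
  intro k hk
  unfold cell at hk
  unfold cube
  rw [Set.mem_univ_pi] at hk ⊢
  intro i
  have h1 := hk i
  have h2 : ((Q i : ℕ) : ℝ) + 1 ≤ M := by exact_mod_cast (Q i).2
  have h3 : (0 : ℝ) ≤ (Q i : ℕ) := Nat.cast_nonneg _
  have hMp : (0 : ℝ) < M := by exact_mod_cast hM
  have h4 : 0 < 2 * Real.pi / M := by positivity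
  refine ⟨?_, ?_⟩
  · have := h1.1
    nlinarith
  · refine h1.2.trans ?_
    have h5 : 2 * Real.pi / M * (((Q i : ℕ) : ℝ) + 1) ≤ 2 * Real.pi / M * M :=
      mul_le_mul_of_nonneg_left h2 h4.le
    rw [div_mul_cancel₀ _ hMp.ne'] at h5
    linarith

theorem cell_cover (M : ℕ) (hM : 0 < M) {k : Fin d → ℝ} (hk : k ∈ cube d) :
    ∃ Q : Fin d → Fin M, k ∈ cell M Q := by
  have hMp : (0 : ℝ) < M := by exact_mod_cast hM
  have h4 : 0 < 2 * Real.pi / M := by positivity
  have h : ∀ i, ∃ q : Fin M, k i ∈ Set.Ioc (-Real.pi + 2 * Real.pi / M * (q : ℕ))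
      (-Real.pi + 2 * Real.pi / M * ((q : ℕ) + 1)) := by
    intro i
    unfold cube at hk
    rw [Set.mem_univ_pi] at hk
    have h1 := hk i
    set y := (k i + Real.pi) / (2 * Real.pi / M) with hy
    have hy0 : 0 < y := div_pos (by linarith [h1.1]) h4
    have hyM : y ≤ M := by
      rw [hy, div_le_iff₀ h4, mul_div_cancel₀ _ hMp.ne']
      linarith [h1.2]
    have hk2 : k i = -Real.pi + 2 * Real.pi / M * y := by
      rw [hy, mul_div_cancel₀ _ h4.ne']; ring
    set m := ⌈y⌉₊ with hm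
    have hm0 : 0 < m := Nat.ceil_pos.2 hy0
    have hmM : m ≤ M := Nat.ceil_le.2 hyM
    have hm1 : (m : ℝ) < y + 1 := Nat.ceil_lt_add_one hy0.le
    have hm2 : y ≤ m := Nat.le_ceil y
    refine ⟨⟨m - 1, by omega⟩, ?_⟩
    have hc : ((m - 1 : ℕ) : ℝ) = m - 1 := by rw [Nat.cast_sub hm0]; simp
    simp only [hc, hk2]
    constructor
    · nlinarith
    · have : (m : ℝ) - 1 + 1 = m := by ring
      rw [this]
      nlinarith
  choose Q hQ using h
  exact ⟨Q, Set.mem_univ_pi.2 hQ⟩

theorem cell_disj (M : ℕ) : Set.PairwiseDisjoint (Set.univ : Set (Fin d → Fin M)) (cell M) := by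
  intro Q _ Q' _ hne
  rw [Function.onFun, Set.disjoint_left]
  intro k hk hk'
  apply hne
  funext i
  unfold cell at hk hk'
  rw [Set.mem_univ_pi] at hk hk'
  have h1 := hk i
  have h2 := hk' i
  have hM : 0 < M := (Q i).pos
  have hMp : (0 : ℝ) < M := by exact_mod_cast hM
  have h4 : 0 < 2 * Real.pi / M := by positivity
  have h5 : ((Q i : ℕ) : ℝ) < (Q' i : ℕ) + 1 := by
    by_contra hc
    rw [not_lt] at hc
    have := mul_le_mul_of_nonneg_left hc h4.le
    linarith [h1.1, h2.2]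
  have h6 : ((Q' i : ℕ) : ℝ) < (Q i : ℕ) + 1 := by
    by_contra hc
    rw [not_lt] at hc
    have := mul_le_mul_of_nonneg_left hc h4.le
    linarith [h2.1, h1.2]
  have h7 : (Q i : ℕ) < (Q' i : ℕ) + 1 := by exact_mod_cast h5
  have h8 : (Q' i : ℕ) < (Q i : ℕ) + 1 := by exact_mod_cast h6
  exact Fin.ext (by omega)

theorem cell_close (M : ℕ) (Q : Fin d → Fin M) {k k' : Fin d → ℝ} (hk : k ∈ cell M Q)
    (hk' : k' ∈ cell M Q) (i : Fin d) : |k i - k' i| ≤ 2 * Real.pi / M := by
  unfold cell at hk hk'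
  rw [Set.mem_univ_pi] at hk hk'
  have h1 := hk i
  have h2 := hk' i
  rw [abs_le]
  constructor <;> nlinarith [h1.1, h1.2, h2.1, h2.2]

theorem cell_diam (M : ℕ) (Q : Fin d → Fin M) :
    Metric.ediam (cell M Q) ≤ ENNReal.ofReal (2 * Real.pi / M) := by
  refine Metric.ediam_le fun k hk k' hk' => ?_
  rw [edist_dist]
  refine ENNReal.ofReal_le_ofReal ?_
  rw [dist_pi_le_iff (by positivity)]
  intro i
  rw [Real.dist_eq]
  exact cell_close M Q hk hk' i

/-- the number of the cells which meet the exceptional set -/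
theorem count_cells (n M : ℕ) (hM : 0 < M) {lam : ℝ} (hlam : 0 < lam)
    (hρ : (n : ℝ) * (n * (2 * Real.pi / M)) ≤ lam / 2) (G : Finset (Fin d → Fin M))
    (hG : ∀ Q ∈ G, ∃ k ∈ cell M Q, ∃ (p : NNReal) (hp : p ≤ 1), lam ≤ cs (tn d n p hp) k) :
    (G.card : ℝ) * lam ≤ 2 * (M : ℝ) ^ d * (1 + 4 * (1 + (Nat.log 2 n : ℝ)) ^ 3) := by
  classical
  obtain ⟨W, hW1, hW2, hW3⟩ := majorant_small (d := d) n
  have hMp : (0 : ℝ) < M := by exact_mod_cast hM
  have h4 : 0 < 2 * Real.pi / M := by positivity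
  have hWpos : ∀ k, 0 ≤ W k := fun k =>
    (tn_hat_nonneg _ 0 zero_le_one k).trans (hW2 0 zero_le_one k)
  have hlow : ∀ Q ∈ G, ∀ k ∈ cell M Q, lam / 2 ≤ W k := by
    intro Q hQ k hk
    obtain ⟨k', hk', p, hp, hl⟩ := hG Q hQ
    have h1 := tn_lip n p hp k' k h4.le fun i => cell_close M Q hk' hk i
    have h2 := hW2 p hp k
    linarith
  have hint : ∀ Q, IntegrableOn W (cell M Q) volume := fun Q =>
    (show IntegrableOn W (cube d) volume from integrable_of_cont hW1).mono_set (cell_sub M hM Q)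
  have h5 : ∑ Q ∈ G, ∫ k in cell M Q, W k ≤ ∫ k in cube d, W k := by
    rw [← integral_biUnion_finset G (fun Q _ => cell_meas M Q)
      (fun Q _ Q' _ h => cell_disj M (Set.mem_univ Q) (Set.mem_univ Q') h)
      (fun Q _ => hint Q)]
    refine setIntegral_mono_set (integrable_of_cont hW1) (Eventually.of_forall hWpos) ?_
    refine LE.le.eventuallyLE ?_
    exact Set.iUnion₂_subset fun Q _ => cell_sub M hM Q
  have h6 : ∀ Q ∈ G, (2 * Real.pi / M) ^ d * (lam / 2) ≤ ∫ k in cell M Q, W k := by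
    intro Q hQ
    have h7 : ∫ _ in cell M Q, (lam / 2 : ℝ) = (2 * Real.pi / M) ^ d * (lam / 2) := by
      rw [setIntegral_const, smul_eq_mul, Measure.real, cell_vol, ENNReal.toReal_ofReal
        (by positivity)]
    rw [← h7]
    refine setIntegral_mono_on ?_ (hint Q) (cell_meas M Q) (hlow Q hQ)
    exact integrableOn_const (by rw [cell_vol]; exact ENNReal.ofReal_ne_top)
  have h8 : (G.card : ℝ) * ((2 * Real.pi / M) ^ d * (lam / 2)) ≤
      (2 * Real.pi) ^ d * (1 + 4 * (1 + (Nat.log 2 n : ℝ)) ^ 3) := by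
    rw [← nsmul_eq_mul, ← Finset.sum_const]
    exact (Finset.sum_le_sum h6).trans (h5.trans hW3)
  have hpd : (0 : ℝ) < (2 * Real.pi) ^ d := by positivity
  have hMd : (0 : ℝ) < (M : ℝ) ^ d := by positivity
  rw [div_pow] at h8
  have h9 : (G.card : ℝ) * lam * (2 * Real.pi) ^ d ≤
      2 * (M : ℝ) ^ d * (1 + 4 * (1 + (Nat.log 2 n : ℝ)) ^ 3) * (2 * Real.pi) ^ d := by
    calc (G.card : ℝ) * lam * (2 * Real.pi) ^ d
        = ((G.card : ℝ) * ((2 * Real.pi) ^ d / (M : ℝ) ^ d * (lam / 2))) * (2 * (M : ℝ) ^ d) := by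
          field_simp
      _ ≤ ((2 * Real.pi) ^ d * (1 + 4 * (1 + (Nat.log 2 n : ℝ)) ^ 3)) * (2 * (M : ℝ) ^ d) :=
          mul_le_mul_of_nonneg_right h8 (by positivity)
      _ = _ := by ring
  exact le_of_mul_le_mul_right h9 hpd

end Pool.Agent.Helper33P
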