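import Pool.Agent.Helper33P.Dim

set_option autoImplicit false
set_option linter.unusedSectionVars false

/-! The Hausdorff dimension of the exceptional wave vectors. -/

open MeasureTheory Filter Topology
open Pool.Agent.Results.MP_54f242_pr.InfraredMean

namespace Pool.Agent.Helper33P

variable {d : ℕ}

/-- the exceptional wave vectors: `τ̂_{p,n}(k) ≥ n ^ a` for infinitely many `n`, for some `p` -/
def EE (d : ℕ) (a : ℝ) : Set (Fin d → ℝ) :=
  {k | k ∈ cube d ∧ {n : ℕ | ∃ (p : NNReal) (hp : p ≤ 1), (n : ℝ) ^ a ≤ cs (tn d n p hp) k}.Infinite}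

theorem dim_aux (a s : ℝ) (ha : 0 < a) (ha1 : a ≤ 1) (hs0 : 0 < s) (hsd : s < d)
    (hs : (2 - a) * (d - s) < a) : dimH (EE d a) ≤ ENNReal.ofReal s := by
  classical
  have hpi := Real.pi_pos
  have hpi4 := Real.pi_lt_four
  let lam : ℕ → ℝ := fun m => ((2 : ℝ) ^ m / 2) ^ a
  have hlam : ∀ m, 0 < lam m := fun m => Real.rpow_pos_of_pos (by positivity) a
  let M : ℕ → ℕ := fun m => ⌈4 * Real.pi * (4 : ℝ) ^ m / lam m⌉₊ + 1
  have hM : ∀ m, 0 < M m := fun m => Nat.succ_pos _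
  have hM1 : ∀ m, 4 * Real.pi * (4 : ℝ) ^ m / lam m ≤ M m := by
    intro m
    have := Nat.le_ceil (4 * Real.pi * (4 : ℝ) ^ m / lam m)
    simp only [M]
    push_cast
    linarith
  let bad : ∀ m, (Fin d → Fin (M m)) → Prop := fun m Q =>
    ∃ k ∈ cell (M m) Q, ∃ (p : NNReal) (hp : p ≤ 1), lam m ≤ cs (tn d (2 ^ m) p hp) k
  let U : (Σ m : ℕ, (Fin d → Fin (M m))) → Set (Fin d → ℝ) := fun i =>
    if bad i.1 i.2 then cell (M i.1) i.2 else ∅
  -- the exceptional set is contained in the limsup set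
  have hsub : EE d a ⊆ {x | {i | x ∈ U i}.Infinite} := by
    rintro k ⟨hk, hinf⟩
    by_contra hfin
    rw [Set.mem_ofPred_eq, Set.not_infinite] at hfin
    obtain ⟨m₀, hm₀⟩ := (hfin.image Sigma.fst).bddAbove
    obtain ⟨n, hn, hnl⟩ := hinf.exists_gt (2 ^ (m₀ + 1))
    obtain ⟨p, hp, hl⟩ := hn
    have hn1 : 1 < n := lt_of_le_of_lt Nat.one_le_two_pow hnl
    set m := Nat.clog 2 n with hm
    have h1 : n ≤ 2 ^ m := Nat.le_pow_clog (by norm_num) n
    have h2 : 2 ^ (m - 1) < n := by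
      have := Nat.pow_pred_clog_lt_self (by norm_num : 1 < 2) hn1
      simpa [hm, Nat.pred_eq_sub_one] using this
    have h3 : m₀ + 1 < m := by
      by_contra hc
      rw [not_lt] at hc
      exact absurd (h1.trans (Nat.pow_le_pow_right (by norm_num) hc)) (not_le.2 hnl)
    have h4 : lam m ≤ cs (tn d (2 ^ m) p hp) k := by
      refine le_trans ?_ (hl.trans (tn_hat_mono h1 p hp k))
      simp only [lam]
      refine Real.rpow_le_rpow (by positivity) ?_ ha.le
      have h5 : ((2 ^ (m - 1) : ℕ) : ℝ) ≤ n := by exact_mod_cast h2.le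
      have h6 : (2 : ℝ) ^ m / 2 = ((2 ^ (m - 1) : ℕ) : ℝ) := by
        obtain ⟨j, hj⟩ := Nat.exists_eq_succ_of_ne_zero (by omega : m ≠ 0)
        rw [hj, Nat.succ_eq_add_one, pow_succ, Nat.add_sub_cancel]
        push_cast
        ring
      rw [h6]
      exact h5
    obtain ⟨Q, hQ⟩ := cell_cover (M m) (hM m) hk
    have hbad : bad m Q := ⟨k, hQ, p, hp, h4⟩
    have hmem : (⟨m, Q⟩ : Σ m : ℕ, (Fin d → Fin (M m))) ∈ {i | k ∈ U i} := by
      show k ∈ U ⟨m, Q⟩
      simp only [U, if_pos hbad]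
      exact hQ
    have := hm₀ (Set.mem_image_of_mem Sigma.fst hmem)
    simp only at this
    omega
  refine (dimH_mono hsub).trans (Pool.Agent.R942.AX.dimH_limsup U hs0 ?_)
  -- the sum
  have hcard : ∀ m, (((Finset.univ.filter (bad m)).card : ℝ)) * lam m ≤
      2 * (M m : ℝ) ^ d * (1 + 4 * (1 + (m : ℝ)) ^ 3) := by
    intro m
    have h := count_cells (d := d) (2 ^ m) (M m) (hM m) (hlam m) (by
      have h1 := hM1 m
      have hMp : (0 : ℝ) < M m := by exact_mod_cast hM m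
      rw [div_le_iff₀ (hlam m)] at h1
      have h4 : ((2 ^ m : ℕ) : ℝ) * (((2 ^ m : ℕ) : ℝ) * (2 * Real.pi / M m)) =
          2 * Real.pi * 4 ^ m / M m := by
        push_cast
        have : (4 : ℝ) ^ m = 2 ^ m * 2 ^ m := by rw [← mul_pow]; norm_num
        rw [this]; ring
      rw [h4, div_le_iff₀ hMp]
      nlinarith) (Finset.univ.filter (bad m)) (fun Q hQ => (Finset.mem_filter.1 hQ).2)
    rw [Nat.log_pow (by norm_num)] at h
    exact h
  set q : ℝ := (2 : ℝ) ^ ((2 - a) * (d - s) - a) with hq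
  have hq0 : 0 < q := Real.rpow_pos_of_pos (by norm_num) _
  have hq1 : q < 1 := Real.rpow_lt_one_of_one_lt_of_neg (by norm_num) (by linarith)
  have hds : 0 < (d : ℝ) - s := by linarith
  set K : ℝ := 20 * (2 * Real.pi) ^ s * 30 ^ ((d : ℝ) - s) with hK
  have hterm : ∀ m, ((Finset.univ.filter (bad m)).card : ℝ) * (2 * Real.pi / M m) ^ s ≤
      K * (((m : ℝ) + 1) ^ 3 * q ^ m) := by
    intro m
    have hMp : (0 : ℝ) < M m := by exact_mod_cast hM m
    have hlm := hlam m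
    have h1 : ((Finset.univ.filter (bad m)).card : ℝ) ≤
        10 * (M m : ℝ) ^ d * (1 + (m : ℝ)) ^ 3 / lam m := by
      rw [le_div_iff₀ hlm]
      refine (hcard m).trans ?_
      have h2 : (1 : ℝ) ≤ (1 + (m : ℝ)) ^ 3 := one_le_pow₀ (by linarith [Nat.cast_nonneg (α := ℝ) m])
      have h3 : (0 : ℝ) < (M m : ℝ) ^ d := by positivity
      nlinarith
    -- lower bound for `lam`
    have h2m : (1 : ℝ) ≤ 2 ^ m := one_le_pow₀ (by norm_num)
    have h5 : ((2 : ℝ) ^ a) ^ m / 2 ≤ lam m := by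
      simp only [lam]
      rw [Real.div_rpow (by positivity) (by norm_num), ← Real.rpow_natCast 2 m, ← Real.rpow_mul
        (by norm_num), ← Real.rpow_natCast (2 ^ a) m, ← Real.rpow_mul (by norm_num), mul_comm a]
      refine div_le_div_of_nonneg_left (by positivity) (by positivity) ?_
      calc (2 : ℝ) ^ a ≤ 2 ^ (1 : ℝ) := Real.rpow_le_rpow_of_exponent_le (by norm_num) ha1
        _ = 2 := Real.rpow_one 2
    have h2a : (0 : ℝ) < (2 : ℝ) ^ a := Real.rpow_pos_of_pos (by norm_num) a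
    -- upper bound for `M`
    have h6 : (M m : ℝ) ≤ 30 * ((2 : ℝ) ^ (2 - a)) ^ m := by
      have h7 : (M m : ℝ) ≤ 4 * Real.pi * (4 : ℝ) ^ m / lam m + 2 := by
        have := (Nat.ceil_lt_add_one
          (by positivity : (0 : ℝ) ≤ 4 * Real.pi * (4 : ℝ) ^ m / lam m)).le
        simp only [M]
        push_cast
        linarith
      have h8 : 4 * Real.pi * (4 : ℝ) ^ m / lam m ≤ 4 * Real.pi * (4 : ℝ) ^ m / (((2 : ℝ) ^ a) ^ m / 2) :=
        div_le_div_of_nonneg_left (by positivity) (by positivity) h5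
      have h9 : (4 : ℝ) ^ m / ((2 : ℝ) ^ a) ^ m = ((2 : ℝ) ^ (2 - a)) ^ m := by
        rw [← div_pow, Real.rpow_sub (by norm_num)]
        norm_num
      have h10 : 4 * Real.pi * (4 : ℝ) ^ m / (((2 : ℝ) ^ a) ^ m / 2) =
          8 * Real.pi * ((2 : ℝ) ^ (2 - a)) ^ m := by
        rw [← h9]; field_simp; ring
      have h11 : (1 : ℝ) ≤ ((2 : ℝ) ^ (2 - a)) ^ m :=
        one_le_pow₀ (Real.one_le_rpow (by norm_num) (by linarith))
      rw [h10] at h8
      have hpi3 : Real.pi < 3.15 := Real.pi_lt_d2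
      nlinarith
    have h12 : (M m : ℝ) ^ d * (M m : ℝ) ^ (-s) = (M m : ℝ) ^ ((d : ℝ) - s) := by
      rw [← Real.rpow_natCast, ← Real.rpow_add hMp]; rfl
    have h13 : (M m : ℝ) ^ ((d : ℝ) - s) ≤ 30 ^ ((d : ℝ) - s) * (((2 : ℝ) ^ (2 - a)) ^ m) ^ ((d : ℝ) - s) := by
      rw [← Real.mul_rpow (by norm_num) (by positivity)]
      exact Real.rpow_le_rpow hMp.le h6 hds.le
    have h14 : (2 * Real.pi / M m) ^ s = (2 * Real.pi) ^ s * (M m : ℝ) ^ (-s) := by
      rw [Real.div_rpow (by positivity) hMp.le, Real.rpow_neg hMp.le]; rfl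
    have h15 : (((2 : ℝ) ^ (2 - a)) ^ m) ^ ((d : ℝ) - s) * (((2 : ℝ) ^ a) ^ m)⁻¹ = q ^ m := by
      rw [hq, ← Real.rpow_natCast (2 ^ (2 - a)) m, ← Real.rpow_natCast (2 ^ a) m,
        ← Real.rpow_natCast (2 ^ ((2 - a) * (d - s) - a)) m, ← Real.rpow_mul (by positivity),
        ← Real.rpow_mul (by positivity), ← Real.rpow_mul (by positivity),
        ← Real.rpow_mul (by positivity), ← Real.rpow_neg (by norm_num), ← Real.rpow_add (by norm_num)]
      congr 1
      ring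
    have h16 : (lam m)⁻¹ ≤ 2 * (((2 : ℝ) ^ a) ^ m)⁻¹ := by
      have := inv_anti₀ (by positivity : (0 : ℝ) < ((2 : ℝ) ^ a) ^ m / 2) h5
      rw [inv_div] at this
      rw [← div_eq_mul_inv]
      exact this
    have hMd : (0 : ℝ) < (M m : ℝ) ^ ((d : ℝ) - s) := Real.rpow_pos_of_pos hMp _
    calc ((Finset.univ.filter (bad m)).card : ℝ) * (2 * Real.pi / M m) ^ s
        ≤ (10 * (M m : ℝ) ^ d * (1 + (m : ℝ)) ^ 3 / lam m) * (2 * Real.pi / M m) ^ s :=
          mul_le_mul_of_nonneg_right h1 (by positivity)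
      _ = 10 * (2 * Real.pi) ^ s * (1 + (m : ℝ)) ^ 3 * ((M m : ℝ) ^ ((d : ℝ) - s) * (lam m)⁻¹) := by
          rw [h14, ← h12, div_eq_mul_inv]; ring
      _ ≤ 10 * (2 * Real.pi) ^ s * (1 + (m : ℝ)) ^ 3 * ((30 ^ ((d : ℝ) - s) *
            (((2 : ℝ) ^ (2 - a)) ^ m) ^ ((d : ℝ) - s)) * (2 * (((2 : ℝ) ^ a) ^ m)⁻¹)) := by
          refine mul_le_mul_of_nonneg_left ?_ (by positivity)
          exact mul_le_mul h13 h16 (by positivity) (by positivity)
      _ = K * (((m : ℝ) + 1) ^ 3 * ((((2 : ℝ) ^ (2 - a)) ^ m) ^ ((d : ℝ) - s) *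
            (((2 : ℝ) ^ a) ^ m)⁻¹)) := by rw [hK]; ring
      _ = K * (((m : ℝ) + 1) ^ 3 * q ^ m) := by rw [h15]
  have hsum : Summable fun m : ℕ => K * (((m : ℝ) + 1) ^ 3 * q ^ m) := by
    refine Summable.mul_left _ ?_
    have h1 : Summable fun m : ℕ => (m : ℝ) ^ 3 * q ^ m :=
      summable_pow_mul_geometric_of_norm_lt_one 3 (by
        rw [Real.norm_eq_abs, abs_of_pos hq0]; exact hq1)
    have h2 := ((summable_nat_add_iff 1).2 h1).mul_left q⁻¹
    refine h2.congr fun m => ?_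
    push_cast
    rw [pow_succ q m]
    field_simp
  have hK0 : 0 ≤ K := by positivity
  have hfinal : ∑' i, Metric.ediam (U i) ^ s ≤
      ∑' m : ℕ, ENNReal.ofReal (K * (((m : ℝ) + 1) ^ 3 * q ^ m)) := by
    rw [ENNReal.tsum_sigma']
    refine ENNReal.tsum_le_tsum fun m => ?_
    rw [tsum_fintype]
    have hMp : (0 : ℝ) < M m := by exact_mod_cast hM m
    have h1 : ∀ Q : Fin d → Fin (M m), Metric.ediam (U ⟨m, Q⟩) ^ s ≤
        if bad m Q then ENNReal.ofReal ((2 * Real.pi / M m) ^ s) else 0 := by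
      intro Q
      simp only [U]
      split_ifs with h
      · rw [← ENNReal.ofReal_rpow_of_pos (by positivity)]
        exact ENNReal.rpow_le_rpow (cell_diam (M m) Q) hs0.le
      · simp [hs0]
    refine (Finset.sum_le_sum fun Q _ => h1 Q).trans ?_
    rw [← Finset.sum_filter, Finset.sum_const, nsmul_eq_mul,
      ← ENNReal.ofReal_natCast, ← ENNReal.ofReal_mul (Nat.cast_nonneg _)]
    exact ENNReal.ofReal_le_ofReal (hterm m)
  refine ne_top_of_le_ne_top ?_ hfinal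
  rw [← ENNReal.ofReal_tsum_of_nonneg (fun m => by positivity) hsum]
  exact ENNReal.ofReal_ne_top

theorem dim_main (hd : 1 ≤ d) (a : ℝ) (ha : 0 < a) (ha1 : a ≤ 1) :
    dimH (EE d a) ≤ ENNReal.ofReal (d - a / (2 - a)) := by
  have h2a : 0 < 2 - a := by linarith
  have hd1 : (1 : ℝ) ≤ d := by exact_mod_cast hd
  have hfrac : a / (2 - a) ≤ 1 := by rw [div_le_one h2a]; linarith
  have hfrac0 : 0 < a / (2 - a) := div_pos ha h2a
  have ht : Tendsto (fun s : ℝ => ENNReal.ofReal s) (𝓝[>] ((d : ℝ) - a / (2 - a)))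
      (𝓝 (ENNReal.ofReal ((d : ℝ) - a / (2 - a)))) :=
    ENNReal.tendsto_ofReal (tendsto_id.mono_left nhdsWithin_le_nhds)
  refine ge_of_tendsto ht ?_
  filter_upwards [Ioo_mem_nhdsGT (show (d : ℝ) - a / (2 - a) < d by linarith)] with s hs
  refine dim_aux a s ha ha1 (by linarith [hs.1]) hs.2 ?_
  have h1 : (d : ℝ) - s < a / (2 - a) := by linarith [hs.1]
  rw [lt_div_iff₀ h2a] at h1
  linarith

end Pool.Agent.Helper33P
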