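import Pool.Agent.Helper33P.Sub7

set_option autoImplicit false
set_option linter.unusedSectionVars false

/-! Uniform bounds on almost every fibre of a Lipschitz map: the covering. -/

open MeasureTheory Filter Topology
open Pool.Agent.Results.MP_54f242_pr.InfraredMean

namespace Pool.Agent.Helper33P

variable {d : ℕ}

theorem cover_sum (hd : 1 ≤ d) (a s : ℝ) (ha : 0 < a) (ha1 : a < 1) (hs0 : 0 < s) (hsd : s < d)
    (hs : (1 - a) * (d - s) < 2 * a) : ∃ (ι : Type) (_ : Countable ι) (lev : ι → ℕ) (U : ι → Set (Fin d → ℝ)),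
      (∑' i, Metric.ediam (U i) ^ s ≠ ⊤) ∧
      ∀ k ∈ cube d, ∀ (n : ℕ) (p : NNReal) (hp : p ≤ 1) (m : ℕ), Tn d n p hp ≤ 2 ^ m →
        ((2 : ℝ) ^ m / 2) ^ a ≤ cs (tn d n p hp) k → ∃ i, lev i = m ∧ k ∈ U i := by
  classical
  have hpi := Real.pi_pos
  let lam : ℕ → ℝ := fun m => ((2 : ℝ) ^ m / 2) ^ a
  have hlam : ∀ m, 0 < lam m := fun m => Real.rpow_pos_of_pos (by positivity) a
  let M : ℕ → ℕ := fun m => ⌈2 * Real.pi * √(200 * (2 : ℝ) ^ m / lam m)⌉₊ + 1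
  have hM : ∀ m, 0 < M m := fun m => Nat.succ_pos _
  have hM1 : ∀ m, 2 * Real.pi * √(200 * (2 : ℝ) ^ m / lam m) ≤ M m := by
    intro m
    have := Nat.le_ceil (2 * Real.pi * √(200 * (2 : ℝ) ^ m / lam m))
    simp only [M]
    push_cast
    linarith
  let bad : ∀ m, (Fin d → Fin (M m)) → Prop := fun m Q =>
    ∃ k ∈ cell (M m) Q, ∃ (n : ℕ) (p : NNReal) (hp : p ≤ 1),
      Tn d n p hp ≤ (2 : ℝ) ^ m ∧ lam m ≤ cs (tn d n p hp) k
  let U : (Σ m : ℕ, (Fin d → Fin (M m))) → Set (Fin d → ℝ) := fun i =>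
    if bad i.1 i.2 then cell (M i.1) i.2 else ∅
  refine ⟨(Σ m : ℕ, (Fin d → Fin (M m))), inferInstance, Sigma.fst, U, ?_, ?_⟩
  swap
  · intro k hk n p hp m hT hl
    obtain ⟨Q, hQ⟩ := cell_cover (M m) (hM m) hk
    have hbad : bad m Q := ⟨k, hQ, n, p, hp, hT, hl⟩
    refine ⟨⟨m, Q⟩, rfl, ?_⟩
    simp only [U, if_pos hbad]
    exact hQ
  -- the sum
  have hcard : ∀ m, (((Finset.univ.filter (bad m)).card : ℝ)) * lam m ≤
      2 * (M m : ℝ) ^ d * (110 * (d : ℝ) ^ 3 * (2 + (m : ℝ)) ^ 3) := by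
    intro m
    exact count_pairs (d := d) hd m (M m) (hM m) (hlam m) (by
      have h1 := hM1 m
      have hMp : (0 : ℝ) < M m := by exact_mod_cast hM m
      have h2 : (2 * Real.pi) ^ 2 * (200 * (2 : ℝ) ^ m / lam m) ≤ (M m : ℝ) ^ 2 := by
        have h3 := pow_le_pow_left₀ (by positivity) h1 2
        rw [mul_pow, Real.sq_sqrt (by have := hlam m; positivity)] at h3
        exact h3
      have h4 := hlam m
      rw [div_pow]
      have h5 : 200 * ((2 * Real.pi) ^ 2 / (M m : ℝ) ^ 2 * 2 ^ m) =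
          ((2 * Real.pi) ^ 2 * (200 * (2 : ℝ) ^ m / lam m)) * lam m / (M m : ℝ) ^ 2 := by
        field_simp
      rw [h5, div_le_iff₀ (by positivity)]
      nlinarith) (Finset.univ.filter (bad m)) (fun Q hQ => (Finset.mem_filter.1 hQ).2)
  set b : ℝ := (1 - a) / 2 with hb
  have hb0 : 0 ≤ b := by rw [hb]; linarith
  set q : ℝ := (2 : ℝ) ^ (b * (d - s) - a) with hq
  have hq0 : 0 < q := Real.rpow_pos_of_pos (by norm_num) _
  have hq1 : q < 1 := Real.rpow_lt_one_of_one_lt_of_neg (by norm_num) (by rw [hb]; nlinarith)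
  have hds : 0 < (d : ℝ) - s := by linarith
  set K : ℝ := 440 * (d : ℝ) ^ 3 * (2 * Real.pi) ^ s * 130 ^ ((d : ℝ) - s) with hK
  have hterm : ∀ m, ((Finset.univ.filter (bad m)).card : ℝ) * (2 * Real.pi / M m) ^ s ≤
      K * (((m : ℝ) + 2) ^ 3 * q ^ m) := by
    intro m
    have hMp : (0 : ℝ) < M m := by exact_mod_cast hM m
    have hlm := hlam m
    have h1 : ((Finset.univ.filter (bad m)).card : ℝ) ≤
        220 * (d : ℝ) ^ 3 * (M m : ℝ) ^ d * (2 + (m : ℝ)) ^ 3 / lam m := by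
      rw [le_div_iff₀ hlm]
      refine (hcard m).trans (le_of_eq ?_)
      ring
    -- lower bound for `lam`
    have h2m : (1 : ℝ) ≤ 2 ^ m := one_le_pow₀ (by norm_num)
    have h5 : ((2 : ℝ) ^ a) ^ m / 2 ≤ lam m := by
      simp only [lam]
      rw [Real.div_rpow (by positivity) (by norm_num), ← Real.rpow_natCast 2 m, ← Real.rpow_mul
        (by norm_num), ← Real.rpow_natCast (2 ^ a) m, ← Real.rpow_mul (by norm_num), mul_comm a]
      refine div_le_div_of_nonneg_left (by positivity) (by positivity) ?_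
      calc (2 : ℝ) ^ a ≤ 2 ^ (1 : ℝ) := Real.rpow_le_rpow_of_exponent_le (by norm_num) ha1.le
        _ = 2 := Real.rpow_one 2
    have h2a : (0 : ℝ) < (2 : ℝ) ^ a := Real.rpow_pos_of_pos (by norm_num) a
    -- upper bound for `M`
    have h6 : (M m : ℝ) ≤ 130 * ((2 : ℝ) ^ b) ^ m := by
      have h7 : (M m : ℝ) ≤ 2 * Real.pi * √(200 * (2 : ℝ) ^ m / lam m) + 2 := by
        have := (Nat.ceil_lt_add_one
          (by positivity : (0 : ℝ) ≤ 2 * Real.pi * √(200 * (2 : ℝ) ^ m / lam m))).le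
        simp only [M]
        push_cast
        linarith
      have h8 : 200 * (2 : ℝ) ^ m / lam m ≤ 200 * (2 : ℝ) ^ m / (((2 : ℝ) ^ a) ^ m / 2) :=
        div_le_div_of_nonneg_left (by positivity) (by positivity) h5
      have h9 : (2 : ℝ) ^ m / ((2 : ℝ) ^ a) ^ m = (((2 : ℝ) ^ b) ^ m) ^ 2 := by
        rw [← div_pow, ← pow_mul, mul_comm m 2, pow_mul]
        congr 1
        rw [← Real.rpow_natCast ((2 : ℝ) ^ b) 2, ← Real.rpow_mul (by norm_num), hb]
        rw [show (1 - a) / 2 * ((2 : ℕ) : ℝ) = 1 - a by push_cast; ring, Real.rpow_sub (by norm_num),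
          Real.rpow_one]
      have h10 : 200 * (2 : ℝ) ^ m / (((2 : ℝ) ^ a) ^ m / 2) = (20 * ((2 : ℝ) ^ b) ^ m) ^ 2 := by
        rw [mul_pow, ← h9]; field_simp; ring
      have h11 : (1 : ℝ) ≤ ((2 : ℝ) ^ b) ^ m :=
        one_le_pow₀ (Real.one_le_rpow (by norm_num) hb0)
      have h12 : √(200 * (2 : ℝ) ^ m / lam m) ≤ 20 * ((2 : ℝ) ^ b) ^ m := by
        rw [Real.sqrt_le_left (by positivity), ← h10]
        exact h8
      have hpi3 : Real.pi < 3.15 := Real.pi_lt_d2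
      have h13 := mul_le_mul_of_nonneg_left h12 (by positivity : (0 : ℝ) ≤ 2 * Real.pi)
      nlinarith
    have h12 : (M m : ℝ) ^ d * (M m : ℝ) ^ (-s) = (M m : ℝ) ^ ((d : ℝ) - s) := by
      rw [← Real.rpow_natCast, ← Real.rpow_add hMp]; rfl
    have h13 : (M m : ℝ) ^ ((d : ℝ) - s) ≤ 130 ^ ((d : ℝ) - s) * (((2 : ℝ) ^ b) ^ m) ^ ((d : ℝ) - s) := by
      rw [← Real.mul_rpow (by norm_num) (by positivity)]
      exact Real.rpow_le_rpow hMp.le h6 hds.le
    have h14 : (2 * Real.pi / M m) ^ s = (2 * Real.pi) ^ s * (M m : ℝ) ^ (-s) := by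
      rw [Real.div_rpow (by positivity) hMp.le, Real.rpow_neg hMp.le]; rfl
    have h15 : (((2 : ℝ) ^ b) ^ m) ^ ((d : ℝ) - s) * (((2 : ℝ) ^ a) ^ m)⁻¹ = q ^ m := by
      rw [hq, ← Real.rpow_natCast (2 ^ b) m, ← Real.rpow_natCast (2 ^ a) m,
        ← Real.rpow_natCast (2 ^ (b * (d - s) - a)) m, ← Real.rpow_mul (by positivity),
        ← Real.rpow_mul (by positivity), ← Real.rpow_mul (by positivity),
        ← Real.rpow_mul (by positivity), ← Real.rpow_neg (by norm_num), ← Real.rpow_add (by norm_num)]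
      congr 1
      ring
    have h16 : (lam m)⁻¹ ≤ 2 * (((2 : ℝ) ^ a) ^ m)⁻¹ := by
      have := inv_anti₀ (by positivity : (0 : ℝ) < ((2 : ℝ) ^ a) ^ m / 2) h5
      rw [inv_div] at this
      rw [← div_eq_mul_inv]
      exact this
    have hMd : (0 : ℝ) < (M m : ℝ) ^ ((d : ℝ) - s) := Real.rpow_pos_of_pos hMp _
    calc ((Finset.univ.filter (bad m)).card : ℝ) * (2 * Real.pi / M m) ^ s
        ≤ (220 * (d : ℝ) ^ 3 * (M m : ℝ) ^ d * (2 + (m : ℝ)) ^ 3 / lam m) * (2 * Real.pi / M m) ^ s :=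
          mul_le_mul_of_nonneg_right h1 (by positivity)
      _ = 220 * (d : ℝ) ^ 3 * (2 * Real.pi) ^ s * (2 + (m : ℝ)) ^ 3 * ((M m : ℝ) ^ ((d : ℝ) - s) * (lam m)⁻¹) := by
          rw [h14, ← h12, div_eq_mul_inv]; ring
      _ ≤ 220 * (d : ℝ) ^ 3 * (2 * Real.pi) ^ s * (2 + (m : ℝ)) ^ 3 * ((130 ^ ((d : ℝ) - s) *
            (((2 : ℝ) ^ b) ^ m) ^ ((d : ℝ) - s)) * (2 * (((2 : ℝ) ^ a) ^ m)⁻¹)) := by
          refine mul_le_mul_of_nonneg_left ?_ (by positivity)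
          exact mul_le_mul h13 h16 (by positivity) (by positivity)
      _ = K * (((m : ℝ) + 2) ^ 3 * ((((2 : ℝ) ^ b) ^ m) ^ ((d : ℝ) - s) *
            (((2 : ℝ) ^ a) ^ m)⁻¹)) := by rw [hK]; ring
      _ = K * (((m : ℝ) + 2) ^ 3 * q ^ m) := by rw [h15]
  have hsum : Summable fun m : ℕ => K * (((m : ℝ) + 2) ^ 3 * q ^ m) := by
    refine Summable.mul_left _ ?_
    have h1 : Summable fun m : ℕ => (m : ℝ) ^ 3 * q ^ m :=
      summable_pow_mul_geometric_of_norm_lt_one 3 (by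
        rw [Real.norm_eq_abs, abs_of_pos hq0]; exact hq1)
    have h2 := ((summable_nat_add_iff 2).2 h1).mul_left (q ^ 2)⁻¹
    refine h2.congr fun m => ?_
    push_cast
    rw [pow_add q m]
    field_simp
  have hK0 : 0 ≤ K := by positivity
  have hfinal : ∑' i, Metric.ediam (U i) ^ s ≤
      ∑' m : ℕ, ENNReal.ofReal (K * (((m : ℝ) + 2) ^ 3 * q ^ m)) := by
    rw [ENNReal.tsum_sigma']
    refine ENNReal.tsum_le_tsum fun m => ?_
    rw [tsum_fintype]
    have hMp : (0 : ℝ) < M m := by exact_mod_cast hM m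
    have h1 : ∀ Q : Fin d → Fin (M m), Metric.ediam (U ⟨m, Q⟩) ^ s ≤
        if bad m Q then ENNReal.ofReal ((2 * Real.pi / M m) ^ s) else 0 := by
      intro Q
      simp only [U]
      split_ifs with h
      · rw [← ENNReal.ofReal_rpow_of_pos (by positivity)]
        exact ENNReal.rpow_le_rpow (cell_diam (M m) Q) hs0.le
      · simp [hs0]
    refine (Finset.sum_le_sum fun Q _ => h1 Q).trans ?_
    rw [← Finset.sum_filter, Finset.sum_const, nsmul_eq_mul,
      ← ENNReal.ofReal_natCast, ← ENNReal.ofReal_mul (Nat.cast_nonneg _)]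
    exact ENNReal.ofReal_le_ofReal (hterm m)
  refine ne_top_of_le_ne_top ?_ hfinal
  rw [← ENNReal.ofReal_tsum_of_nonneg (fun m => by positivity) hsum]
  exact ENNReal.ofReal_ne_top


end Pool.Agent.Helper33P
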