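import Pool.Agent.Helper33P.Fib

set_option autoImplicit false
set_option linter.unusedSectionVars false

/-! Uniform bounds on almost every fibre of a Lipschitz map. -/

open MeasureTheory Filter Topology
open Pool.Agent.Results.MP_54f242_pr.InfraredMean

namespace Pool.Agent.Helper33P

variable {d : ℕ}

/-- `τ_{p,n} → τ_p` if the clusters are finite -/
theorem tn_lim (p : NNReal) (hp : p ≤ 1) (hs : Summable (tau d p hp)) (x : Fin d → ℤ) :
    Tendsto (fun n : ℕ => tn d n p hp x) atTop (𝓝 (tau d p hp x)) := by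
  have h1 : Tendsto (fun n : ℕ => P d p hp {ω | (opn ω).Reachable 0 x ∧ small n ω 0}) atTop
      (𝓝 (P d p hp (⋃ n : ℕ, {ω | (opn (d := d) ω).Reachable 0 x ∧ small n ω 0}))) :=
    tendsto_measure_iUnion_atTop fun n m h ω hω => ⟨hω.1, small_mono h hω.2⟩
  have h2 : P d p hp (⋃ n : ℕ, {ω | (opn (d := d) ω).Reachable 0 x ∧ small n ω 0}) =
      P d p hp {ω | (opn (d := d) ω).Reachable 0 x} := by
    refine measure_congr ?_
    filter_upwards [fin_ae p hp hs 0] with ω hω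
    refine propext ?_
    change (ω ∈ ⋃ n : ℕ, {ω | (opn (d := d) ω).Reachable 0 x ∧ small n ω 0}) ↔
      ω ∈ {ω | (opn (d := d) ω).Reachable 0 x}
    rw [Set.mem_iUnion]
    constructor
    · rintro ⟨n, h⟩; exact h.1
    · intro h
      refine ⟨Set.ncard {y | (opn ω).Reachable 0 y}, h, ?_⟩
      unfold small
      rw [← hω.cast_ncard_eq]
  rw [h2] at h1
  exact (ENNReal.tendsto_toReal (measure_ne_top _ _)).comp h1

theorem tn_le_tau (n : ℕ) (p : NNReal) (hp : p ≤ 1) (x : Fin d → ℤ) :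
    tn d n p hp x ≤ tau d p hp x :=
  ENNReal.toReal_mono (measure_ne_top _ _) (measure_mono fun _ hω => hω.1)

theorem cs_lim (p : NNReal) (hp : p ≤ 1) (hs : Summable (tau d p hp)) (k : Fin d → ℝ) :
    Tendsto (fun n : ℕ => cs (tn d n p hp) k) atTop (𝓝 (cs (tau d p hp) k)) := by
  unfold cs
  refine tendsto_tsum_of_dominated_convergence (bound := tau d p hp) hs
    (fun x => (tn_lim p hp hs x).mul_const _) (Eventually.of_forall fun n x => ?_)
  rw [Real.norm_eq_abs, abs_mul, abs_of_nonneg (tn_nonneg n p hp x)]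
  refine le_trans (mul_le_of_le_one_right (tn_nonneg n p hp x) (Real.abs_cos_le_one _)) ?_
  exact tn_le_tau n p hp x

theorem Tn_le_S2 (n : ℕ) (p : NNReal) (hp : p ≤ 1)
    (hs : Summable fun x : Fin d → ℤ => (1 + nn x ^ 2) * tau d p hp x) :
    Tn d n p hp ≤ ∑' x : Fin d → ℤ, (1 + nn x ^ 2) * tau d p hp x :=
  Summable.tsum_le_tsum (fun x => mul_le_mul_of_nonneg_left (tn_le_tau n p hp x) (by positivity))
    (tn_w_summable n p hp) hs

/-- **The bound is uniform on almost every fibre.** -/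
theorem fib (m : ℕ) (hm : 1 ≤ m) (hmd : m < d) (a : ℝ)
    (ha : ((d : ℝ) - m) / (d - m + 2) < a) (ha1 : a < 1) (L : NNReal)
    (φ : (Fin d → ℝ) → (Fin m → ℝ)) (hφ : LipschitzWith L φ) :
    ∀ᵐ v : Fin m → ℝ, ∃ C : ℝ, 0 ≤ C ∧ ∀ k ∈ cube d, φ k = v →
      ∀ (n : ℕ) (p : NNReal) (hp : p ≤ 1), cs (tn d n p hp) k ≤ C * Tn d n p hp ^ a := by
  have hd : 1 ≤ d := by omega
  have hmd' : (m : ℝ) < d := by exact_mod_cast hmd
  have hm' : (1 : ℝ) ≤ m := by exact_mod_cast hm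
  have ha0 : 0 < a := lt_trans (div_pos (by linarith) (by linarith)) ha
  have hs : (1 - a) * ((d : ℝ) - m) < 2 * a := by
    rw [div_lt_iff₀ (by linarith)] at ha
    nlinarith
  obtain ⟨ι, hcι, lev, U, hsum, hcov⟩ := cover_sum (d := d) hd a m ha0 ha1 (by linarith) hmd' hs
  have h1 : ∀ i, volume (φ '' U i) ≤ (L : ENNReal) ^ m * Metric.ediam (U i) ^ (m : ℝ) := by
    intro i
    refine (Real.volume_pi_le_diam_pow (φ '' U i)).trans ?_
    rw [Fintype.card_fin, ENNReal.rpow_natCast, ← mul_pow]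
    exact pow_le_pow_left' (hφ.ediam_image_le (U i)) m
  have h2 : ∑' i, volume (φ '' U i) ≠ ⊤ := by
    refine ne_top_of_le_ne_top ?_ (ENNReal.tsum_le_tsum h1)
    rw [ENNReal.tsum_mul_left]
    exact ENNReal.mul_ne_top (ENNReal.pow_ne_top ENNReal.coe_ne_top) hsum
  filter_upwards [ae_finite_setOfPred_mem h2] with v hv
  obtain ⟨m₀, hm₀⟩ := (hv.image lev).bddAbove
  have hC1 : (1 : ℝ) ≤ 2 ^ (m₀ + 1) := one_le_pow₀ (by norm_num)
  refine ⟨2 ^ (m₀ + 1), by positivity, fun k hk hkv n p hp => ?_⟩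
  set S := Tn d n p hp with hS
  have hS0 : 0 ≤ S := Tn_nonneg n p hp
  have hSa : 0 ≤ S ^ a := Real.rpow_nonneg hS0 a
  rcases le_or_gt S (2 ^ (m₀ + 1)) with hle | hgt
  · refine (cs_le_Tn n p hp k).trans ?_
    rcases le_or_gt S 1 with h3 | h3
    · have h4 : S ≤ S ^ a := by
        rcases hS0.eq_or_lt with h5 | h5
        · rw [← h5, Real.zero_rpow ha0.ne']
        · have := Real.rpow_le_rpow_of_exponent_ge h5 h3 ha1.le
          rwa [Real.rpow_one] at this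
      rw [← hS]
      nlinarith
    · have h4 : (1 : ℝ) ≤ S ^ a := Real.one_le_rpow h3.le ha0.le
      rw [← hS]
      nlinarith
  · by_contra hc
    rw [not_le] at hc
    have h3 : S ^ a ≤ cs (tn d n p hp) k := by nlinarith
    obtain ⟨j, hj1, hj2⟩ := exists_nat_pow_near (hC1.trans hgt.le) (one_lt_two : (1 : ℝ) < 2)
    have h4 : ((2 : ℝ) ^ (j + 1) / 2) ^ a ≤ cs (tn d n p hp) k := by
      refine le_trans (Real.rpow_le_rpow (by positivity) ?_ ha0.le) h3
      rw [pow_succ]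
      linarith
    obtain ⟨i, hi1, hi2⟩ := hcov k hk n p hp (j + 1) hj2.le h4
    have h5 : lev i ≤ m₀ := hm₀ (Set.mem_image_of_mem lev (show v ∈ φ '' U i from ⟨k, hi2, hkv⟩))
    have h6 : (2 : ℝ) ^ (m₀ + 1) < 2 ^ (j + 1) := hgt.trans hj2
    have h7 : m₀ + 1 < j + 1 := (pow_lt_pow_iff_right₀ (one_lt_two : (1 : ℝ) < 2)).1 h6
    omega

theorem fib_all (m : ℕ) (hm : 1 ≤ m) (hmd : m < d) (a : ℝ)
    (ha : ((d : ℝ) - m) / (d - m + 2) < a) (ha1 : a < 1) (L : NNReal)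
    (φ : (Fin d → ℝ) → (Fin m → ℝ)) (hφ : LipschitzWith L φ) :
    ∀ᵐ v : Fin m → ℝ, ∃ C : ℝ, ∀ k ∈ cube d, φ k = v →
      (∀ (n : ℕ) (p : NNReal) (hp : p ≤ 1), cs (tn d n p hp) k ≤ C * Tn d n p hp ^ a) ∧
      ∀ (p : NNReal) (hp : p ≤ 1),
        (Summable fun x : Fin d → ℤ => (1 + nn x ^ 2) * tau d p hp x) →
          cs (tau d p hp) k ≤ C * (∑' x : Fin d → ℤ, (1 + nn x ^ 2) * tau d p hp x) ^ a := by
  have hmd' : (m : ℝ) < d := by exact_mod_cast hmd
  have ha0 : 0 < a := lt_trans (div_pos (by linarith) (by linarith)) ha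
  filter_upwards [fib m hm hmd a ha ha1 L φ hφ] with v hv
  obtain ⟨C, hC, h⟩ := hv
  refine ⟨C, fun k hk hkv => ⟨h k hk hkv, fun p hp hs => ?_⟩⟩
  refine le_of_tendsto (cs_lim p hp (tau_summable p hp hs) k) (Eventually.of_forall fun n => ?_)
  refine (h k hk hkv n p hp).trans (mul_le_mul_of_nonneg_left ?_ hC)
  exact Real.rpow_le_rpow (Tn_nonneg n p hp) (Tn_le_S2 n p hp hs) ha0.le

end Pool.Agent.Helper33P
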