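import Pool.Agent.Helper33P.RM

set_option autoImplicit false
set_option linter.unusedSectionVars false

/-! Chains of partitions of a finite set of lattice points, and the reduction of expectations of
functions of finitely many events to finite sums. -/

open MeasureTheory Filter Topology
open Pool.Agent.Results.MP_54f242_pr.InfraredMean

namespace Pool.Agent.Helper33P

variable {d : ℕ}

open Classical in
/-- the class of `x` in the set `Λ` -/
noncomputable def cl (Λ : Finset (Fin d → ℤ)) (r : (Fin d → ℤ) → (Fin d → ℤ) → Prop)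
    (x : Fin d → ℤ) : Finset (Fin d → ℤ) := Λ.filter (r x)

theorem mem_cl {Λ : Finset (Fin d → ℤ)} {r : (Fin d → ℤ) → (Fin d → ℤ) → Prop}
    {x y : Fin d → ℤ} : y ∈ cl Λ r x ↔ y ∈ Λ ∧ r x y := by
  classical
  unfold cl; rw [Finset.mem_filter]

open Classical in
/-- the quadratic form of a relation -/
noncomputable def qf (Λ : Finset (Fin d → ℤ)) (r : (Fin d → ℤ) → (Fin d → ℤ) → Prop)
    (k : Fin d → ℝ) : ℝ :=
  ∑ x ∈ Λ, ∑ y ∈ Λ, if r x y then Real.cos (dot k (y - x)) else 0

theorem qf_eq (Λ : Finset (Fin d → ℤ)) {r : (Fin d → ℤ) → (Fin d → ℤ) → Prop}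
    (hr : Equivalence r) (k : Fin d → ℝ) :
    qf Λ r k = ∑ x ∈ Λ, ft (cl Λ r x) k / (cl Λ r x).card := by
  classical
  have hcl : ∀ x y, r x y → cl Λ r x = cl Λ r y := by
    intro x y h
    ext z
    rw [mem_cl, mem_cl]
    exact ⟨fun hz => ⟨hz.1, hr.trans (hr.symm h) hz.2⟩, fun hz => ⟨hz.1, hr.trans h hz.2⟩⟩
  have h1 : ∀ x ∈ Λ, ft (cl Λ r x) k / (cl Λ r x).card =
      ∑ u ∈ Λ, ∑ v ∈ Λ, (if r x u then (if r u v then Real.cos (dot k (v - u)) else 0) /
        ((cl Λ r u).card : ℝ) else 0) := by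
    intro x hx
    rw [ft_eq, Finset.sum_div]
    conv_lhs => rw [cl, Finset.sum_filter]
    refine Finset.sum_congr rfl fun u hu => ?_
    by_cases h : r x u
    · simp only [h, if_true]
      rw [← Finset.sum_div, ← hcl x u h, Finset.sum_filter]
      congr 1
      refine Finset.sum_congr rfl fun v hv => ?_
      have : r x v ↔ r u v := ⟨fun h' => hr.trans (hr.symm h) h', fun h' => hr.trans h h'⟩
      simp only [this]
    · simp [h]
  rw [Finset.sum_congr rfl h1, Finset.sum_comm, qf]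
  refine Finset.sum_congr rfl fun u hu => ?_
  rw [Finset.sum_comm]
  refine Finset.sum_congr rfl fun v hv => ?_
  rw [← Finset.sum_filter, Finset.sum_const]
  have h2 : Λ.filter (fun x => r x u) = cl Λ r u := by
    ext z
    rw [mem_cl, Finset.mem_filter]
    exact ⟨fun h => ⟨h.1, hr.symm h.2⟩, fun h => ⟨h.1, hr.symm h.2⟩⟩
  rw [h2, nsmul_eq_mul]
  have h3 : ((cl Λ r u).card : ℝ) ≠ 0 := by
    have : u ∈ cl Λ r u := mem_cl.2 ⟨hu, hr.refl u⟩
    exact_mod_cast (Finset.card_pos.2 ⟨u, this⟩).ne'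
  field_simp

variable {τ : Type*} [LinearOrder τ]

/-- the majorant for a chain of partitions -/
noncomputable def HH (Λ : Finset (Fin d → ℤ)) (M : Finset τ)
    (r : τ → (Fin d → ℤ) → (Fin d → ℤ) → Prop) (t₀ : τ) (k : Fin d → ℝ) : ℝ :=
  ∑ x ∈ Λ, gg M (fun t => cl Λ (r t) x) (Nat.log 2 (cl Λ (r t₀) x).card) k

theorem HH_cont (Λ : Finset (Fin d → ℤ)) (M : Finset τ)
    (r : τ → (Fin d → ℤ) → (Fin d → ℤ) → Prop) (t₀ : τ) : Continuous (HH Λ M r t₀) := by
  unfold HH
  exact continuous_finsetSum _ fun x _ => gg_cont _ _ _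

theorem qf_le (Λ : Finset (Fin d → ℤ)) {M : Finset τ}
    {r : τ → (Fin d → ℤ) → (Fin d → ℤ) → Prop} (hr : ∀ t, Equivalence (r t))
    (hm : ∀ s t, s ≤ t → ∀ x y, r s x y → r t x y) {t₀ t : τ} (ht : t ∈ M) (h0 : t ≤ t₀)
    (k : Fin d → ℝ) : qf Λ (r t) k ≤ HH Λ M r t₀ k := by
  rw [qf_eq Λ (hr t)]
  refine Finset.sum_le_sum fun x hx => ?_
  have hB : Monotone fun t => cl Λ (r t) x := by
    intro s s' h y hy
    rw [mem_cl] at hy ⊢
    exact ⟨hy.1, hm s s' h x y hy.2⟩
  have hne : ∀ t, (cl Λ (r t) x).card ≠ 0 := fun t =>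
    (Finset.card_pos.2 ⟨x, mem_cl.2 ⟨hx, (hr t).refl x⟩⟩).ne'
  exact le_gg (B := fun t => cl Λ (r t) x) hB ht (hne t)
    (Nat.log_mono_right (Finset.card_le_card (hB h0))) k

theorem int_HH (Λ : Finset (Fin d → ℤ)) {M : Finset τ}
    {r : τ → (Fin d → ℤ) → (Fin d → ℤ) → Prop}
    (hm : ∀ s t, s ≤ t → ∀ x y, r s x y → r t x y) (t₀ : τ) :
    ∫ k in cube d, HH Λ M r t₀ k ≤ (2 * Real.pi) ^ d *
      ∑ x ∈ Λ, 4 * (1 + (Nat.log 2 (cl Λ (r t₀) x).card : ℝ)) ^ 3 := by
  unfold HH
  rw [integral_finsetSum _ fun x _ => integrable_of_cont (gg_cont _ _ _), Finset.mul_sum]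
  refine Finset.sum_le_sum fun x hx => ?_
  have hB : Monotone fun t => cl Λ (r t) x := by
    intro s s' h y hy
    rw [mem_cl] at hy ⊢
    exact ⟨hy.1, hm s s' h x y hy.2⟩
  exact int_gg hB _

/-- expectations of functions of finitely many events are finite sums -/
theorem finite_repr {Ω I : Type*} [MeasurableSpace Ω] [Fintype I] (μ : Measure Ω)
    [IsProbabilityMeasure μ] (A : I → Set Ω) (hA : ∀ i, MeasurableSet (A i)) :
    ∃ (D : Type) (_ : Fintype D) (w : D → ℝ) (U : D → Ω), (∀ δ, 0 ≤ w δ) ∧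
      ∀ f : Ω → ℝ, (∀ a b, (∀ i, a ∈ A i ↔ b ∈ A i) → f a = f b) →
        ∫ ω, f ω ∂μ = ∑ δ, w δ * f (U δ) := by
  classical
  have hne : Nonempty Ω := by
    by_contra h
    rw [not_nonempty_iff] at h
    have h1 := measure_univ (μ := μ)
    rw [Set.univ_eq_empty_iff.2 h, measure_empty] at h1
    exact zero_ne_one h1
  let e := Fintype.equivFin I
  let D := Fin (Fintype.card I) → Bool
  let data : Ω → D := fun ω i => decide (ω ∈ A (e.symm i))
  let fib : D → Set Ω := fun δ => {ω | data ω = δ}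
  have hfib : ∀ δ, MeasurableSet (fib δ) := by
    intro δ
    have : fib δ = ⋂ i, {ω | decide (ω ∈ A (e.symm i)) = δ i} := by
      ext ω
      simp only [fib, data, Set.mem_ofPred_eq, Set.mem_iInter]
      exact funext_iff
    rw [this]
    refine MeasurableSet.iInter fun i => ?_
    cases h : δ i
    · have : {ω | decide (ω ∈ A (e.symm i)) = false} = (A (e.symm i))ᶜ := by
        ext ω; simp
      rw [this]; exact (hA _).compl
    · have : {ω | decide (ω ∈ A (e.symm i)) = true} = A (e.symm i) := by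
        ext ω; simp
      rw [this]; exact hA _
  let U : D → Ω := fun δ => if h : (fib δ).Nonempty then h.choose else Classical.arbitrary Ω
  refine ⟨D, inferInstance, fun δ => μ.real (fib δ), U, fun δ => measureReal_nonneg, ?_⟩
  intro f hf
  have h1 : ∀ ω, f ω = ∑ δ : D, (fib δ).indicator (fun _ => f (U δ)) ω := by
    intro ω
    rw [Finset.sum_eq_single (data ω)]
    · have hω : ω ∈ fib (data ω) := rfl
      rw [Set.indicator_of_mem hω]
      have hU : U (data ω) ∈ fib (data ω) := by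
        have hn : (fib (data ω)).Nonempty := ⟨ω, hω⟩
        simp only [U, dif_pos hn]
        exact hn.choose_spec
      refine hf _ _ fun i => ?_
      have h2 : data (U (data ω)) (e i) = data ω (e i) := congrFun hU (e i)
      simp only [data, Equiv.symm_apply_apply, decide_eq_decide] at h2
      exact h2.symm
    · intro δ _ hδ
      have hn : ω ∉ fib δ := fun h => hδ (show data ω = δ from h).symm
      exact Set.indicator_of_notMem hn _
    · intro h; exact absurd (Finset.mem_univ _) h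
  rw [integral_congr_ae (Eventually.of_forall h1),
    integral_finsetSum _ fun δ _ => (integrable_const _).indicator (hfib δ)]
  refine Finset.sum_congr rfl fun δ _ => ?_
  rw [integral_indicator_const _ (hfib δ), smul_eq_mul]

end Pool.Agent.Helper33P
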