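import Pool.Agent.Helper33P.Size

set_option autoImplicit false
set_option linter.unusedSectionVars false

/-! The maximal inequality for the Fourier transforms of the two-point functions. -/

open MeasureTheory Filter Topology
open Pool.Agent.Results.MP_54f242_pr.InfraredMean

namespace Pool.Agent.Helper33P

variable {d : ℕ}

/-- the normalised quadratic form in the box -/
noncomputable def av (N : ℕ) (a : (Fin d → ℤ) → ℝ) (k : Fin d → ℝ) : ℝ :=
  (∑ x ∈ box d N, ∑ y ∈ box d N, a (y - x) * Real.cos (dot k (y - x))) / (N : ℝ) ^ d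

theorem av_cont (N : ℕ) (a : (Fin d → ℤ) → ℝ) : Continuous (av N a) := by
  unfold av dot; fun_prop

theorem av_eq (N : ℕ) (a : (Fin d → ℤ) → ℝ) (ha : Summable fun x => |a x|) (k : Fin d → ℝ) :
    av N a k = ∑' z, a z * Real.cos (dot k z) * prop N z := by
  classical
  set F : (Fin d → ℤ) → ℝ := fun z => a z * Real.cos (dot k z) with hF
  have hFb : ∀ z, ‖F z‖ ≤ |a z| := fun z => cs_term_le a z k
  have h1 : ∀ x, ∑ y ∈ box d N, F (y - x) = ∑' z, (if x + z ∈ box d N then F z else 0) := by
    intro x
    rw [← (Equiv.subRight x).tsum_eq]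
    rw [tsum_eq_sum (s := box d N)]
    · refine Finset.sum_congr rfl fun y hy => ?_
      simp [hy]
    · intro y hy
      simp [hy]
  have h2 : ∀ x, Summable (fun z => (if x + z ∈ box d N then F z else 0)) := by
    intro x
    refine Summable.of_norm_bounded ha fun z => ?_
    split_ifs
    · exact hFb z
    · simp
  show (∑ x ∈ box d N, ∑ y ∈ box d N, F (y - x)) / (N : ℝ) ^ d = _
  simp_rw [h1]
  rw [← Summable.tsum_finsetSum (fun x _ => h2 x), ← tsum_div_const]
  refine tsum_congr fun z => ?_
  rw [← Finset.sum_filter, Finset.sum_const, nsmul_eq_mul, prop]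
  ring

theorem av_tendsto (a : (Fin d → ℤ) → ℝ) (ha : Summable fun x => |a x|) (k : Fin d → ℝ) :
    Tendsto (fun N : ℕ => av N a k) atTop (𝓝 (cs a k)) := by
  have hFb : ∀ z, ‖a z * Real.cos (dot k z)‖ ≤ |a z| := fun z => cs_term_le a z k
  have hlim : Tendsto (fun N : ℕ => ∑' z, a z * Real.cos (dot k z) * prop N z) atTop
      (𝓝 (∑' z, a z * Real.cos (dot k z) * 1)) := by
    refine tendsto_tsum_of_dominated_convergence (bound := fun z => |a z|) ha
      (fun z => (prop_tendsto z).const_mul _) (Eventually.of_forall fun N z => ?_)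
    rw [norm_mul, Real.norm_eq_abs (prop N z), abs_of_nonneg (prop_nonneg N z)]
    exact (mul_le_of_le_one_right (norm_nonneg _) (prop_le_one N z)).trans (hFb z)
  simp only [mul_one] at hlim
  exact hlim.congr fun N => (av_eq N a ha k).symm

theorem av_abs (N : ℕ) (a : (Fin d → ℤ) → ℝ) (ha : Summable fun x => |a x|) (k : Fin d → ℝ) :
    |av N a k| ≤ ∑' x, |a x| := by
  rw [av_eq N a ha k]
  have h : ∀ z, ‖a z * Real.cos (dot k z) * prop N z‖ ≤ |a z| := by
    intro z
    rw [norm_mul, Real.norm_eq_abs (prop N z), abs_of_nonneg (prop_nonneg N z)]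
    exact (mul_le_of_le_one_right (norm_nonneg _) (prop_le_one N z)).trans (cs_term_le a z k)
  have := tsum_of_norm_bounded ha.hasSum h
  simpa [Real.norm_eq_abs] using this

/-- the maximal inequality for finitely many parameters -/
theorem max_fin (p : NNReal) (hp : p ≤ 1) (hs : Summable (tau d p hp)) (M : Finset (Par d))
    (hM : M.Nonempty) (hMp : ∀ a ∈ M, a.1 ≤ p) :
    ∫ k in cube d, M.sup' hM (fun a => cs (tf a) k) ≤ (2 * Real.pi) ^ d * (4 * Phi d p hp) := by
  classical
  have hfm : IsFiniteMeasure (volume.restrict (cube d)) := ⟨by simpa using cube_fin⟩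
  have hab : ∀ a : Par d, Summable fun x => |tf a x| := fun a => by
    simp_rw [fun x => abs_of_nonneg (tf_nonneg a x)]; exact tf_sum a
  have hle : ∀ a ∈ M, ∀ x, tf a x ≤ tau d p hp x := fun a ha x => tau_mono _ _ _ _ (hMp a ha) x
  have hch : ∀ a ∈ M, ∑' x, |tf a x| ≤ chi d p hp := by
    intro a ha
    refine (hab a).tsum_le_tsum (fun x => ?_) hs
    rw [abs_of_nonneg (tf_nonneg a x)]
    exact hle a ha x
  have hcont : ∀ N : ℕ, Continuous fun k => M.sup' hM (fun a => av N (tf a) k) := fun N =>
    Continuous.finset_sup'_apply hM fun a _ => av_cont N (tf a)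
  have hlim : Tendsto (fun N : ℕ => ∫ k in cube d, M.sup' hM (fun a => av N (tf a) k)) atTop
      (𝓝 (∫ k in cube d, M.sup' hM (fun a => cs (tf a) k))) := by
    refine tendsto_integral_of_dominated_convergence (fun _ => chi d p hp)
      (fun N => (hcont N).aestronglyMeasurable) (integrable_const _) (fun N => ?_) ?_
    · refine Eventually.of_forall fun k => ?_
      rw [Real.norm_eq_abs, abs_le]
      obtain ⟨a, ha⟩ := hM
      constructor
      · have h1 := (abs_le.1 ((av_abs N (tf a) (hab a) k).trans (hch a ha))).1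
        exact h1.trans (Finset.le_sup' (fun a => av N (tf a) k) ha)
      · refine Finset.sup'_le _ _ fun b hb => ?_
        exact (abs_le.1 ((av_abs N (tf b) (hab b) k).trans (hch b hb))).2
    · refine Eventually.of_forall fun k => ?_
      exact Tendsto.finset_sup'_nhds_apply hM fun a _ => av_tendsto (tf a) (hab a) k
  refine le_of_tendsto hlim ?_
  filter_upwards [eventually_gt_atTop 0] with N hN
  have hNp : (0 : ℝ) < (N : ℝ) ^ d := by positivity
  obtain ⟨h, hc, h1, h2⟩ := finite_max (box d N) (M.image fun a => a.1) p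
    (by intro t ht
        rw [Finset.mem_image] at ht
        obtain ⟨a, ha, rfl⟩ := ht
        exact hMp a ha)
    (by intro t ht
        rw [Finset.mem_image] at ht
        obtain ⟨a, ha, rfl⟩ := ht
        exact (hMp a ha).trans hp)
  have h3 : ∀ k, M.sup' hM (fun a => av N (tf a) k) ≤ h k / (N : ℝ) ^ d := by
    intro k
    refine Finset.sup'_le _ _ fun a ha => ?_
    unfold av
    refine div_le_div_of_nonneg_right ?_ hNp.le
    exact h1 a.1 (Finset.mem_image_of_mem _ ha) k
  have h4 : ∫ k in cube d, M.sup' hM (fun a => av N (tf a) k) ≤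
      ∫ k in cube d, h k / (N : ℝ) ^ d :=
    integral_mono (integrable_of_cont (hcont N)) (integrable_of_cont (hc.div_const _)) h3
  refine h4.trans ?_
  rw [integral_div, div_le_iff₀ hNp]
  refine h2.trans ?_
  have h5 := size_le p hp hs (box d N)
  rw [box_card] at h5
  have hpi : (0 : ℝ) < (2 * Real.pi) ^ d := by positivity
  calc (2 * Real.pi) ^ d * ∫ U, ∑ x ∈ box d N,
        4 * (1 + (Nat.log 2 (cl (box d N) (rel U p) x).card : ℝ)) ^ 3 ∂(mu d)
      ≤ (2 * Real.pi) ^ d * ((N : ℝ) ^ d * (4 * Phi d p hp)) := mul_le_mul_of_nonneg_left h5 hpi.le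
    _ = _ := by ring

/-- the majorant of all the parameters up to `p` -/
theorem majorant (p : NNReal) (hp : p ≤ 1) (hs : Summable (tau d p hp)) :
    ∃ W : (Fin d → ℝ) → ℝ, Continuous W ∧
      (∀ (q : NNReal) (hq : q ≤ 1), q ≤ p → ∀ k, cs (tau d q hq) k ≤ W k) ∧
      ∫ k in cube d, W k ≤ (2 * Real.pi) ^ d * (1 + 4 * Phi d p hp) := by
  classical
  have hfm : IsFiniteMeasure (volume.restrict (cube d)) := ⟨by simpa using cube_fin⟩
  have hsq : ∀ (q : NNReal) (hq : q ≤ 1), q ≤ p → Summable (tau d q hq) := fun q hq h =>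
    Summable.of_nonneg_of_le (tau_nonneg q hq) (fun x => tau_mono q p hq hp h x) hs
  let mk : ∀ q : NNReal, q ≤ p → Par d := fun q h => ⟨q, h.trans hp, hsq q _ h⟩
  let a₀ : Par d := mk p le_rfl
  let Q : ℕ → Par d → Prop := fun j a => a.1 ≤ p ∧ (j : ℝ) ≤ ch a ∧ ch a ≤ j + 1
  let pick : ℕ → Par d := fun j => if h : ∃ a, Q j a then h.choose else a₀
  have hpick : ∀ j, (pick j).1 ≤ p := by
    intro j
    simp only [pick]
    split_ifs with h
    · exact h.choose_spec.1
    · exact le_rfl
  let M : Finset (Par d) := (Finset.range (⌊chi d p hp⌋₊ + 1)).image pick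
  have hMp : ∀ a ∈ M, a.1 ≤ p := by
    intro a ha
    obtain ⟨j, _, rfl⟩ := Finset.mem_image.1 ha
    exact hpick j
  have hM : M.Nonempty := ⟨pick 0, Finset.mem_image_of_mem _ (Finset.mem_range.2 (by omega))⟩
  have hcont : Continuous fun k => M.sup' hM (fun a => cs (tf a) k) :=
    Continuous.finset_sup'_apply hM fun a _ => tf_cont a
  refine ⟨fun k => 1 + M.sup' hM (fun a => cs (tf a) k), continuous_const.add hcont, ?_, ?_⟩
  · intro q hq hqp k
    let b : Par d := mk q hqp
    have hb : cs (tau d q hq) k = cs (tf b) k := rfl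
    have hb1 : 1 ≤ ch b := ch_ge b
    have hb2 : ch b ≤ chi d p hp :=
      (hsq q hq hqp).tsum_le_tsum (fun x => tau_mono q p hq hp hqp x) hs
    set j := ⌊ch b⌋₊ with hj
    have hj1 : (j : ℝ) ≤ ch b := Nat.floor_le (by linarith)
    have hj2 : ch b ≤ (j : ℝ) + 1 := (Nat.lt_floor_add_one _).le
    have hex : ∃ a, Q j a := ⟨b, hqp, hj1, hj2⟩
    have hpj : pick j = hex.choose := by simp only [pick, dif_pos hex]
    have hQ : Q j (pick j) := by rw [hpj]; exact hex.choose_spec
    have hmem : pick j ∈ M :=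
      Finset.mem_image_of_mem _ (Finset.mem_range.2 (Nat.lt_succ_iff.2 (Nat.floor_le_floor hb2)))
    have hclose : |cs (tf b) k - cs (tf (pick j)) k| ≤ 1 := by
      rcases le_total (ch b) (ch (pick j)) with h | h
      · rw [abs_sub_comm]
        exact (cs_diff h k).trans (by linarith [hQ.2.2])
      · exact (cs_diff h k).trans (by linarith [hQ.2.1])
    have h1 := (abs_le.1 hclose).2
    have h2 := Finset.le_sup' (fun a => cs (tf a) k) hmem
    rw [hb]
    linarith
  · rw [integral_add (integrable_const _) (integrable_of_cont hcont)]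
    have h1 := max_fin p hp hs M hM hMp
    have h2 : ∫ _ in cube d, (1 : ℝ) = (2 * Real.pi) ^ d := by
      rw [integral_const, smul_eq_mul, mul_one, measureReal_restrict_apply_univ, Measure.real,
        cube_vol, ENNReal.toReal_ofReal (by positivity)]
    rw [h2]
    linarith

end Pool.Agent.Helper33P
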