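import Pool.Agent.Results.MP_54f242_pr.InfraredMean

set_option autoImplicit false
set_option linter.unusedSectionVars false

/-! The maximal inequality of Rademacher and Menshov for a chain of finite sets of lattice points. -/

open MeasureTheory Filter Topology
open Pool.Agent.Results.MP_54f242_pr.InfraredMean

namespace Pool.Agent.Helper33P

variable {d : ℕ}

/-- cosine transform of a finite set -/
noncomputable def fc (A : Finset (Fin d → ℤ)) (k : Fin d → ℝ) : ℝ := ∑ x ∈ A, Real.cos (dot k x)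

/-- sine transform of a finite set -/
noncomputable def fs (A : Finset (Fin d → ℤ)) (k : Fin d → ℝ) : ℝ := ∑ x ∈ A, Real.sin (dot k x)

/-- the squared modulus of the Fourier transform -/
noncomputable def ft (A : Finset (Fin d → ℤ)) (k : Fin d → ℝ) : ℝ := fc A k ^ 2 + fs A k ^ 2

theorem ft_nonneg (A : Finset (Fin d → ℤ)) (k : Fin d → ℝ) : 0 ≤ ft A k := by
  unfold ft; positivity

theorem fc_cont (A : Finset (Fin d → ℤ)) : Continuous (fc A) := by
  unfold fc dot; fun_prop

theorem fs_cont (A : Finset (Fin d → ℤ)) : Continuous (fs A) := by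
  unfold fs dot; fun_prop

theorem ft_cont (A : Finset (Fin d → ℤ)) : Continuous (ft A) := by
  have h1 := fc_cont A
  have h2 := fs_cont A
  unfold ft
  fun_prop

theorem ft_eq (A : Finset (Fin d → ℤ)) (k : Fin d → ℝ) :
    ft A k = ∑ x ∈ A, ∑ y ∈ A, Real.cos (dot k (y - x)) := by
  unfold ft fc fs
  rw [sq, sq, Finset.sum_mul_sum, Finset.sum_mul_sum, ← Finset.sum_add_distrib]
  refine Finset.sum_congr rfl fun x _ => ?_
  rw [← Finset.sum_add_distrib]
  refine Finset.sum_congr rfl fun y _ => ?_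
  rw [dot_sub, Real.cos_sub]
  ring

theorem int_ft (A : Finset (Fin d → ℤ)) : ∫ k in cube d, ft A k = (2 * Real.pi) ^ d * A.card := by
  simp_rw [ft_eq]
  have hI : ∀ y : Fin d → ℤ, Integrable (fun k => Real.cos (dot k y)) (volume.restrict (cube d)) := by
    intro y
    refine integrable_of_cont ?_
    unfold dot; fun_prop
  rw [integral_finsetSum _ fun x _ => integrable_finsetSum _ fun y _ => hI _]
  simp_rw [fun x : Fin d → ℤ => integral_finsetSum A fun (y : Fin d → ℤ) _ => hI (y - x), int_cos,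
    sub_eq_zero]
  rw [Finset.sum_congr rfl (g := fun _ => (2 * Real.pi) ^ d)]
  · rw [Finset.sum_const, nsmul_eq_mul, mul_comm]
  · intro x hx
    rw [Finset.sum_ite_eq' A x, if_pos hx]

theorem fc_sdiff {A B : Finset (Fin d → ℤ)} (h : A ⊆ B) (k : Fin d → ℝ) :
    fc B k - fc A k = fc (B \ A) k := by
  unfold fc
  rw [← Finset.sum_sdiff h]; ring

theorem fs_sdiff {A B : Finset (Fin d → ℤ)} (h : A ⊆ B) (k : Fin d → ℝ) :
    fs B k - fs A k = fs (B \ A) k := by
  unfold fs
  rw [← Finset.sum_sdiff h]; ring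

/-- the dyadic square function of a chain of sets -/
noncomputable def sq (L : ℕ) (S : ℕ → Finset (Fin d → ℤ)) (k : Fin d → ℝ) : ℝ :=
  SS L (fun j => fc (S j) k) + SS L (fun j => fs (S j) k)

theorem sq_nonneg' (L : ℕ) (S : ℕ → Finset (Fin d → ℤ)) (k : Fin d → ℝ) : 0 ≤ sq L S k :=
  add_nonneg (SS_nonneg _ _) (SS_nonneg _ _)

theorem SS_cont' (f : ℕ → (Fin d → ℝ) → ℝ) (L : ℕ) (hf : ∀ j, Continuous (f j)) :
    Continuous fun k => SS L (fun j => f j k) := by
  induction L generalizing f with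
  | zero => simp only [SS]; exact continuous_const
  | succ L ih =>
    simp only [SS]
    refine Continuous.add ?_ (ih (fun j => f (2 * j)) fun j => hf _)
    refine continuous_finsetSum _ fun i _ => ?_
    exact ((hf _).sub (hf _)).pow 2

theorem sq_cont (L : ℕ) (S : ℕ → Finset (Fin d → ℤ)) : Continuous (sq L S) :=
  (SS_cont' (fun j => fc (S j)) L fun _ => fc_cont _).add
    (SS_cont' (fun j => fs (S j)) L fun _ => fs_cont _)

theorem int_sq (L : ℕ) (S : ℕ → Finset (Fin d → ℤ)) (hS : Monotone S) (b : ℝ)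
    (hb : ∀ i ≤ 2 ^ L, ((S i).card : ℝ) ≤ b) :
    ∫ k in cube d, sq L S k ≤ L * ((2 * Real.pi) ^ d * b) := by
  induction L generalizing S with
  | zero => simp [sq, SS]
  | succ L ih =>
    have h0 := ih (fun i => S (2 * i)) (fun i j hij => hS (by omega))
      (fun i hi => hb _ (by rw [pow_succ]; omega))
    have he : ∀ k, sq (L + 1) S k = (∑ i ∈ Finset.range (2 ^ (L + 1)), ft (S (i + 1) \ S i) k) +
        sq L (fun i => S (2 * i)) k := by
      intro k
      have h1 : ∀ i, ft (S (i + 1) \ S i) k =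
          (fc (S (i + 1)) k - fc (S i) k) ^ 2 + (fs (S (i + 1)) k - fs (S i) k) ^ 2 := by
        intro i
        rw [fc_sdiff (hS (Nat.le_succ i)), fs_sdiff (hS (Nat.le_succ i))]
        rfl
      simp_rw [h1]
      unfold sq
      simp only [SS]
      rw [Finset.sum_add_distrib]
      ring
    simp_rw [he]
    rw [integral_add (integrable_finsetSum _ fun i _ => integrable_of_cont (ft_cont _))
      (integrable_of_cont (sq_cont _ _)),
      integral_finsetSum _ fun i _ => integrable_of_cont (ft_cont _)]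
    simp_rw [int_ft]
    have h2 : ∑ i ∈ Finset.range (2 ^ (L + 1)), ((S (i + 1) \ S i).card : ℝ) ≤ b := by
      have h3 : ∀ n : ℕ, ∑ i ∈ Finset.range n, ((S (i + 1) \ S i).card : ℝ) ≤ (S n).card := by
        intro n
        induction n with
        | zero => simp
        | succ n ihn =>
          rw [Finset.sum_range_succ]
          have h4 : ((S (n + 1)).card : ℝ) = (S (n + 1) \ S n).card + (S n).card := by
            rw [← Nat.cast_add, Finset.card_sdiff_add_card_eq_card (hS (Nat.le_succ n))]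
          linarith
      exact (h3 _).trans (hb _ le_rfl)
    rw [← Finset.mul_sum]
    have h5 : (0 : ℝ) ≤ (2 * Real.pi) ^ d := by positivity
    have h6 := mul_le_mul_of_nonneg_left h2 h5
    push_cast
    linarith

theorem ft_le (L : ℕ) (S : ℕ → Finset (Fin d → ℤ)) (k : Fin d → ℝ) (i : ℕ) (hi : i < 2 ^ L) :
    ft (S i) k ≤ 2 * ft (S 0) k + 2 * (L * sq L S k) := by
  have h1 := chain L (fun j => fc (S j) k) i hi
  have h2 := chain L (fun j => fs (S j) k) i hi
  unfold ft sq
  nlinarith [sq_nonneg (fc (S i) k - 2 * fc (S 0) k), sq_nonneg (fs (S i) k - 2 * fs (S 0) k)]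

/-! ### a chain of sets -/

/-- the largest set of the chain with at most `s` points -/
noncomputable def T {τ : Type*} (M : Finset τ) (B : τ → Finset (Fin d → ℤ)) (s : ℕ) :
    Finset (Fin d → ℤ) := by
  classical exact (M.filter fun t => (B t).card ≤ s).biUnion B

variable {τ : Type*} [LinearOrder τ] {M : Finset τ} {B : τ → Finset (Fin d → ℤ)}

theorem T_mono : Monotone (T M B) := by
  classical
  intro s s' h x hx
  unfold T at hx ⊢
  rw [Finset.mem_biUnion] at hx ⊢
  obtain ⟨t, ht, hx⟩ := hx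
  rw [Finset.mem_filter] at ht
  exact ⟨t, Finset.mem_filter.2 ⟨ht.1, ht.2.trans h⟩, hx⟩

theorem T_card (hB : Monotone B) (s : ℕ) : (T M B s).card ≤ s := by
  classical
  unfold T
  rcases (M.filter fun t => (B t).card ≤ s).eq_empty_or_nonempty with h | h
  · rw [h]; simp
  · set t := (M.filter fun t => (B t).card ≤ s).max' h with ht
    have h1 : t ∈ M.filter fun t => (B t).card ≤ s := Finset.max'_mem _ h
    have h2 : (M.filter fun t => (B t).card ≤ s).biUnion B ⊆ B t := by
      rw [Finset.biUnion_subset]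
      intro u hu
      exact hB (Finset.le_max' _ u hu)
    exact (Finset.card_le_card h2).trans (Finset.mem_filter.1 h1).2

theorem T_eq (hB : Monotone B) {t : τ} (ht : t ∈ M) : T M B (B t).card = B t := by
  classical
  unfold T
  refine Finset.Subset.antisymm ?_ ?_
  · rw [Finset.biUnion_subset]
    intro u hu
    rw [Finset.mem_filter] at hu
    rcases le_total u t with h | h
    · exact hB h
    · exact (Finset.eq_of_subset_of_card_le (hB h) hu.2).symm.le
  · exact Finset.subset_biUnion_of_mem B (Finset.mem_filter.2 ⟨ht, le_rfl⟩)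

/-- the majorant of `|Ŝ|² / |S|` over the chain -/
noncomputable def gg {τ : Type*} (M : Finset τ) (B : τ → Finset (Fin d → ℤ)) (J : ℕ)
    (k : Fin d → ℝ) : ℝ :=
  ∑ j ∈ Finset.range (J + 1), (2 * ft (T M B (2 ^ j)) k +
    2 * (j * sq j (fun i => T M B (2 ^ j + i)) k)) / 2 ^ j

theorem gg_cont (M : Finset τ) (B : τ → Finset (Fin d → ℤ)) (J : ℕ) : Continuous (gg M B J) := by
  unfold gg
  refine continuous_finsetSum _ fun j _ => ?_
  have h1 := ft_cont (T M B (2 ^ j))
  have h2 := sq_cont j (fun i => T M B (2 ^ j + i))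
  fun_prop

theorem gg_term_nonneg (M : Finset τ) (B : τ → Finset (Fin d → ℤ)) (j : ℕ) (k : Fin d → ℝ) :
    0 ≤ (2 * ft (T M B (2 ^ j)) k +
    2 * (j * sq j (fun i => T M B (2 ^ j + i)) k)) / 2 ^ j := by
  have h1 := ft_nonneg (T M B (2 ^ j)) k
  have h2 := sq_nonneg' j (fun i => T M B (2 ^ j + i)) k
  positivity

theorem gg_nonneg (M : Finset τ) (B : τ → Finset (Fin d → ℤ)) (J : ℕ) (k : Fin d → ℝ) :
    0 ≤ gg M B J k := Finset.sum_nonneg fun j _ => gg_term_nonneg M B j k

theorem le_gg (hB : Monotone B) {J : ℕ} {t : τ} (ht : t ∈ M) (h0 : (B t).card ≠ 0)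
    (hJ : Nat.log 2 (B t).card ≤ J) (k : Fin d → ℝ) :
    ft (B t) k / (B t).card ≤ gg M B J k := by
  set s := (B t).card with hs
  set j := Nat.log 2 s with hj
  have h1 : 2 ^ j ≤ s := Nat.pow_log_le_self 2 h0
  have h2 : s < 2 ^ (j + 1) := Nat.lt_pow_succ_log_self (by norm_num) s
  obtain ⟨i, hi⟩ := Nat.exists_eq_add_of_le h1
  have h3 : i < 2 ^ j := by rw [pow_succ] at h2; omega
  have h4 := ft_le j (fun i => T M B (2 ^ j + i)) k i h3
  simp only [add_zero] at h4
  rw [← hi, hs, T_eq hB ht] at h4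
  have h5 : ft (B t) k / s ≤ ft (B t) k / 2 ^ j := by
    refine div_le_div_of_nonneg_left (ft_nonneg _ _) (by positivity) ?_
    exact_mod_cast h1
  have h6 : ft (B t) k / 2 ^ j ≤ (2 * ft (T M B (2 ^ j)) k +
      2 * (j * sq j (fun i => T M B (2 ^ j + i)) k)) / 2 ^ j :=
    div_le_div_of_nonneg_right h4 (by positivity)
  refine h5.trans (h6.trans ?_)
  unfold gg
  exact Finset.single_le_sum (f := fun j : ℕ => (2 * ft (T M B (2 ^ j)) k +
    2 * (j * sq j (fun i => T M B (2 ^ j + i)) k)) / 2 ^ j)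
    (fun j _ => gg_term_nonneg M B j k) (Finset.mem_range.2 (by omega))

theorem int_gg (hB : Monotone B) (J : ℕ) :
    ∫ k in cube d, gg M B J k ≤ (2 * Real.pi) ^ d * (4 * (1 + J) ^ 3) := by
  unfold gg
  have hc : ∀ j : ℕ, Continuous fun k : Fin d → ℝ => (2 * ft (T M B (2 ^ j)) k +
      2 * (j * sq j (fun i => T M B (2 ^ j + i)) k)) / 2 ^ j := by
    intro j
    have h1 := ft_cont (T M B (2 ^ j))
    have h2 := sq_cont j (fun i => T M B (2 ^ j + i))
    fun_prop
  rw [integral_finsetSum _ fun j _ => integrable_of_cont (hc j)]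
  have hterm : ∀ j ∈ Finset.range (J + 1), ∫ k in cube d, (2 * ft (T M B (2 ^ j)) k +
      2 * (j * sq j (fun i => T M B (2 ^ j + i)) k)) / 2 ^ j ≤
      (2 * Real.pi) ^ d * (2 + 4 * (J : ℝ) ^ 2) := by
    intro j hj
    have hjJ : (j : ℝ) ≤ J := by exact_mod_cast Nat.lt_succ_iff.1 (Finset.mem_range.1 hj)
    have h1 := ft_cont (T M B (2 ^ j))
    have h2 := sq_cont j (fun i => T M B (2 ^ j + i))
    rw [integral_div, integral_add (integrable_of_cont (by fun_prop))
      (integrable_of_cont (by fun_prop)), integral_const_mul, integral_const_mul,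
      integral_const_mul, int_ft]
    have h3 := int_sq j (fun i => T M B (2 ^ j + i)) (fun i i' h => T_mono (by omega))
      (2 ^ (j + 1)) (fun i hi => by
        have h4 : (T M B (2 ^ j + i)).card ≤ 2 ^ (j + 1) :=
          (T_card hB _).trans (by rw [pow_succ]; omega)
        exact_mod_cast h4)
    have h5 : ((T M B (2 ^ j)).card : ℝ) ≤ 2 ^ j := by exact_mod_cast T_card hB (2 ^ j)
    have hp : (0 : ℝ) < (2 * Real.pi) ^ d := by positivity
    rw [div_le_iff₀ (by positivity)]
    have h6 : (j : ℝ) * ∫ k in cube d, sq j (fun i => T M B (2 ^ j + i)) k ≤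
        j * (j * ((2 * Real.pi) ^ d * 2 ^ (j + 1))) := mul_le_mul_of_nonneg_left h3 (by positivity)
    have h7 : (2 * Real.pi) ^ d * ((T M B (2 ^ j)).card : ℝ) ≤ (2 * Real.pi) ^ d * 2 ^ j :=
      mul_le_mul_of_nonneg_left h5 hp.le
    have h8 : (j : ℝ) ^ 2 ≤ (J : ℝ) ^ 2 := pow_le_pow_left₀ (by positivity) hjJ 2
    have h9 : (2 * Real.pi) ^ d * (2 : ℝ) ^ j * (4 * (j : ℝ) ^ 2) ≤
        (2 * Real.pi) ^ d * (2 : ℝ) ^ j * (4 * (J : ℝ) ^ 2) :=
      mul_le_mul_of_nonneg_left (by linarith) (by positivity)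
    calc 2 * ((2 * Real.pi) ^ d * ((T M B (2 ^ j)).card : ℝ)) +
          2 * ((j : ℝ) * ∫ k in cube d, sq j (fun i => T M B (2 ^ j + i)) k)
        ≤ 2 * ((2 * Real.pi) ^ d * 2 ^ j) + 2 * (j * (j * ((2 * Real.pi) ^ d * 2 ^ (j + 1)))) := by
          linarith
      _ = 2 * ((2 * Real.pi) ^ d * 2 ^ j) + (2 * Real.pi) ^ d * (2 : ℝ) ^ j * (4 * (j : ℝ) ^ 2) := by
          ring
      _ ≤ 2 * ((2 * Real.pi) ^ d * 2 ^ j) + (2 * Real.pi) ^ d * (2 : ℝ) ^ j * (4 * (J : ℝ) ^ 2) := by
          linarith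
      _ = (2 * Real.pi) ^ d * (2 + 4 * (J : ℝ) ^ 2) * 2 ^ j := by ring
  refine (Finset.sum_le_sum hterm).trans ?_
  rw [Finset.sum_const, Finset.card_range, nsmul_eq_mul]
  have hp : (0 : ℝ) < (2 * Real.pi) ^ d := by positivity
  have hJ0 : (0 : ℝ) ≤ J := Nat.cast_nonneg J
  have : ((J + 1 : ℕ) : ℝ) * (2 + 4 * (J : ℝ) ^ 2) ≤ 4 * (1 + (J : ℝ)) ^ 3 := by
    push_cast
    nlinarith [pow_nonneg hJ0 2, pow_nonneg hJ0 3]
  calc ((J + 1 : ℕ) : ℝ) * ((2 * Real.pi) ^ d * (2 + 4 * (J : ℝ) ^ 2))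
      = (2 * Real.pi) ^ d * (((J + 1 : ℕ) : ℝ) * (2 + 4 * (J : ℝ) ^ 2)) := by ring
    _ ≤ _ := mul_le_mul_of_nonneg_left this hp.le

end Pool.Agent.Helper33P
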