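import Pool.Agent.Helper33P.Couple

set_option autoImplicit false
set_option linter.unusedSectionVars false

/-! The size of the cluster of a point. -/

open MeasureTheory Filter Topology
open Pool.Agent.Results.MP_54f242_pr.InfraredMean

namespace Pool.Agent.Helper33P

variable {d : ℕ}

/-- the number of the points of the cluster of `x` (`0` if it is infinite) -/
noncomputable def nc (ω : (Fin d → ℤ) × Fin d → Bool) (x : Fin d → ℤ) : ℕ :=
  Nat.card {y // (opn ω).Reachable x y}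

/-- the number of the points of the cluster of `x` -/
noncomputable def Nr (ω : (Fin d → ℤ) × Fin d → Bool) (x : Fin d → ℤ) : ENNReal :=
  ∑' y, Set.indicator {y | (opn ω).Reachable x y} (fun _ => (1 : ENNReal)) y

theorem Nr_eq (ω : (Fin d → ℤ) × Fin d → Bool) (x : Fin d → ℤ) :
    Nr ω x = ((Set.encard {y | (opn ω).Reachable x y} : ℕ∞) : ENNReal) := by
  rw [← ENNReal.tsum_set_one, Nr, ← tsum_subtype]

theorem nc_eq (ω : (Fin d → ℤ) × Fin d → Bool) (x : Fin d → ℤ) :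
    nc ω x = ⌊(Nr ω x).toReal⌋₊ := by
  have h0 : nc ω x = Set.ncard {y | (opn ω).Reachable x y} := Nat.card_coe_set_eq _
  rw [h0, Nr_eq]
  rcases Set.finite_or_infinite {y | (opn ω).Reachable x y} with h | h
  · rw [← h.cast_ncard_eq]
    simp
  · rw [h.encard_eq, h.ncard]
    simp

theorem nc_le (ω : (Fin d → ℤ) × Fin d → Bool) (x : Fin d → ℤ) :
    (nc ω x : ℝ) ≤ (Nr ω x).toReal := by
  rw [nc_eq]; exact Nat.floor_le ENNReal.toReal_nonneg

theorem ind_eq (x y : Fin d → ℤ) : (fun ω : (Fin d → ℤ) × Fin d → Bool =>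
      Set.indicator {y | (opn ω).Reachable x y} (fun _ => (1 : ENNReal)) y) =
      Set.indicator {ω : (Fin d → ℤ) × Fin d → Bool | (opn ω).Reachable x y}
        (fun _ => (1 : ENNReal)) := by
  classical
  funext ω
  simp only [Set.indicator_apply, Set.mem_ofPred_eq]

theorem Nr_meas (x : Fin d → ℤ) : Measurable fun ω : (Fin d → ℤ) × Fin d → Bool => Nr ω x := by
  unfold Nr
  refine Measurable.tsum fun y => ?_
  rw [ind_eq]
  exact measurable_const.indicator (meas_reach x y)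

theorem nc_meas (x : Fin d → ℤ) : Measurable fun ω : (Fin d → ℤ) × Fin d → Bool => nc ω x := by
  simp_rw [nc_eq]
  exact Nat.measurable_floor.comp (Nr_meas x).ennreal_toReal

theorem lint_Nr (p : NNReal) (hp : p ≤ 1) (hs : Summable (tau d p hp)) (x : Fin d → ℤ) :
    ∫⁻ ω, Nr ω x ∂(P d p hp) = ENNReal.ofReal (chi d p hp) := by
  unfold Nr
  rw [lintegral_tsum]
  · have h1 : ∀ y : Fin d → ℤ, ∫⁻ ω, Set.indicator {y | (opn ω).Reachable x y}
        (fun _ => (1 : ENNReal)) y ∂(P d p hp) = ENNReal.ofReal (tau d p hp (y - x)) := by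
      intro y
      rw [ind_eq, lintegral_indicator_const (meas_reach x y), one_mul, ← prob_reach p hp x y,
        ENNReal.ofReal_toReal (measure_ne_top _ _)]
    simp_rw [h1]
    rw [← (Equiv.addRight x).tsum_eq]
    simp only [Equiv.coe_addRight, add_sub_cancel_right]
    rw [← ENNReal.ofReal_tsum_of_nonneg (fun y => tau_nonneg p hp y) hs]
    rfl
  · intro y
    rw [ind_eq]
    exact (measurable_const.indicator (meas_reach x y)).aemeasurable

theorem fin_ae (p : NNReal) (hp : p ≤ 1) (hs : Summable (tau d p hp)) (x : Fin d → ℤ) :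
    ∀ᵐ ω ∂(P d p hp), Set.Finite {y | (opn (d := d) ω).Reachable x y} := by
  have h := ae_lt_top (Nr_meas x) (by rw [lint_Nr p hp hs x]; exact ENNReal.ofReal_ne_top)
  filter_upwards [h] with ω hω
  by_contra hc
  rw [Nr_eq, Set.Infinite.encard_eq hc] at hω
  simp at hω

theorem Nr_int (p : NNReal) (hp : p ≤ 1) (hs : Summable (tau d p hp)) (x : Fin d → ℤ) :
    Integrable (fun ω => (Nr ω x).toReal) (P d p hp) :=
  integrable_toReal_of_lintegral_ne_top (Nr_meas x).aemeasurable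
    (by rw [lint_Nr p hp hs x]; exact ENNReal.ofReal_ne_top)

theorem int_Nr (p : NNReal) (hp : p ≤ 1) (hs : Summable (tau d p hp)) (x : Fin d → ℤ) :
    ∫ ω, (Nr ω x).toReal ∂(P d p hp) = chi d p hp := by
  rw [integral_toReal (Nr_meas x).aemeasurable
    (ae_lt_top (Nr_meas x) (by rw [lint_Nr p hp hs x]; exact ENNReal.ofReal_ne_top)),
    lint_Nr p hp hs x, ENNReal.toReal_ofReal]
  exact tsum_nonneg fun y => tau_nonneg p hp y

/-! ### arithmetic -/

theorem cube_two (v : ℕ) : (1 + v) ^ 3 ≤ 9 * 2 ^ v := by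
  rcases Nat.lt_or_ge v 3 with h | h
  · interval_cases v <;> norm_num
  · induction v, h using Nat.le_induction with
    | base => norm_num
    | succ v hv ih =>
      have h1 : (1 + (v + 1)) ^ 3 ≤ 2 * (1 + v) ^ 3 := by
        nlinarith [Nat.mul_le_mul hv hv, Nat.mul_le_mul (Nat.mul_le_mul hv hv) hv]
      calc (1 + (v + 1)) ^ 3 ≤ 2 * (1 + v) ^ 3 := h1
        _ ≤ 2 * (9 * 2 ^ v) := Nat.mul_le_mul_left 2 ih
        _ = 9 * 2 ^ (v + 1) := by ring

theorem log_cube (n L : ℕ) : (1 + Nat.log 2 n) ^ 3 * 2 ^ L ≤ 9 * (1 + L) ^ 3 * (2 ^ L + n) := by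
  set l := Nat.log 2 n with hl
  rcases Nat.le_total l L with h | h
  · calc (1 + l) ^ 3 * 2 ^ L ≤ (1 + L) ^ 3 * 2 ^ L :=
          Nat.mul_le_mul_right _ (Nat.pow_le_pow_left (by omega) 3)
      _ ≤ 9 * (1 + L) ^ 3 * (2 ^ L + n) := by
          refine Nat.mul_le_mul ?_ (Nat.le_add_right _ _)
          omega
  · obtain ⟨v, hv⟩ := Nat.exists_eq_add_of_le h
    have h1 : (1 + l) ≤ (1 + L) * (1 + v) := by rw [hv]; nlinarith [Nat.zero_le (L * v)]
    have h2 : (1 + l) ^ 3 ≤ (1 + L) ^ 3 * (9 * 2 ^ v) := by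
      calc (1 + l) ^ 3 ≤ ((1 + L) * (1 + v)) ^ 3 := Nat.pow_le_pow_left h1 3
        _ = (1 + L) ^ 3 * (1 + v) ^ 3 := by ring
        _ ≤ _ := Nat.mul_le_mul_left _ (cube_two v)
    have h3 : 2 ^ v * 2 ^ L ≤ 2 ^ L + n := by
      rcases Nat.eq_zero_or_pos n with h0 | h0
      · have hl0 : l = 0 := by rw [hl, h0]; simp
        have : L = 0 := by omega
        have : v = 0 := by omega
        subst this
        simp
      · have h4 : 2 ^ l ≤ n := Nat.pow_log_le_self 2 h0.ne'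
        rw [hv, pow_add] at h4
        nlinarith [Nat.zero_le (2 ^ L)]
    calc (1 + l) ^ 3 * 2 ^ L ≤ ((1 + L) ^ 3 * (9 * 2 ^ v)) * 2 ^ L := Nat.mul_le_mul_right _ h2
      _ = 9 * (1 + L) ^ 3 * (2 ^ v * 2 ^ L) := by ring
      _ ≤ _ := Nat.mul_le_mul_left _ h3

theorem log_cube' (n L : ℕ) : (1 + (Nat.log 2 n : ℝ)) ^ 3 ≤
    9 * (1 + (L : ℝ)) ^ 3 * (1 + n / 2 ^ L) := by
  have h := log_cube n L
  have h1 : ((1 + Nat.log 2 n : ℕ) : ℝ) ^ 3 * 2 ^ L ≤ 9 * (1 + (L : ℝ)) ^ 3 * (2 ^ L + n) := by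
    exact_mod_cast h
  push_cast at h1
  have h2 : (0 : ℝ) < 2 ^ L := by positivity
  have h3 : 9 * (1 + (L : ℝ)) ^ 3 * (1 + n / 2 ^ L) = (9 * (1 + (L : ℝ)) ^ 3 * (2 ^ L + n)) / 2 ^ L := by
    field_simp
  rw [h3, le_div_iff₀ h2]
  exact h1

/-! ### the mean of the cube of the logarithm of the size -/

/-- `E_p (1 + [log₂ |C(0)|])³` -/
noncomputable def Phi (d : ℕ) (p : NNReal) (hp : p ≤ 1) : ℝ :=
  ∫ ω, (1 + (Nat.log 2 (nc ω 0) : ℝ)) ^ 3 ∂(P d p hp)

theorem f_meas (x : Fin d → ℤ) :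
    Measurable fun ω : (Fin d → ℤ) × Fin d → Bool => (1 + (Nat.log 2 (nc ω x) : ℝ)) ^ 3 := by
  have h : Measurable fun n : ℕ => (1 + (Nat.log 2 n : ℝ)) ^ 3 := measurable_of_countable _
  exact h.comp (nc_meas x)

theorem f_int (p : NNReal) (hp : p ≤ 1) (hs : Summable (tau d p hp)) (x : Fin d → ℤ) :
    Integrable (fun ω => (1 + (Nat.log 2 (nc ω x) : ℝ)) ^ 3) (P d p hp) := by
  refine Integrable.mono' ((((Nr_int p hp hs x).const_mul 9)).add (integrable_const 9))
    (f_meas x).aestronglyMeasurable (Eventually.of_forall fun ω => ?_)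
  rw [Real.norm_eq_abs, abs_of_nonneg (by positivity)]
  have h1 := log_cube' (nc ω x) 0
  have h2 := nc_le ω x
  simp only [CharP.cast_eq_zero, add_zero, one_pow, mul_one, pow_zero, div_one] at h1
  simp only [Pi.add_apply]
  linarith

theorem Phi_le (p : NNReal) (hp : p ≤ 1) (hs : Summable (tau d p hp)) :
    Phi d p hp ≤ 18 * (2 + Real.logb 2 (chi d p hp)) ^ 3 := by
  set X := chi d p hp with hX
  have hX1 : 1 ≤ X := chi_ge p hp hs
  set L := ⌈Real.logb 2 X⌉₊ with hL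
  have hlog : 0 ≤ Real.logb 2 X := Real.logb_nonneg (by norm_num) hX1
  have h1 : X ≤ 2 ^ L := by
    have h2 : Real.logb 2 X ≤ L := Nat.le_ceil _
    rw [Real.logb_le_iff_le_rpow (by norm_num) (by linarith), Real.rpow_natCast] at h2
    exact h2
  have h3 : (L : ℝ) ≤ 1 + Real.logb 2 X := by
    have := Nat.ceil_lt_add_one hlog
    linarith
  have hLp : (0 : ℝ) < 2 ^ L := by positivity
  have hb : ∀ ω : (Fin d → ℤ) × Fin d → Bool, (1 + (Nat.log 2 (nc ω 0) : ℝ)) ^ 3 ≤
      9 * (1 + (L : ℝ)) ^ 3 * (1 + (Nr ω 0).toReal / 2 ^ L) := by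
    intro ω
    refine (log_cube' (nc ω 0) L).trans ?_
    refine mul_le_mul_of_nonneg_left ?_ (by positivity)
    have := div_le_div_of_nonneg_right (nc_le ω 0) hLp.le
    linarith
  have hi : Integrable (fun ω : (Fin d → ℤ) × Fin d → Bool =>
      9 * (1 + (L : ℝ)) ^ 3 * (1 + (Nr ω 0).toReal / 2 ^ L)) (P d p hp) :=
    ((integrable_const 1).add ((Nr_int p hp hs 0).div_const _)).const_mul _
  have h4 : Phi d p hp ≤ 9 * (1 + (L : ℝ)) ^ 3 * (1 + X / 2 ^ L) := by
    refine (integral_mono (f_int p hp hs 0) hi hb).trans_eq ?_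
    rw [integral_const_mul, integral_add (integrable_const 1) ((Nr_int p hp hs 0).div_const _),
      integral_div, int_Nr p hp hs]
    simp [hX]
  have h5 : X / 2 ^ L ≤ 1 := by rw [div_le_one hLp]; exact h1
  have h6 : (1 + (L : ℝ)) ^ 3 ≤ (2 + Real.logb 2 X) ^ 3 :=
    pow_le_pow_left₀ (by positivity) (by linarith) 3
  have h7 : (0 : ℝ) ≤ 9 * (1 + (L : ℝ)) ^ 3 := by positivity
  nlinarith [mul_le_mul_of_nonneg_left h5 h7]

theorem one_le_Phi (p : NNReal) (hp : p ≤ 1) (hs : Summable (tau d p hp)) : 1 ≤ Phi d p hp := by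
  have h : ∫ ω, (1 : ℝ) ∂(P d p hp) ≤ Phi d p hp := by
    refine integral_mono (integrable_const 1) (f_int p hp hs 0) fun ω => ?_
    have : (0 : ℝ) ≤ (Nat.log 2 (nc ω 0) : ℝ) := Nat.cast_nonneg _
    exact one_le_pow₀ (by linarith)
  simpa using h

/-- translation invariance -/
theorem trans_f (p : NNReal) (hp : p ≤ 1) (u : Fin d → ℤ) :
    ∫ ω, (1 + (Nat.log 2 (nc ω u) : ℝ)) ^ 3 ∂(P d p hp) = Phi d p hp := by
  let T : ((Fin d → ℤ) × Fin d → Bool) → ((Fin d → ℤ) × Fin d → Bool) := fun ω e => ω (sh u e)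
  have hT : Measurable T := measurable_pi_iff.2 fun e => measurable_pi_apply _
  have hmap : (P d p hp).map T = P d p hp :=
    MeasureTheory.Measure.map_infinitePi_infinitePi_of_inj (sh u).injective
  have hadj : ∀ ω a b, (opn (T ω)).Adj a b ↔ (opn ω).Adj (a + u) (b + u) := by
    intro ω a b
    have e1 : ∀ (i : Fin d) (x y : Fin d → ℤ),
        (y + u = x + u + Pi.single i (1 : ℤ)) ↔ (y = x + Pi.single i (1 : ℤ)) := by
      intro i x y
      rw [add_right_comm, add_left_inj]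
    simp only [opn, SimpleGraph.fromRel_adj, T, sh, e1]
    simp
  have hreach : ∀ ω a b, (opn (T ω)).Reachable a b ↔ (opn ω).Reachable (a + u) (b + u) := by
    intro ω a b
    let φ : opn (T ω) ≃g opn ω := ⟨Equiv.addRight u, fun {a b} => (hadj ω a b).symm⟩
    exact (SimpleGraph.Iso.reachable_iff (φ := φ) (u := a) (v := b)).symm
  have hnc : ∀ ω, nc (T ω) 0 = nc ω u := by
    intro ω
    unfold nc
    refine Nat.card_congr ⟨fun y => ⟨y.1 + u, ?_⟩, fun y => ⟨y.1 - u, ?_⟩, fun y => ?_, fun y => ?_⟩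
    · have := (hreach ω 0 y.1).1 y.2
      simpa using this
    · rw [hreach]
      simpa using y.2
    · simp
    · simp
  unfold Phi
  conv_rhs => rw [← hmap]
  rw [integral_map hT.aemeasurable (f_meas 0).aestronglyMeasurable]
  simp_rw [hnc]

theorem size_le (p : NNReal) (hp : p ≤ 1) (hs : Summable (tau d p hp)) (Λ : Finset (Fin d → ℤ)) :
    ∫ U, ∑ x ∈ Λ, 4 * (1 + (Nat.log 2 (cl Λ (rel U p) x).card : ℝ)) ^ 3 ∂(mu d) ≤
      (Λ.card : ℝ) * (4 * Phi d p hp) := by
  classical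
  have hcm : ∀ x, Measurable fun U : (Fin d → ℤ) × Fin d → ℝ => (cl Λ (rel U p) x).card := by
    intro x
    have : (fun U : (Fin d → ℤ) × Fin d → ℝ => (cl Λ (rel U p) x).card) =
        fun U => ∑ y ∈ Λ, if rel U p x y then 1 else 0 := by
      funext U
      unfold cl
      rw [Finset.card_filter]
    rw [this]
    refine Finset.measurable_fun_sum _ fun y _ => ?_
    exact Measurable.ite (rel_meas p x y) measurable_const measurable_const
  have hg : Measurable fun n : ℕ => 4 * (1 + (Nat.log 2 n : ℝ)) ^ 3 := measurable_of_countable _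
  have hcb : ∀ x (U : (Fin d → ℤ) × Fin d → ℝ),
      4 * (1 + (Nat.log 2 (cl Λ (rel U p) x).card : ℝ)) ^ 3 ≤
        4 * (1 + (Nat.log 2 Λ.card : ℝ)) ^ 3 := by
    intro x U
    have h1 : (cl Λ (rel U p) x).card ≤ Λ.card := Finset.card_le_card (Finset.filter_subset _ _)
    have h2 : (Nat.log 2 (cl Λ (rel U p) x).card : ℝ) ≤ Nat.log 2 Λ.card := by
      exact_mod_cast Nat.log_mono_right h1
    have h3 : (0 : ℝ) ≤ Nat.log 2 (cl Λ (rel U p) x).card := Nat.cast_nonneg _
    have := pow_le_pow_left₀ (by linarith : (0 : ℝ) ≤ 1 + Nat.log 2 (cl Λ (rel U p) x).card)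
      (by linarith : 1 + (Nat.log 2 (cl Λ (rel U p) x).card : ℝ) ≤ 1 + Nat.log 2 Λ.card) 3
    linarith
  have hci : ∀ x, Integrable (fun U : (Fin d → ℤ) × Fin d → ℝ =>
      4 * (1 + (Nat.log 2 (cl Λ (rel U p) x).card : ℝ)) ^ 3) (mu d) := by
    intro x
    refine Integrable.of_bound (hg.comp (hcm x)).aestronglyMeasurable
      (4 * (1 + (Nat.log 2 Λ.card : ℝ)) ^ 3) (Eventually.of_forall fun U => ?_)
    rw [Real.norm_eq_abs, abs_of_nonneg (by positivity)]
    exact hcb x U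
  rw [integral_finsetSum _ fun x _ => hci x, ← nsmul_eq_mul, ← Finset.sum_const]
  refine Finset.sum_le_sum fun x _ => ?_
  have hpull : 4 * Phi d p hp = ∫ U, 4 * (1 + (Nat.log 2 (nc (conf p U) x) : ℝ)) ^ 3 ∂(mu d) := by
    rw [← trans_f p hp x, ← map_conf p hp,
      integral_map (conf_meas p).aemeasurable (f_meas x).aestronglyMeasurable, integral_const_mul]
  have hpi : Integrable (fun U => 4 * (1 + (Nat.log 2 (nc (conf p U) x) : ℝ)) ^ 3) (mu d) := by
    have := f_int p hp hs x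
    rw [← map_conf p hp] at this
    exact (this.comp_measurable (conf_meas p)).const_mul 4
  have hfin : ∀ᵐ U ∂(mu d), Set.Finite {y | (opn (conf p U)).Reachable x y} := by
    have := fin_ae p hp hs x
    rw [← map_conf p hp] at this
    exact ae_of_ae_map (conf_meas p).aemeasurable this
  rw [hpull]
  refine integral_mono_ae (hci x) hpi ?_
  filter_upwards [hfin] with U hU
  have h1 : (cl Λ (rel U p) x).card ≤ nc (conf p U) x := by
    unfold nc
    have h0 : Nat.card {y // (opn (conf p U)).Reachable x y} =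
      Set.ncard {y | (opn (conf p U)).Reachable x y} := Nat.card_coe_set_eq _
    rw [h0, ← Set.ncard_coe_finset]
    refine Set.ncard_le_ncard ?_ hU
    intro y hy
    exact (mem_cl.1 hy).2
  have h2 : (Nat.log 2 (cl Λ (rel U p) x).card : ℝ) ≤ Nat.log 2 (nc (conf p U) x) := by
    exact_mod_cast Nat.log_mono_right h1
  have h3 : (0 : ℝ) ≤ Nat.log 2 (cl Λ (rel U p) x).card := Nat.cast_nonneg _
  have := pow_le_pow_left₀ (by linarith : (0 : ℝ) ≤ 1 + Nat.log 2 (cl Λ (rel U p) x).card)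
    (by linarith : 1 + (Nat.log 2 (cl Λ (rel U p) x).card : ℝ) ≤ 1 + Nat.log 2 (nc (conf p U) x)) 3
  show 4 * (1 + (Nat.log 2 (cl Λ (rel U p) x).card : ℝ)) ^ 3 ≤
    4 * (1 + (Nat.log 2 (nc (conf p U) x) : ℝ)) ^ 3
  linarith

end Pool.Agent.Helper33P
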