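import Pool.Agent.Helper33P.Dim
import Pool.Agent.Helper33P.Ae

set_option autoImplicit false
set_option linter.unusedSectionVars false

/-! The full two-point function below `p_c`: `√τ̂` is Lipschitz, with the second moment. -/

open MeasureTheory Filter Topology
open Pool.Agent.Results.MP_54f242_pr.InfraredMean

namespace Pool.Agent.Helper33P

variable {d : ℕ}

theorem taylor_cos (α h : ℝ) : |Real.cos (α + h) - Real.cos α + h * Real.sin α| ≤ 3 * h ^ 2 := by
  rcases le_or_gt |h| 1 with hh | hh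
  · have h1 : ‖Complex.exp (h * Complex.I) - 1 - h * Complex.I‖ ≤ ‖(h * Complex.I : ℂ)‖ ^ 2 :=
      Complex.norm_exp_sub_one_sub_id_le (by simpa using hh)
    have h2 : ‖(h * Complex.I : ℂ)‖ ^ 2 = h ^ 2 := by simp
    rw [h2] at h1
    have h3 : Real.cos (α + h) - Real.cos α + h * Real.sin α =
        (Complex.exp (α * Complex.I) * (Complex.exp (h * Complex.I) - 1 - h * Complex.I)).re := by
      rw [Complex.exp_mul_I, Complex.exp_mul_I, Real.cos_add]
      simp only [Complex.mul_re, Complex.add_re, Complex.sub_re, Complex.one_re, Complex.I_re,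
        Complex.I_im, Complex.add_im, Complex.sub_im, Complex.one_im, Complex.mul_im,
        Complex.cos_ofReal_re, Complex.cos_ofReal_im, Complex.sin_ofReal_re, Complex.sin_ofReal_im,
        Complex.ofReal_re, Complex.ofReal_im]
      ring
    rw [h3]
    refine (Complex.abs_re_le_norm _).trans ?_
    rw [norm_mul, Complex.norm_exp_ofReal_mul_I, one_mul]
    nlinarith [sq_nonneg h]
  · have h1 := Real.abs_cos_le_one (α + h)
    have h2 := Real.abs_cos_le_one α
    have h3 := Real.abs_sin_le_one α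
    have h4 : |h * Real.sin α| ≤ |h| := by
      rw [abs_mul]
      exact mul_le_of_le_one_right (abs_nonneg _) h3
    have h5 : |h| ≤ h ^ 2 := by
      rw [← sq_abs]; nlinarith
    have h6 : 1 ≤ h ^ 2 := by rw [← sq_abs]; nlinarith
    have h7 := abs_add_le (Real.cos (α + h) - Real.cos α) (h * Real.sin α)
    have h8 := abs_sub (Real.cos (α + h)) (Real.cos α)
    linarith

/-- the `ℓ¹` norm -/
noncomputable def nn (x : Fin d → ℤ) : ℝ := ∑ i, |(x i : ℝ)|

theorem nn_nonneg (x : Fin d → ℤ) : 0 ≤ nn x := Finset.sum_nonneg fun _ _ => abs_nonneg _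

/-- the second moment `∑_x (1 + |x|²) τ_p(x)` -/
noncomputable def S2 (d : ℕ) (p : NNReal) (hp : p ≤ 1) : ℝ :=
  ∑' x : Fin d → ℤ, (1 + nn x ^ 2) * tau d p hp x

theorem tau_summable (p : NNReal) (hp : p ≤ 1)
    (hs : Summable fun x : Fin d → ℤ => (1 + nn x ^ 2) * tau d p hp x) :
    Summable (tau d p hp) := by
  refine Summable.of_nonneg_of_le (tau_nonneg p hp) (fun x => ?_) hs
  have h1 := tau_nonneg p hp x
  nlinarith [mul_nonneg (sq_nonneg (nn x)) h1]

theorem chi_le_S2 (p : NNReal) (hp : p ≤ 1)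
    (hs : Summable fun x : Fin d → ℤ => (1 + nn x ^ 2) * tau d p hp x) :
    chi d p hp ≤ S2 d p hp := by
  refine (tau_summable p hp hs).tsum_le_tsum (fun x => ?_) hs
  have h1 := tau_nonneg p hp x
  nlinarith [mul_nonneg (sq_nonneg (nn x)) h1]

theorem dot_diff (k k' : Fin d → ℝ) {ρ : ℝ} (hk : ∀ i, |k i - k' i| ≤ ρ)
    (x : Fin d → ℤ) : |dot k' x - dot k x| ≤ ρ * nn x := by
  have h3 : dot k' x - dot k x = ∑ i, (k' i - k i) * (x i : ℝ) := by
    unfold dot
    rw [← Finset.sum_sub_distrib]
    exact Finset.sum_congr rfl fun i _ => by ring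
  rw [h3]
  refine (Finset.abs_sum_le_sum_abs _ _).trans ?_
  unfold nn
  rw [Finset.mul_sum]
  refine Finset.sum_le_sum fun i _ => ?_
  rw [abs_mul, abs_sub_comm]
  exact mul_le_mul_of_nonneg_right (hk i) (abs_nonneg _)

/-- if `τ̂(k) ≥ 200 ρ² S`, then `τ̂ ≥ τ̂(k) / 2` at distance `ρ` -/
theorem half_low (p : NNReal) (hp : p ≤ 1)
    (hs : Summable fun x : Fin d → ℤ => (1 + nn x ^ 2) * tau d p hp x) (k k' : Fin d → ℝ)
    {ρ : ℝ} (hk : ∀ i, |k i - k' i| ≤ ρ)
    (hf : 200 * (ρ ^ 2 * S2 d p hp) ≤ cs (tau d p hp) k) :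
    cs (tau d p hp) k / 2 ≤ cs (tau d p hp) k' := by
  have hst := tau_summable p hp hs
  have hpos := tau_nonneg (d := d) p hp
  let β : (Fin d → ℤ) → ℝ := fun x => dot k' x - dot k x
  have hβ : ∀ x, |β x| ≤ ρ * nn x := dot_diff k k' hk
  have hβ2 : ∀ x, β x ^ 2 ≤ ρ ^ 2 * nn x ^ 2 := by
    intro x
    rw [← sq_abs, ← mul_pow]
    exact pow_le_pow_left₀ (abs_nonneg _) (hβ x) 2
  have hsB : Summable fun x => tau d p hp x * β x ^ 2 := by
    refine Summable.of_nonneg_of_le (fun x => mul_nonneg (hpos x) (sq_nonneg _)) (fun x => ?_)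
      (hs.mul_left (ρ ^ 2))
    have h1 := mul_le_mul_of_nonneg_left (hβ2 x) (hpos x)
    nlinarith [mul_nonneg (sq_nonneg ρ) (hpos x)]
  have hsS : Summable fun x => tau d p hp x * (β x * Real.sin (dot k x)) := by
    refine Summable.of_norm ?_
    refine Summable.of_nonneg_of_le (fun x => norm_nonneg _) (fun x => ?_) (hsB.add hst)
    rw [Real.norm_eq_abs, abs_mul, abs_of_nonneg (hpos x), abs_mul]
    have h1 : |β x| * |Real.sin (dot k x)| ≤ β x ^ 2 + 1 := by
      have h2 : |β x| * |Real.sin (dot k x)| ≤ |β x| :=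
        mul_le_of_le_one_right (abs_nonneg _) (Real.abs_sin_le_one _)
      have h3 : |β x| ≤ β x ^ 2 + 1 := by
        rw [← sq_abs]; nlinarith [sq_nonneg (|β x| - 1), abs_nonneg (β x)]
      linarith
    have h2 := mul_le_mul_of_nonneg_left h1 (hpos x)
    linarith
  have hcs : ∀ κ : Fin d → ℝ, Summable fun x => tau d p hp x * Real.cos (dot κ x) := by
    intro κ
    refine Summable.of_norm ?_
    refine Summable.of_nonneg_of_le (fun x => norm_nonneg _) (fun x => ?_) hst
    rw [Real.norm_eq_abs, abs_mul, abs_of_nonneg (hpos x)]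
    exact mul_le_of_le_one_right (hpos x) (Real.abs_cos_le_one _)
  set f := cs (tau d p hp) k with hfdef
  set B := ∑' x, tau d p hp x * β x ^ 2 with hB
  set s := ∑' x, tau d p hp x * (β x * Real.sin (dot k x)) with hsdef
  have hB0 : 0 ≤ B := tsum_nonneg fun x => mul_nonneg (hpos x) (sq_nonneg _)
  have hBle : B ≤ ρ ^ 2 * S2 d p hp := by
    rw [hB, S2, ← tsum_mul_left]
    refine hsB.tsum_le_tsum (fun x => ?_) (hs.mul_left _)
    have h1 := mul_le_mul_of_nonneg_left (hβ2 x) (hpos x)
    nlinarith [mul_nonneg (sq_nonneg ρ) (hpos x)]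
  have hdot : ∀ (t : ℝ) (x : Fin d → ℤ), dot (fun i => k i + t * (k' i - k i)) x =
      dot k x + t * β x := by
    intro t x
    simp only [β]
    unfold dot
    rw [← Finset.sum_sub_distrib, Finset.mul_sum, ← Finset.sum_add_distrib]
    exact Finset.sum_congr rfl fun i _ => by ring
  have hkey : ∀ t : ℝ, |cs (tau d p hp) (fun i => k i + t * (k' i - k i)) - f + t * s| ≤
      3 * t ^ 2 * B := by
    intro t
    have e1 : cs (tau d p hp) (fun i => k i + t * (k' i - k i)) - f + t * s =
        ∑' x, tau d p hp x * (Real.cos (dot k x + t * β x) - Real.cos (dot k x) +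
          (t * β x) * Real.sin (dot k x)) := by
      rw [hfdef, hsdef]
      unfold cs
      rw [← tsum_mul_left, ← Summable.tsum_sub (hcs _) (hcs _),
        ← Summable.tsum_add ((hcs _).sub (hcs _)) (hsS.mul_left t)]
      refine tsum_congr fun x => ?_
      rw [hdot]
      ring
    have hterm : ∀ x, |tau d p hp x * (Real.cos (dot k x + t * β x) - Real.cos (dot k x) +
          (t * β x) * Real.sin (dot k x))| ≤ 3 * t ^ 2 * (tau d p hp x * β x ^ 2) := by
      intro x
      rw [abs_mul, abs_of_nonneg (hpos x)]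
      have h1 := taylor_cos (dot k x) (t * β x)
      have h2 := mul_le_mul_of_nonneg_left h1 (hpos x)
      nlinarith
    rw [e1, hB, ← tsum_mul_left]
    have hsum1 := hsB.mul_left (3 * t ^ 2)
    have hsum2 : Summable fun x => |tau d p hp x * (Real.cos (dot k x + t * β x) -
        Real.cos (dot k x) + (t * β x) * Real.sin (dot k x))| :=
      Summable.of_nonneg_of_le (fun x => abs_nonneg _) hterm hsum1
    have h3 := norm_tsum_le_tsum_norm (f := fun x => tau d p hp x * (Real.cos (dot k x + t * β x) -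
        Real.cos (dot k x) + (t * β x) * Real.sin (dot k x))) hsum2
    simp only [Real.norm_eq_abs] at h3
    exact h3.trans (hsum2.tsum_le_tsum hterm hsum1)
  have hdisc : s ^ 2 ≤ 12 * B * f := by
    have h1 : ∀ t : ℝ, 0 ≤ (3 * B) * (t * t) + (-s) * t + f := by
      intro t
      have h2 := hat_nonneg p hp hst (fun i => k i + t * (k' i - k i))
      have h3 := (abs_le.1 (hkey t)).2
      have h4 : cs (tau d p hp) (fun i => k i + t * (k' i - k i)) =
        ∑' x, tau d p hp x * Real.cos (dot (fun i => k i + t * (k' i - k i)) x) := rfl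
      have h5 : 0 ≤ cs (tau d p hp) (fun i => k i + t * (k' i - k i)) := by
        rw [h4]; exact h2
      nlinarith
    have h2 := discrim_le_zero h1
    unfold discrim at h2
    nlinarith
  have hB200 : 200 * B ≤ f := by linarith
  have hf0 : 0 ≤ f := by linarith
  have hs1 : |s| ≤ f / 4 := by
    refine abs_le_of_sq_le_sq ?_ (by positivity)
    nlinarith [mul_le_mul_of_nonneg_right hB200 hf0]
  have hfin := (abs_le.1 (hkey 1)).1
  have e1 : (fun i => k i + 1 * (k' i - k i)) = k' := by
    funext i; ring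
  rw [e1] at hfin
  have := (abs_le.1 hs1).2
  nlinarith

end Pool.Agent.Helper33P
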