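import Pool.Agent.Helper33P.Sub
import Pool.Agent.Helper33P.Dim2

set_option autoImplicit false
set_option linter.unusedSectionVars false

/-! Counting the cells, and the dimension, for the full two-point function below `p_c`. -/

open MeasureTheory Filter Topology
open Pool.Agent.Results.MP_54f242_pr.InfraredMean

namespace Pool.Agent.Helper33P

variable {d : ℕ}

/-- the number of the cells which meet the exceptional set -/
theorem count_full (M : ℕ) (hM : 0 < M) {lam X : ℝ} (hlam : 0 < lam) (hX : 1 ≤ X)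
    (hρ : 200 * ((2 * Real.pi / M) ^ 2 * X) ≤ lam) (G : Finset (Fin d → Fin M))
    (hG : ∀ Q ∈ G, ∃ k ∈ cell M Q, ∃ (p : NNReal) (hp : p ≤ 1),
      (Summable fun x : Fin d → ℤ => (1 + nn x ^ 2) * tau d p hp x) ∧ S2 d p hp ≤ X ∧
        lam ≤ cs (tau d p hp) k) :
    (G.card : ℝ) * lam ≤ 2 * (M : ℝ) ^ d * (1 + 72 * (2 + Real.logb 2 X) ^ 3) := by
  classical
  have hMp : (0 : ℝ) < M := by exact_mod_cast hM
  have hlog : 0 ≤ Real.logb 2 X := Real.logb_nonneg (by norm_num) hX
  rcases G.eq_empty_or_nonempty with rfl | hne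
  · simp only [Finset.card_empty, Nat.cast_zero, zero_mul]
    positivity
  choose kk hkk pp hpp hsum hSX hl using hG
  let ps : NNReal := G.attach.sup fun Q => pp Q.1 Q.2
  obtain ⟨Q₀, _, hQ₀⟩ := Finset.exists_mem_eq_sup G.attach
    ((Finset.attach_nonempty_iff (s := G)).2 hne) fun Q => pp Q.1 Q.2
  have hps : ps = pp Q₀.1 Q₀.2 := hQ₀
  have hps1 : ps ≤ 1 := by rw [hps]; exact hpp _ _
  have hle : ∀ Q (hQ : Q ∈ G), pp Q hQ ≤ ps := fun Q hQ =>
    Finset.le_sup (f := fun Q : G => pp Q.1 Q.2) (Finset.mem_attach G ⟨Q, hQ⟩)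
  have hsP : Summable fun x : Fin d → ℤ => (1 + nn x ^ 2) * tau d ps hps1 x := by
    have := hsum Q₀.1 Q₀.2
    convert this using 3
    simp only [tau, hps]
  have hS2 : S2 d ps hps1 ≤ X := by
    have := hSX Q₀.1 Q₀.2
    convert this using 1
    simp only [S2, tau, hps]
  obtain ⟨W, hW1, hW2, hW3⟩ := majorant ps hps1 (tau_summable ps hps1 hsP)
  have hchi : chi d ps hps1 ≤ X := (chi_le_S2 ps hps1 hsP).trans hS2
  have hchi1 : 1 ≤ chi d ps hps1 := chi_ge ps hps1 (tau_summable ps hps1 hsP)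
  have hPhi : Phi d ps hps1 ≤ 18 * (2 + Real.logb 2 X) ^ 3 := by
    refine (Phi_le ps hps1 (tau_summable ps hps1 hsP)).trans ?_
    have h1 : Real.logb 2 (chi d ps hps1) ≤ Real.logb 2 X :=
      Real.logb_le_logb_of_le (by norm_num) (by linarith) hchi
    have h0 : 0 ≤ Real.logb 2 (chi d ps hps1) := Real.logb_nonneg (by norm_num) hchi1
    have := pow_le_pow_left₀ (by linarith : 0 ≤ 2 + Real.logb 2 (chi d ps hps1))
      (by linarith : 2 + Real.logb 2 (chi d ps hps1) ≤ 2 + Real.logb 2 X) 3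
    linarith
  have h4 : 0 < 2 * Real.pi / M := by positivity
  have hWpos : ∀ k, 0 ≤ W k := by
    intro k
    have h1 := hW2 0 zero_le_one (zero_le) k
    have h2 : 0 ≤ cs (tau d 0 zero_le_one) k := by
      have : Summable (tau d 0 zero_le_one) :=
        Summable.of_nonneg_of_le (tau_nonneg 0 _) (fun x => tau_mono 0 ps zero_le_one hps1
          (zero_le) x) (tau_summable ps hps1 hsP)
      exact hat_nonneg 0 zero_le_one this k
    linarith
  have hlow : ∀ Q ∈ G, ∀ k ∈ cell M Q, lam / 2 ≤ W k := by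
    intro Q hQ k hk
    have h1 := half_low (pp Q hQ) (hpp Q hQ) (hsum Q hQ) (kk Q hQ) k
      (fun i => cell_close M Q (hkk Q hQ) hk i) (by
        refine le_trans ?_ ((hρ.trans (hl Q hQ)))
        have := mul_le_mul_of_nonneg_left (hSX Q hQ) (sq_nonneg (2 * Real.pi / M))
        linarith)
    have h2 := hW2 (pp Q hQ) (hpp Q hQ) (hle Q hQ) k
    have h3 := hl Q hQ
    linarith
  have hint : ∀ Q, IntegrableOn W (cell M Q) volume := fun Q =>
    (show IntegrableOn W (cube d) volume from integrable_of_cont hW1).mono_set (cell_sub M hM Q)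
  have h5 : ∑ Q ∈ G, ∫ k in cell M Q, W k ≤ ∫ k in cube d, W k := by
    rw [← integral_biUnion_finset G (fun Q _ => cell_meas M Q)
      (fun Q _ Q' _ h => cell_disj M (Set.mem_univ Q) (Set.mem_univ Q') h)
      (fun Q _ => hint Q)]
    refine setIntegral_mono_set (integrable_of_cont hW1) (Eventually.of_forall hWpos) ?_
    refine LE.le.eventuallyLE ?_
    exact Set.iUnion₂_subset fun Q _ => cell_sub M hM Q
  have h6 : ∀ Q ∈ G, (2 * Real.pi / M) ^ d * (lam / 2) ≤ ∫ k in cell M Q, W k := by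
    intro Q hQ
    have h7 : ∫ _ in cell M Q, (lam / 2 : ℝ) = (2 * Real.pi / M) ^ d * (lam / 2) := by
      rw [setIntegral_const, smul_eq_mul, Measure.real, cell_vol, ENNReal.toReal_ofReal
        (by positivity)]
    rw [← h7]
    refine setIntegral_mono_on ?_ (hint Q) (cell_meas M Q) (hlow Q hQ)
    exact integrableOn_const (by rw [cell_vol]; exact ENNReal.ofReal_ne_top)
  have hpd : (0 : ℝ) < (2 * Real.pi) ^ d := by positivity
  have hMd : (0 : ℝ) < (M : ℝ) ^ d := by positivity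
  have h8 : (G.card : ℝ) * ((2 * Real.pi / M) ^ d * (lam / 2)) ≤
      (2 * Real.pi) ^ d * (1 + 72 * (2 + Real.logb 2 X) ^ 3) := by
    rw [← nsmul_eq_mul, ← Finset.sum_const]
    refine (Finset.sum_le_sum h6).trans (h5.trans (hW3.trans ?_))
    refine mul_le_mul_of_nonneg_left ?_ hpd.le
    linarith
  rw [div_pow] at h8
  have h9 : (G.card : ℝ) * lam * (2 * Real.pi) ^ d ≤
      2 * (M : ℝ) ^ d * (1 + 72 * (2 + Real.logb 2 X) ^ 3) * (2 * Real.pi) ^ d := by
    calc (G.card : ℝ) * lam * (2 * Real.pi) ^ d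
        = ((G.card : ℝ) * ((2 * Real.pi) ^ d / (M : ℝ) ^ d * (lam / 2))) * (2 * (M : ℝ) ^ d) := by
          field_simp
      _ ≤ ((2 * Real.pi) ^ d * (1 + 72 * (2 + Real.logb 2 X) ^ 3)) * (2 * (M : ℝ) ^ d) :=
          mul_le_mul_of_nonneg_right h8 (by positivity)
      _ = _ := by ring
  exact le_of_mul_le_mul_right h9 hpd

end Pool.Agent.Helper33P
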