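import Pool.Agent.Helper33P.Sub2

set_option autoImplicit false
set_option linter.unusedSectionVars false

/-! The Hausdorff dimension of the exceptional wave vectors of the full two-point function. -/

open MeasureTheory Filter Topology
open Pool.Agent.Results.MP_54f242_pr.InfraredMean

namespace Pool.Agent.Helper33P

variable {d : ℕ}

/-- the exceptional wave vectors: `τ̂_p(k) ≥ S ^ a` for parameters with arbitrarily large second
moment `S` -/
def EF (d : ℕ) (a : ℝ) : Set (Fin d → ℝ) :=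
  {k | k ∈ cube d ∧ ∀ B : ℝ, ∃ (p : NNReal) (hp : p ≤ 1),
    (Summable fun x : Fin d → ℤ => (1 + nn x ^ 2) * tau d p hp x) ∧ B ≤ S2 d p hp ∧
      (S2 d p hp) ^ a ≤ cs (tau d p hp) k}

theorem dim_aux2 (a s : ℝ) (ha : 0 < a) (ha1 : a < 1) (hs0 : 0 < s) (hsd : s < d)
    (hs : (1 - a) * (d - s) < 2 * a) : dimH (EF d a) ≤ ENNReal.ofReal s := by
  classical
  have hpi := Real.pi_pos
  let lam : ℕ → ℝ := fun m => ((2 : ℝ) ^ m / 2) ^ a
  have hlam : ∀ m, 0 < lam m := fun m => Real.rpow_pos_of_pos (by positivity) a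
  let M : ℕ → ℕ := fun m => ⌈2 * Real.pi * √(200 * (2 : ℝ) ^ m / lam m)⌉₊ + 1
  have hM : ∀ m, 0 < M m := fun m => Nat.succ_pos _
  have hM1 : ∀ m, 2 * Real.pi * √(200 * (2 : ℝ) ^ m / lam m) ≤ M m := by
    intro m
    have := Nat.le_ceil (2 * Real.pi * √(200 * (2 : ℝ) ^ m / lam m))
    simp only [M]
    push_cast
    linarith
  let bad : ∀ m, (Fin d → Fin (M m)) → Prop := fun m Q =>
    ∃ k ∈ cell (M m) Q, ∃ (p : NNReal) (hp : p ≤ 1),
      (Summable fun x : Fin d → ℤ => (1 + nn x ^ 2) * tau d p hp x) ∧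
        S2 d p hp ≤ (2 : ℝ) ^ m ∧ lam m ≤ cs (tau d p hp) k
  let U : (Σ m : ℕ, (Fin d → Fin (M m))) → Set (Fin d → ℝ) := fun i =>
    if bad i.1 i.2 then cell (M i.1) i.2 else ∅
  -- the exceptional set is contained in the limsup set
  have hsub : EF d a ⊆ {x | {i | x ∈ U i}.Infinite} := by
    rintro k ⟨hk, hinf⟩
    by_contra hfin
    rw [Set.mem_ofPred_eq, Set.not_infinite] at hfin
    obtain ⟨m₀, hm₀⟩ := (hfin.image Sigma.fst).bddAbove
    obtain ⟨p, hp, hsum, hB, hl⟩ := hinf ((2 : ℝ) ^ (m₀ + 1))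
    set S := S2 d p hp with hS
    have h1S : (1 : ℝ) < S := by
      have : (1 : ℝ) < 2 ^ (m₀ + 1) := one_lt_pow₀ (by norm_num) (by omega)
      linarith
    set n := ⌈S⌉₊ with hn
    have hSn : S ≤ n := Nat.le_ceil S
    have hnS : (n : ℝ) < S + 1 := Nat.ceil_lt_add_one (by linarith)
    have hn1 : 1 < n := by
      have : (1 : ℝ) < n := by linarith
      exact_mod_cast this
    set m := Nat.clog 2 n with hm
    have h1 : n ≤ 2 ^ m := Nat.le_pow_clog (by norm_num) n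
    have h2 : 2 ^ (m - 1) < n := by
      have := Nat.pow_pred_clog_lt_self (by norm_num : 1 < 2) hn1
      simpa [hm, Nat.pred_eq_sub_one] using this
    have h1' : S ≤ (2 : ℝ) ^ m := hSn.trans (by exact_mod_cast h1)
    have h3 : m₀ + 1 ≤ m := by
      by_contra hc
      rw [not_le] at hc
      have : (2 : ℝ) ^ m < 2 ^ (m₀ + 1) := pow_lt_pow_right₀ (by norm_num) hc
      linarith
    have h4 : lam m ≤ cs (tau d p hp) k := by
      refine le_trans ?_ hl
      simp only [lam]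
      refine Real.rpow_le_rpow (by positivity) ?_ ha.le
      have h5 : ((2 ^ (m - 1) : ℕ) : ℝ) + 1 ≤ n := by exact_mod_cast h2
      have h6 : (2 : ℝ) ^ m / 2 = ((2 ^ (m - 1) : ℕ) : ℝ) := by
        obtain ⟨j, hj⟩ := Nat.exists_eq_succ_of_ne_zero (by omega : m ≠ 0)
        rw [hj, Nat.succ_eq_add_one, pow_succ, Nat.add_sub_cancel]
        push_cast
        ring
      rw [h6]
      linarith
    obtain ⟨Q, hQ⟩ := cell_cover (M m) (hM m) hk
    have hbad : bad m Q := ⟨k, hQ, p, hp, hsum, h1', h4⟩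
    have hmem : (⟨m, Q⟩ : Σ m : ℕ, (Fin d → Fin (M m))) ∈ {i | k ∈ U i} := by
      show k ∈ U ⟨m, Q⟩
      simp only [U, if_pos hbad]
      exact hQ
    have := hm₀ (Set.mem_image_of_mem Sigma.fst hmem)
    simp only at this
    omega
  refine (dimH_mono hsub).trans (Pool.Agent.R942.AX.dimH_limsup U hs0 ?_)
  -- the sum
  have hcard : ∀ m, (((Finset.univ.filter (bad m)).card : ℝ)) * lam m ≤
      2 * (M m : ℝ) ^ d * (1 + 72 * (2 + (m : ℝ)) ^ 3) := by
    intro m
    have h := count_full (d := d) (X := (2 : ℝ) ^ m) (M m) (hM m) (hlam m)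
      (one_le_pow₀ (by norm_num)) (by
      have h1 := hM1 m
      have hMp : (0 : ℝ) < M m := by exact_mod_cast hM m
      have h2 : (2 * Real.pi) ^ 2 * (200 * (2 : ℝ) ^ m / lam m) ≤ (M m : ℝ) ^ 2 := by
        have h3 := pow_le_pow_left₀ (by positivity) h1 2
        rw [mul_pow, Real.sq_sqrt (by have := hlam m; positivity)] at h3
        exact h3
      have h4 := hlam m
      rw [div_pow]
      have h5 : 200 * ((2 * Real.pi) ^ 2 / (M m : ℝ) ^ 2 * 2 ^ m) =
          ((2 * Real.pi) ^ 2 * (200 * (2 : ℝ) ^ m / lam m)) * lam m / (M m : ℝ) ^ 2 := by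
        field_simp
      rw [h5, div_le_iff₀ (by positivity)]
      nlinarith) (Finset.univ.filter (bad m)) (fun Q hQ => (Finset.mem_filter.1 hQ).2)
    have h6 : Real.logb 2 ((2 : ℝ) ^ m) = m := by
      rw [Real.logb_pow, Real.logb_self_eq_one (by norm_num), mul_one]
    rw [h6] at h
    exact h
  set b : ℝ := (1 - a) / 2 with hb
  have hb0 : 0 ≤ b := by rw [hb]; linarith
  set q : ℝ := (2 : ℝ) ^ (b * (d - s) - a) with hq
  have hq0 : 0 < q := Real.rpow_pos_of_pos (by norm_num) _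
  have hq1 : q < 1 := Real.rpow_lt_one_of_one_lt_of_neg (by norm_num) (by rw [hb]; nlinarith)
  have hds : 0 < (d : ℝ) - s := by linarith
  set K : ℝ := 292 * (2 * Real.pi) ^ s * 130 ^ ((d : ℝ) - s) with hK
  have hterm : ∀ m, ((Finset.univ.filter (bad m)).card : ℝ) * (2 * Real.pi / M m) ^ s ≤
      K * (((m : ℝ) + 2) ^ 3 * q ^ m) := by
    intro m
    have hMp : (0 : ℝ) < M m := by exact_mod_cast hM m
    have hlm := hlam m
    have h1 : ((Finset.univ.filter (bad m)).card : ℝ) ≤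
        146 * (M m : ℝ) ^ d * (2 + (m : ℝ)) ^ 3 / lam m := by
      rw [le_div_iff₀ hlm]
      refine (hcard m).trans ?_
      have h2 : (1 : ℝ) ≤ (2 + (m : ℝ)) ^ 3 := one_le_pow₀ (by linarith [Nat.cast_nonneg (α := ℝ) m])
      have h3 : (0 : ℝ) < (M m : ℝ) ^ d := by positivity
      nlinarith
    -- lower bound for `lam`
    have h2m : (1 : ℝ) ≤ 2 ^ m := one_le_pow₀ (by norm_num)
    have h5 : ((2 : ℝ) ^ a) ^ m / 2 ≤ lam m := by
      simp only [lam]
      rw [Real.div_rpow (by positivity) (by norm_num), ← Real.rpow_natCast 2 m, ← Real.rpow_mul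
        (by norm_num), ← Real.rpow_natCast (2 ^ a) m, ← Real.rpow_mul (by norm_num), mul_comm a]
      refine div_le_div_of_nonneg_left (by positivity) (by positivity) ?_
      calc (2 : ℝ) ^ a ≤ 2 ^ (1 : ℝ) := Real.rpow_le_rpow_of_exponent_le (by norm_num) ha1.le
        _ = 2 := Real.rpow_one 2
    have h2a : (0 : ℝ) < (2 : ℝ) ^ a := Real.rpow_pos_of_pos (by norm_num) a
    -- upper bound for `M`
    have h6 : (M m : ℝ) ≤ 130 * ((2 : ℝ) ^ b) ^ m := by
      have h7 : (M m : ℝ) ≤ 2 * Real.pi * √(200 * (2 : ℝ) ^ m / lam m) + 2 := by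
        have := (Nat.ceil_lt_add_one
          (by positivity : (0 : ℝ) ≤ 2 * Real.pi * √(200 * (2 : ℝ) ^ m / lam m))).le
        simp only [M]
        push_cast
        linarith
      have h8 : 200 * (2 : ℝ) ^ m / lam m ≤ 200 * (2 : ℝ) ^ m / (((2 : ℝ) ^ a) ^ m / 2) :=
        div_le_div_of_nonneg_left (by positivity) (by positivity) h5
      have h9 : (2 : ℝ) ^ m / ((2 : ℝ) ^ a) ^ m = (((2 : ℝ) ^ b) ^ m) ^ 2 := by
        rw [← div_pow, ← pow_mul, mul_comm m 2, pow_mul]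
        congr 1
        rw [← Real.rpow_natCast ((2 : ℝ) ^ b) 2, ← Real.rpow_mul (by norm_num), hb]
        rw [show (1 - a) / 2 * ((2 : ℕ) : ℝ) = 1 - a by push_cast; ring, Real.rpow_sub (by norm_num),
          Real.rpow_one]
      have h10 : 200 * (2 : ℝ) ^ m / (((2 : ℝ) ^ a) ^ m / 2) = (20 * ((2 : ℝ) ^ b) ^ m) ^ 2 := by
        rw [mul_pow, ← h9]; field_simp; ring
      have h11 : (1 : ℝ) ≤ ((2 : ℝ) ^ b) ^ m :=
        one_le_pow₀ (Real.one_le_rpow (by norm_num) hb0)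
      have h12 : √(200 * (2 : ℝ) ^ m / lam m) ≤ 20 * ((2 : ℝ) ^ b) ^ m := by
        rw [Real.sqrt_le_left (by positivity), ← h10]
        exact h8
      have hpi3 : Real.pi < 3.15 := Real.pi_lt_d2
      have h13 := mul_le_mul_of_nonneg_left h12 (by positivity : (0 : ℝ) ≤ 2 * Real.pi)
      nlinarith
    have h12 : (M m : ℝ) ^ d * (M m : ℝ) ^ (-s) = (M m : ℝ) ^ ((d : ℝ) - s) := by
      rw [← Real.rpow_natCast, ← Real.rpow_add hMp]; rfl
    have h13 : (M m : ℝ) ^ ((d : ℝ) - s) ≤ 130 ^ ((d : ℝ) - s) * (((2 : ℝ) ^ b) ^ m) ^ ((d : ℝ) - s) := by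
      rw [← Real.mul_rpow (by norm_num) (by positivity)]
      exact Real.rpow_le_rpow hMp.le h6 hds.le
    have h14 : (2 * Real.pi / M m) ^ s = (2 * Real.pi) ^ s * (M m : ℝ) ^ (-s) := by
      rw [Real.div_rpow (by positivity) hMp.le, Real.rpow_neg hMp.le]; rfl
    have h15 : (((2 : ℝ) ^ b) ^ m) ^ ((d : ℝ) - s) * (((2 : ℝ) ^ a) ^ m)⁻¹ = q ^ m := by
      rw [hq, ← Real.rpow_natCast (2 ^ b) m, ← Real.rpow_natCast (2 ^ a) m,
        ← Real.rpow_natCast (2 ^ (b * (d - s) - a)) m, ← Real.rpow_mul (by positivity),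
        ← Real.rpow_mul (by positivity), ← Real.rpow_mul (by positivity),
        ← Real.rpow_mul (by positivity), ← Real.rpow_neg (by norm_num), ← Real.rpow_add (by norm_num)]
      congr 1
      ring
    have h16 : (lam m)⁻¹ ≤ 2 * (((2 : ℝ) ^ a) ^ m)⁻¹ := by
      have := inv_anti₀ (by positivity : (0 : ℝ) < ((2 : ℝ) ^ a) ^ m / 2) h5
      rw [inv_div] at this
      rw [← div_eq_mul_inv]
      exact this
    have hMd : (0 : ℝ) < (M m : ℝ) ^ ((d : ℝ) - s) := Real.rpow_pos_of_pos hMp _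
    calc ((Finset.univ.filter (bad m)).card : ℝ) * (2 * Real.pi / M m) ^ s
        ≤ (146 * (M m : ℝ) ^ d * (2 + (m : ℝ)) ^ 3 / lam m) * (2 * Real.pi / M m) ^ s :=
          mul_le_mul_of_nonneg_right h1 (by positivity)
      _ = 146 * (2 * Real.pi) ^ s * (2 + (m : ℝ)) ^ 3 * ((M m : ℝ) ^ ((d : ℝ) - s) * (lam m)⁻¹) := by
          rw [h14, ← h12, div_eq_mul_inv]; ring
      _ ≤ 146 * (2 * Real.pi) ^ s * (2 + (m : ℝ)) ^ 3 * ((130 ^ ((d : ℝ) - s) *
            (((2 : ℝ) ^ b) ^ m) ^ ((d : ℝ) - s)) * (2 * (((2 : ℝ) ^ a) ^ m)⁻¹)) := by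
          refine mul_le_mul_of_nonneg_left ?_ (by positivity)
          exact mul_le_mul h13 h16 (by positivity) (by positivity)
      _ = K * (((m : ℝ) + 2) ^ 3 * ((((2 : ℝ) ^ b) ^ m) ^ ((d : ℝ) - s) *
            (((2 : ℝ) ^ a) ^ m)⁻¹)) := by rw [hK]; ring
      _ = K * (((m : ℝ) + 2) ^ 3 * q ^ m) := by rw [h15]
  have hsum : Summable fun m : ℕ => K * (((m : ℝ) + 2) ^ 3 * q ^ m) := by
    refine Summable.mul_left _ ?_
    have h1 : Summable fun m : ℕ => (m : ℝ) ^ 3 * q ^ m :=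
      summable_pow_mul_geometric_of_norm_lt_one 3 (by
        rw [Real.norm_eq_abs, abs_of_pos hq0]; exact hq1)
    have h2 := ((summable_nat_add_iff 2).2 h1).mul_left (q ^ 2)⁻¹
    refine h2.congr fun m => ?_
    push_cast
    rw [pow_add q m]
    field_simp
  have hK0 : 0 ≤ K := by positivity
  have hfinal : ∑' i, Metric.ediam (U i) ^ s ≤
      ∑' m : ℕ, ENNReal.ofReal (K * (((m : ℝ) + 2) ^ 3 * q ^ m)) := by
    rw [ENNReal.tsum_sigma']
    refine ENNReal.tsum_le_tsum fun m => ?_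
    rw [tsum_fintype]
    have hMp : (0 : ℝ) < M m := by exact_mod_cast hM m
    have h1 : ∀ Q : Fin d → Fin (M m), Metric.ediam (U ⟨m, Q⟩) ^ s ≤
        if bad m Q then ENNReal.ofReal ((2 * Real.pi / M m) ^ s) else 0 := by
      intro Q
      simp only [U]
      split_ifs with h
      · rw [← ENNReal.ofReal_rpow_of_pos (by positivity)]
        exact ENNReal.rpow_le_rpow (cell_diam (M m) Q) hs0.le
      · simp [hs0]
    refine (Finset.sum_le_sum fun Q _ => h1 Q).trans ?_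
    rw [← Finset.sum_filter, Finset.sum_const, nsmul_eq_mul,
      ← ENNReal.ofReal_natCast, ← ENNReal.ofReal_mul (Nat.cast_nonneg _)]
    exact ENNReal.ofReal_le_ofReal (hterm m)
  refine ne_top_of_le_ne_top ?_ hfinal
  rw [← ENNReal.ofReal_tsum_of_nonneg (fun m => by positivity) hsum]
  exact ENNReal.ofReal_ne_top

theorem dim_main2 (hd : 1 ≤ d) (a : ℝ) (ha : 0 < a) (ha1 : a < 1) :
    dimH (EF d a) ≤ ENNReal.ofReal (d - 2 * a / (1 - a)) := by
  have h2a : 0 < 1 - a := by linarith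
  have hd1 : (1 : ℝ) ≤ d := by exact_mod_cast hd
  have hfrac0 : 0 < 2 * a / (1 - a) := div_pos (by linarith) h2a
  set v : ℝ := max 0 ((d : ℝ) - 2 * a / (1 - a)) with hv
  have hv0 : ENNReal.ofReal v = ENNReal.ofReal ((d : ℝ) - 2 * a / (1 - a)) := by
    rw [hv]
    rcases le_total 0 ((d : ℝ) - 2 * a / (1 - a)) with h | h
    · rw [max_eq_right h]
    · rw [max_eq_left h, ENNReal.ofReal_zero, ENNReal.ofReal_of_nonpos h]
  rw [← hv0]
  have ht : Tendsto (fun s : ℝ => ENNReal.ofReal s) (𝓝[>] v) (𝓝 (ENNReal.ofReal v)) :=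
    ENNReal.tendsto_ofReal (tendsto_id.mono_left nhdsWithin_le_nhds)
  refine ge_of_tendsto ht ?_
  have hvd : v < d := by rw [hv]; exact max_lt (by linarith) (by linarith)
  filter_upwards [Ioo_mem_nhdsGT hvd] with s hs
  have hs1 : 0 < s := lt_of_le_of_lt (le_max_left _ _) hs.1
  have hs2 : (d : ℝ) - 2 * a / (1 - a) < s := lt_of_le_of_lt (le_max_right _ _) hs.1
  refine dim_aux2 a s ha ha1 hs1 hs.2 ?_
  have h1 : (d : ℝ) - s < 2 * a / (1 - a) := by linarith
  rw [lt_div_iff₀ h2a] at h1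
  linarith

end Pool.Agent.Helper33P
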