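import Pool.Agent.Helper33P.Trunc

set_option autoImplicit false
set_option linter.unusedSectionVars false

/-! The clusters with at most `n` points: support, majorants, almost every wave vector. -/

open MeasureTheory Filter Topology
open Pool.Agent.Results.MP_54f242_pr.InfraredMean

namespace Pool.Agent.Helper33P

variable {d : ℕ}

theorem walk_coord (ω : (Fin d → ℤ) × Fin d → Bool) (i : Fin d) {u v : Fin d → ℤ}
    (p : (opn ω).Walk u v) : |v i - u i| ≤ p.length := by
  induction p with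
  | nil => simp
  | @cons u w v h p ih =>
    have h1 : |w i - u i| ≤ 1 := by
      rw [opn, SimpleGraph.fromRel_adj] at h
      rcases h.2 with ⟨j, h2, -⟩ | ⟨j, h2, -⟩
      · rw [h2]
        simp only [Pi.add_apply, add_sub_cancel_left]
        by_cases hj : i = j
        · subst hj; simp
        · simp [hj]
      · rw [h2]
        simp only [Pi.add_apply, sub_add_cancel_left, abs_neg]
        by_cases hj : i = j
        · subst hj; simp
        · simp [hj]
    have h2 : v i - u i = (v i - w i) + (w i - u i) := by ring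
    rw [h2, SimpleGraph.Walk.length_cons]
    refine (abs_add_le _ _).trans ?_
    push_cast
    linarith

theorem small_coord {n : ℕ} {ω : (Fin d → ℤ) × Fin d → Bool} (hs : small n ω 0) {x : Fin d → ℤ}
    (hx : (opn ω).Reachable 0 x) (i : Fin d) : |x i| < n := by
  classical
  obtain ⟨p, hp⟩ := hx.exists_isPath
  have h1 : ((p.support.toFinset : Finset (Fin d → ℤ)) : Set (Fin d → ℤ)) ⊆
      {y | (opn ω).Reachable 0 y} := by
    intro y hy
    have hy' : y ∈ p.support := by simpa using hy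
    exact (p.takeUntil y hy').reachable
  have h2 := (Set.encard_le_encard h1).trans hs
  rw [Set.encard_coe_eq_coe_finsetCard] at h2
  have h3 : p.support.toFinset.card ≤ n := by exact_mod_cast h2
  rw [List.toFinset_card_of_nodup hp.support_nodup, SimpleGraph.Walk.length_support] at h3
  have h4 := walk_coord ω i p
  simp only [Pi.zero_apply, sub_zero] at h4
  omega

/-- the box which contains the small clusters -/
noncomputable def FF (d n : ℕ) : Finset (Fin d → ℤ) :=
  Fintype.piFinset fun _ => Finset.Icc (-(n : ℤ)) n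

theorem set_empty {n : ℕ} {x : Fin d → ℤ} (hx : x ∉ FF d n) :
    {ω : (Fin d → ℤ) × Fin d → Bool | (opn ω).Reachable 0 x ∧ small n ω 0} = ∅ := by
  by_contra hne
  obtain ⟨ω, h1, h2⟩ := Set.nonempty_iff_ne_empty.2 hne
  apply hx
  rw [FF, Fintype.mem_piFinset]
  intro i
  have := small_coord h2 h1 i
  rw [Finset.mem_Icc]
  rw [abs_lt] at this
  constructor <;> omega

theorem tn_support (n : ℕ) (p : NNReal) (hp : p ≤ 1) (x : Fin d → ℤ) (hx : x ∉ FF d n) :
    tn d n p hp x = 0 := by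
  unfold tn
  rw [set_empty hx]
  simp

theorem tn_abs_summable (n : ℕ) (p : NNReal) (hp : p ≤ 1) : Summable fun x => |tn d n p hp x| :=
  summable_of_ne_finset_zero (s := FF d n) fun x hx => by rw [tn_support n p hp x hx, abs_zero]

theorem tn_le_one (n : ℕ) (p : NNReal) (hp : p ≤ 1) (x : Fin d → ℤ) : tn d n p hp x ≤ 1 := by
  unfold tn
  exact measureReal_le_one

theorem tn_tsum_le (n : ℕ) (p : NNReal) (hp : p ≤ 1) :
    ∑' x, |tn d n p hp x| ≤ (FF d n).card := by
  rw [tsum_eq_sum (s := FF d n) fun x hx => by rw [tn_support n p hp x hx, abs_zero]]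
  calc ∑ x ∈ FF d n, |tn d n p hp x| ≤ ∑ x ∈ FF d n, (1 : ℝ) :=
        Finset.sum_le_sum fun x _ => by
          rw [abs_of_nonneg (tn_nonneg n p hp x)]; exact tn_le_one n p hp x
    _ = _ := by simp

/-! ### monotonicity in the parameter -/

/-- `P_p(0 ↔ x, |C(0)| > n)` -/
noncomputable def bn (d n : ℕ) (p : NNReal) (hp : p ≤ 1) (x : Fin d → ℤ) : ℝ :=
  (P d p hp {ω | (opn ω).Reachable 0 x ∧ ¬ small n ω 0}).toReal

theorem bn_meas (n : ℕ) (x : Fin d → ℤ) :
    MeasurableSet {ω : (Fin d → ℤ) × Fin d → Bool | (opn ω).Reachable 0 x ∧ ¬ small n ω 0} :=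
  (meas_reach 0 x).inter (small_meas n 0).compl

theorem tn_add_bn (n : ℕ) (p : NNReal) (hp : p ≤ 1) (x : Fin d → ℤ) :
    tn d n p hp x + bn d n p hp x = tau d p hp x := by
  have h := measureReal_inter_add_sdiff (μ := P d p hp) (s := {ω | (opn (d := d) ω).Reachable 0 x})
    (small_meas n 0)
  exact h

theorem bn_mono (n : ℕ) (p q : NNReal) (hp : p ≤ 1) (hq : q ≤ 1) (h : p ≤ q) (x : Fin d → ℤ) :
    bn d n p hp x ≤ bn d n q hq x := by
  unfold bn
  rw [← map_conf p hp, ← map_conf q hq, Measure.map_apply (conf_meas p) (bn_meas n x),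
    Measure.map_apply (conf_meas q) (bn_meas n x)]
  refine ENNReal.toReal_mono (measure_ne_top _ _) (measure_mono fun U hU => ?_)
  have h1 : ∀ y, (opn (conf p U)).Reachable 0 y → (opn (conf q U)).Reachable 0 y := fun y hy =>
    rel_mono U p q h 0 y hy
  refine ⟨h1 x hU.1, fun hs => hU.2 ?_⟩
  exact (Set.encard_le_encard fun y hy => h1 y hy).trans hs

/-- the parameters -/
abbrev Par1 : Type := {p : NNReal // p ≤ 1}

/-- the total mass of the two monotone parts -/
noncomputable def AA (d n : ℕ) (t : Par1) : ℝ :=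
  ∑ x ∈ FF d n, (tau d t.1 t.2 x + bn d n t.1 t.2 x)

theorem AA_nonneg (n : ℕ) (t : Par1) : 0 ≤ AA d n t :=
  Finset.sum_nonneg fun x _ => add_nonneg (tau_nonneg _ _ _) ENNReal.toReal_nonneg

theorem AA_le (n : ℕ) (t : Par1) : AA d n t ≤ 2 * (FF d n).card := by
  calc AA d n t ≤ ∑ x ∈ FF d n, (2 : ℝ) := by
        refine Finset.sum_le_sum fun x _ => ?_
        have h1 := tau_le_one t.1 t.2 x
        have h2 : bn d n t.1 t.2 x ≤ 1 := by unfold bn; exact measureReal_le_one
        linarith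
    _ = _ := by simp [mul_comm]

theorem cs_tn (n : ℕ) (t : Par1) (k : Fin d → ℝ) :
    cs (tn d n t.1 t.2) k = ∑ x ∈ FF d n, tn d n t.1 t.2 x * Real.cos (dot k x) := by
  unfold cs
  exact tsum_eq_sum fun x hx => by rw [tn_support n _ _ x hx, zero_mul]

theorem tn_close (n : ℕ) {s t : Par1} (h : s.1 ≤ t.1) (k : Fin d → ℝ) :
    |cs (tn d n t.1 t.2) k - cs (tn d n s.1 s.2) k| ≤ AA d n t - AA d n s := by
  rw [cs_tn, cs_tn, ← Finset.sum_sub_distrib]
  refine (Finset.abs_sum_le_sum_abs _ _).trans ?_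
  unfold AA
  rw [← Finset.sum_sub_distrib]
  refine Finset.sum_le_sum fun x _ => ?_
  rw [← sub_mul, abs_mul]
  have h1 : |Real.cos (dot k x)| ≤ 1 := Real.abs_cos_le_one _
  have h2 := tau_mono s.1 t.1 s.2 t.2 h x
  have h3 := bn_mono n s.1 t.1 s.2 t.2 h x
  have h4 := tn_add_bn n s.1 s.2 x
  have h5 := tn_add_bn n t.1 t.2 x
  have h6 : |tn d n t.1 t.2 x - tn d n s.1 s.2 x| ≤
      (tau d t.1 t.2 x - tau d s.1 s.2 x) + (bn d n t.1 t.2 x - bn d n s.1 s.2 x) := by
    rw [abs_le]
    constructor <;> linarith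
  calc |tn d n t.1 t.2 x - tn d n s.1 s.2 x| * |Real.cos (dot k x)|
      ≤ |tn d n t.1 t.2 x - tn d n s.1 s.2 x| * 1 :=
        mul_le_mul_of_nonneg_left h1 (abs_nonneg _)
    _ ≤ _ := by linarith

theorem tn_close' (n : ℕ) (s t : Par1) (k : Fin d → ℝ) :
    |cs (tn d n t.1 t.2) k - cs (tn d n s.1 s.2) k| ≤ |AA d n t - AA d n s| := by
  rcases le_total s.1 t.1 with h | h
  · exact (tn_close n h k).trans (le_abs_self _)
  · rw [abs_sub_comm, abs_sub_comm (AA d n t)]
    exact (tn_close n h k).trans (le_abs_self _)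

theorem tn_cont (n : ℕ) (t : Par1) : Continuous (cs (tn d n t.1 t.2)) :=
  cs_cont _ (tn_abs_summable n t.1 t.2)

/-! ### the limit -/

theorem max_fin_small (n : ℕ) (M : Finset Par1) (hM : M.Nonempty) :
    ∫ k in cube d, M.sup' hM (fun a => cs (tn d n a.1 a.2) k) ≤
      (2 * Real.pi) ^ d * (4 * (1 + (Nat.log 2 n : ℝ)) ^ 3) := by
  classical
  have hfm : IsFiniteMeasure (volume.restrict (cube d)) := ⟨by simpa using cube_fin⟩
  have hab : ∀ a : Par1, Summable fun x => |tn d n a.1 a.2 x| := fun a =>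
    tn_abs_summable n a.1 a.2
  have hcont : ∀ N : ℕ, Continuous fun k => M.sup' hM (fun a => av N (tn d n a.1 a.2) k) :=
    fun N => Continuous.finset_sup'_apply hM fun a _ => av_cont N (tn d n a.1 a.2)
  have hlim : Tendsto (fun N : ℕ => ∫ k in cube d, M.sup' hM (fun a => av N (tn d n a.1 a.2) k))
      atTop (𝓝 (∫ k in cube d, M.sup' hM (fun a => cs (tn d n a.1 a.2) k))) := by
    refine tendsto_integral_of_dominated_convergence (fun _ => ((FF d n).card : ℝ))
      (fun N => (hcont N).aestronglyMeasurable) (integrable_const _) (fun N => ?_) ?_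
    · refine Eventually.of_forall fun k => ?_
      rw [Real.norm_eq_abs, abs_le]
      obtain ⟨a, ha⟩ := hM
      constructor
      · have h1 := (abs_le.1 ((av_abs N (tn d n a.1 a.2) (hab a) k).trans
          (tn_tsum_le n a.1 a.2))).1
        exact h1.trans (Finset.le_sup' (fun a : Par1 => av N (tn d n a.1 a.2) k) ha)
      · refine Finset.sup'_le _ _ fun b hb => ?_
        exact (abs_le.1 ((av_abs N (tn d n b.1 b.2) (hab b) k).trans
          (tn_tsum_le n b.1 b.2))).2
    · refine Eventually.of_forall fun k => ?_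
      exact Tendsto.finset_sup'_nhds_apply hM fun a _ => av_tendsto (tn d n a.1 a.2) (hab a) k
  refine le_of_tendsto hlim ?_
  filter_upwards [eventually_gt_atTop 0] with N hN
  have hNp : (0 : ℝ) < (N : ℝ) ^ d := by positivity
  obtain ⟨h, hc, h1, h2⟩ := finite_max_small (box d N) (M.image fun a => a.1) n
    (by intro t ht
        rw [Finset.mem_image] at ht
        obtain ⟨a, ha, rfl⟩ := ht
        exact a.2)
  have h3 : ∀ k, M.sup' hM (fun a => av N (tn d n a.1 a.2) k) ≤ h k / (N : ℝ) ^ d := by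
    intro k
    refine Finset.sup'_le _ _ fun a ha => ?_
    unfold av
    refine div_le_div_of_nonneg_right ?_ hNp.le
    exact h1 a.1 (Finset.mem_image_of_mem _ ha) k
  have h4 : ∫ k in cube d, M.sup' hM (fun a => av N (tn d n a.1 a.2) k) ≤
      ∫ k in cube d, h k / (N : ℝ) ^ d :=
    integral_mono (integrable_of_cont (hcont N)) (integrable_of_cont (hc.div_const _)) h3
  refine h4.trans ?_
  rw [integral_div, div_le_iff₀ hNp]
  refine h2.trans_eq ?_
  rw [box_card]
  ring

theorem majorant_small (n : ℕ) :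
    ∃ W : (Fin d → ℝ) → ℝ, Continuous W ∧
      (∀ (q : NNReal) (hq : q ≤ 1), ∀ k, cs (tn d n q hq) k ≤ W k) ∧
      ∫ k in cube d, W k ≤ (2 * Real.pi) ^ d * (1 + 4 * (1 + (Nat.log 2 n : ℝ)) ^ 3) := by
  classical
  have hfm : IsFiniteMeasure (volume.restrict (cube d)) := ⟨by simpa using cube_fin⟩
  let Q : ℕ → Par1 → Prop := fun j a => (j : ℝ) ≤ AA d n a ∧ AA d n a ≤ j + 1
  let pick : ℕ → Par1 := fun j => if h : ∃ a, Q j a then h.choose else ⟨0, zero_le_one⟩
  let M : Finset Par1 := (Finset.range (2 * (FF d n).card + 1)).image pick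
  have hM : M.Nonempty := ⟨pick 0, Finset.mem_image_of_mem _ (Finset.mem_range.2 (by omega))⟩
  have hcont : Continuous fun k => M.sup' hM (fun a => cs (tn d n a.1 a.2) k) :=
    Continuous.finset_sup'_apply hM fun a _ => tn_cont n a
  refine ⟨fun k => 1 + M.sup' hM (fun a => cs (tn d n a.1 a.2) k),
    continuous_const.add hcont, ?_, ?_⟩
  · intro q hq k
    let b : Par1 := ⟨q, hq⟩
    set j := ⌊AA d n b⌋₊ with hj
    have hj1 : (j : ℝ) ≤ AA d n b := Nat.floor_le (AA_nonneg n b)
    have hj2 : AA d n b ≤ (j : ℝ) + 1 := (Nat.lt_floor_add_one _).le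
    have hex : ∃ a, Q j a := ⟨b, hj1, hj2⟩
    have hpj : pick j = hex.choose := by simp only [pick, dif_pos hex]
    have hQ : Q j (pick j) := by rw [hpj]; exact hex.choose_spec
    have hmem : pick j ∈ M := by
      refine Finset.mem_image_of_mem _ (Finset.mem_range.2 (Nat.lt_succ_iff.2 ?_))
      have h1 := AA_le (d := d) n b
      have h2 : (j : ℝ) ≤ ((2 * (FF d n).card : ℕ) : ℝ) := by push_cast; linarith
      exact_mod_cast h2
    have hclose : |cs (tn d n b.1 b.2) k - cs (tn d n (pick j).1 (pick j).2) k| ≤ 1 := by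
      refine (tn_close' n (pick j) b k).trans ?_
      rw [abs_le]
      constructor
      · linarith [hQ.2]
      · linarith [hQ.1]
    have h1 := (abs_le.1 hclose).2
    have h2 := Finset.le_sup' (fun a : Par1 => cs (tn d n a.1 a.2) k) hmem
    show cs (tn d n b.1 b.2) k ≤ _
    linarith
  · rw [integral_add (integrable_const _) (integrable_of_cont hcont)]
    have h1 := max_fin_small (d := d) n M hM
    have h2 : ∫ _ in cube d, (1 : ℝ) = (2 * Real.pi) ^ d := by
      rw [integral_const, smul_eq_mul, mul_one, measureReal_restrict_apply_univ, Measure.real,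
        cube_vol, ENNReal.toReal_ofReal (by positivity)]
    rw [h2]
    linarith

theorem tn_hat_mono {n m : ℕ} (h : n ≤ m) (t : NNReal) (ht : t ≤ 1) (k : Fin d → ℝ) :
    cs (tn d n t ht) k ≤ cs (tn d m t ht) k :=
  le_of_tendsto_of_tendsto' (av_tendsto _ (tn_abs_summable n t ht) k)
    (av_tendsto _ (tn_abs_summable m t ht) k) fun N => av_tn_mono h t ht N k

theorem tn_hat_nonneg (n : ℕ) (t : NNReal) (ht : t ≤ 1) (k : Fin d → ℝ) :
    0 ≤ cs (tn d n t ht) k := by
  refine ge_of_tendsto' (av_tendsto _ (tn_abs_summable n t ht) k) fun N => ?_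
  unfold av
  refine div_nonneg ?_ (by positivity)
  rw [← qs_int n t ht (box d N) k]
  refine integral_nonneg fun U => ?_
  simp only [Pi.zero_apply]
  rw [qs_eq _ (rel_equiv U t) (small_hs n U t)]
  refine Finset.sum_nonneg fun x _ => ?_
  split_ifs
  · exact div_nonneg (ft_nonneg _ _) (Nat.cast_nonneg _)
  · exact le_rfl

theorem ae_small : ∀ᵐ k : Fin d → ℝ, k ∈ cube d → ∃ C : ℝ, ∀ (n : ℕ), 1 ≤ n →
    ∀ (p : NNReal) (hp : p ≤ 1), cs (tn d n p hp) k ≤
      C * ((1 + Real.log n) ^ 3 * (1 + Real.log (1 + Real.log n)) ^ 2) := by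
  classical
  choose W hW1 hW2 hW3 using fun i : ℕ => majorant_small (d := d) (2 ^ (2 ^ i))
  have hpos : ∀ i k, 0 ≤ W i k := fun i k =>
    (tn_hat_nonneg _ 0 zero_le_one k).trans (hW2 i 0 zero_le_one k)
  let c : ℕ → ℝ := fun i => 1 / ((8 : ℝ) ^ i * (1 + i) ^ 2)
  have hc0 : ∀ i, 0 ≤ c i := fun i => by simp only [c]; positivity
  have hVm : Measurable fun k : Fin d → ℝ => ∑' i, ENNReal.ofReal (c i * W i k) :=
    Measurable.tsum fun i => ((hW1 i).measurable.const_mul _).ennreal_ofReal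
  have hV : ∫⁻ k in cube d, ∑' i, ENNReal.ofReal (c i * W i k) < ⊤ := by
    rw [lintegral_tsum fun i => (((hW1 i).measurable.const_mul _).ennreal_ofReal).aemeasurable]
    have h1 : ∀ i : ℕ, ∫⁻ k in cube d, ENNReal.ofReal (c i * W i k) ≤
        ENNReal.ofReal ((2 * Real.pi) ^ d * (33 * (1 / ((i : ℝ) + 1) ^ 2))) := by
      intro i
      have hint : Integrable (fun k => c i * W i k) (volume.restrict (cube d)) :=
        integrable_of_cont (continuous_const.mul (hW1 i))
      rw [← ofReal_integral_eq_lintegral_ofReal hint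
        (Eventually.of_forall fun k => mul_nonneg (hc0 i) (hpos i k))]
      refine ENNReal.ofReal_le_ofReal ?_
      rw [integral_const_mul]
      refine (mul_le_mul_of_nonneg_left (hW3 i) (hc0 i)).trans ?_
      have hlog : Nat.log 2 (2 ^ (2 ^ i)) = 2 ^ i := Nat.log_pow (by norm_num) _
      rw [hlog]
      push_cast
      have h2 : (1 : ℝ) ≤ 2 ^ i := one_le_pow₀ (by norm_num)
      have h8 : (8 : ℝ) ^ i = (2 ^ i) ^ 3 := by
        rw [← pow_mul, mul_comm, pow_mul]; norm_num
      have h3 : c i * (1 + 4 * (1 + (2 : ℝ) ^ i) ^ 3) ≤ 33 * (1 / ((i : ℝ) + 1) ^ 2) := by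
        have h4 : (0 : ℝ) < ((i : ℝ) + 1) ^ 2 := by positivity
        have h5 : 1 + 4 * (1 + (2 : ℝ) ^ i) ^ 3 ≤ 33 * 8 ^ i := by
          have h6 : (1 + (2 : ℝ) ^ i) ^ 3 ≤ (2 * 2 ^ i) ^ 3 :=
            pow_le_pow_left₀ (by positivity) (by linarith) 3
          have h7 : (1 : ℝ) ≤ (2 ^ i) ^ 3 := one_le_pow₀ h2
          rw [h8]
          nlinarith
        simp only [c]
        rw [add_comm (1 : ℝ) (i : ℝ), div_mul_eq_mul_div, one_mul, mul_one_div,
          div_le_div_iff₀ (by positivity) h4]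
        calc (1 + 4 * (1 + (2 : ℝ) ^ i) ^ 3) * ((i : ℝ) + 1) ^ 2
            ≤ (33 * 8 ^ i) * ((i : ℝ) + 1) ^ 2 := mul_le_mul_of_nonneg_right h5 h4.le
          _ = 33 * (8 ^ i * ((i : ℝ) + 1) ^ 2) := by ring
      calc c i * ((2 * Real.pi) ^ d * (1 + 4 * (1 + (2 : ℝ) ^ i) ^ 3))
          = (2 * Real.pi) ^ d * (c i * (1 + 4 * (1 + (2 : ℝ) ^ i) ^ 3)) := by ring
        _ ≤ _ := mul_le_mul_of_nonneg_left h3 (by positivity)
    refine (ENNReal.tsum_le_tsum h1).trans_lt ?_
    have hsum : Summable fun i : ℕ => (2 * Real.pi) ^ d * (33 * (1 / ((i : ℝ) + 1) ^ 2)) := by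
      refine Summable.mul_left _ (Summable.mul_left _ ?_)
      have := (summable_nat_add_iff 1).2 (Real.summable_one_div_nat_pow.2 (by norm_num : 1 < 2))
      simpa using this
    rw [← ENNReal.ofReal_tsum_of_nonneg (fun i => by positivity) hsum]
    exact ENNReal.ofReal_lt_top
  have hae := ae_lt_top hVm hV.ne
  rw [ae_restrict_iff' cube_meas] at hae
  filter_upwards [hae] with k hk hkc
  have hk := hk hkc
  set V := ∑' i, ENNReal.ofReal (c i * W i k) with hVdef
  have hV0 : 0 ≤ V.toReal := ENNReal.toReal_nonneg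
  refine ⟨576 * V.toReal, fun n hn p hp => ?_⟩
  set L := Nat.log 2 n with hL
  set i := Nat.clog 2 (L + 1) with hi
  have h1 : L + 1 ≤ 2 ^ i := Nat.le_pow_clog (by norm_num) _
  have h2 : 2 ^ i ≤ 2 * (L + 1) := by
    rcases Nat.eq_zero_or_pos i with h0 | h0
    · rw [h0]; simp; omega
    · have hL1 : 1 < L + 1 := by
        by_contra hcon
        have : L + 1 = 1 := by omega
        rw [hi, this, Nat.clog_one_right] at h0
        exact lt_irrefl _ h0
      have h3 := Nat.pow_pred_clog_lt_self (by norm_num : 1 < 2) hL1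
      rw [← hi] at h3
      obtain ⟨m, hm⟩ := Nat.exists_eq_succ_of_ne_zero h0.ne'
      rw [hm] at h3 ⊢
      simp only [Nat.succ_eq_add_one, Nat.pred_eq_sub_one, Nat.add_sub_cancel] at h3
      rw [Nat.succ_eq_add_one, pow_succ]
      omega
  have h3 : n ≤ 2 ^ (2 ^ i) := by
    have h4 : n < 2 ^ (L + 1) := Nat.lt_pow_succ_log_self (by norm_num) n
    exact h4.le.trans (Nat.pow_le_pow_right (by norm_num) h1)
  have h5 : cs (tn d n p hp) k ≤ W i k := (tn_hat_mono h3 p hp k).trans (hW2 i p hp k)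
  have h6 : ENNReal.ofReal (c i * W i k) ≤ V := ENNReal.le_tsum i
  have h7 : c i * W i k ≤ V.toReal := (ENNReal.ofReal_le_iff_le_toReal hk.ne).1 h6
  have h8 : W i k ≤ V.toReal * ((8 : ℝ) ^ i * (1 + i) ^ 2) := by
    simp only [c] at h7
    rw [one_div, inv_mul_le_iff₀ (by positivity)] at h7
    linarith
  have hn1 : (1 : ℝ) ≤ n := by exact_mod_cast hn
  have hlog0 : 0 ≤ Real.log n := Real.log_nonneg hn1
  have hlog2 : 0 < Real.log 2 := Real.log_pos (by norm_num)
  have hl2 := Real.log_two_gt_d9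
  have h9 : (L : ℝ) ≤ 2 * Real.log n := by
    have h10 : (2 : ℝ) ^ L ≤ n := by
      have : 2 ^ L ≤ n := Nat.pow_log_le_self 2 (by omega)
      exact_mod_cast this
    have h11 : (L : ℝ) * Real.log 2 ≤ Real.log n := by
      rw [← Real.log_pow]
      exact Real.log_le_log (by positivity) h10
    have hL0 : (0 : ℝ) ≤ L := Nat.cast_nonneg L
    nlinarith
  have h12 : (L : ℝ) + 1 ≤ 2 * (1 + Real.log n) := by linarith
  have h2' : ((2 : ℝ) ^ i) ≤ 2 * ((L : ℝ) + 1) := by exact_mod_cast h2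
  have h13 : (8 : ℝ) ^ i ≤ 64 * (1 + Real.log n) ^ 3 := by
    have h14 : (8 : ℝ) ^ i = (2 ^ i) ^ 3 := by
      rw [← pow_mul, mul_comm, pow_mul]; norm_num
    rw [h14]
    calc ((2 : ℝ) ^ i) ^ 3 ≤ (4 * (1 + Real.log n)) ^ 3 :=
          pow_le_pow_left₀ (by positivity) (by linarith) 3
      _ = _ := by ring
  have h15 : (1 : ℝ) + i ≤ 3 * (1 + Real.log (1 + Real.log n)) := by
    have h16 : (2 : ℝ) ^ i ≤ 4 * (1 + Real.log n) := by linarith
    have h17 : (i : ℝ) * Real.log 2 ≤ Real.log 4 + Real.log (1 + Real.log n) := by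
      rw [← Real.log_pow, ← Real.log_mul (by norm_num) (by linarith)]
      exact Real.log_le_log (by positivity) h16
    have h18 : Real.log 4 = 2 * Real.log 2 := by
      rw [show (4 : ℝ) = 2 ^ 2 by norm_num, Real.log_pow]; norm_num
    have h19 : 0 ≤ Real.log (1 + Real.log n) := Real.log_nonneg (by linarith)
    rw [h18] at h17
    have h20 : ((i : ℝ) - 2) * Real.log 2 ≤ Real.log (1 + Real.log n) := by linarith
    by_cases h21 : (i : ℝ) ≤ 2
    · linarith
    · rw [not_le] at h21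
      nlinarith
  have h22 : (1 + (i : ℝ)) ^ 2 ≤ 9 * (1 + Real.log (1 + Real.log n)) ^ 2 := by
    calc (1 + (i : ℝ)) ^ 2 ≤ (3 * (1 + Real.log (1 + Real.log n))) ^ 2 :=
          pow_le_pow_left₀ (by positivity) h15 2
      _ = _ := by ring
  calc cs (tn d n p hp) k ≤ V.toReal * ((8 : ℝ) ^ i * (1 + i) ^ 2) := h5.trans h8
    _ ≤ V.toReal * ((64 * (1 + Real.log n) ^ 3) * (9 * (1 + Real.log (1 + Real.log n)) ^ 2)) := by
        refine mul_le_mul_of_nonneg_left ?_ hV0
        exact mul_le_mul h13 h22 (by positivity) (by positivity)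
    _ = _ := by ring

end Pool.Agent.Helper33P
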