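import Pool.Agent.Helper33P.Sub3
import Pool.Agent.Helper33P.Trunc2

set_option autoImplicit false
set_option linter.unusedSectionVars false

/-! All parameters and all sizes: the second moment of `τ_{p,n}`. -/

open MeasureTheory Filter Topology
open Pool.Agent.Results.MP_54f242_pr.InfraredMean

namespace Pool.Agent.Helper33P

variable {d : ℕ}

/-- if `τ̂(k) ≥ 200 ρ² S`, then `τ̂ ≥ τ̂(k) / 2` at distance `ρ` -/
theorem half_low' (t : (Fin d → ℤ) → ℝ) (hpos : ∀ x, 0 ≤ t x)
    (hs : Summable fun x : Fin d → ℤ => (1 + nn x ^ 2) * t x) (hnn : ∀ κ : Fin d → ℝ, 0 ≤ cs t κ)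
    (k k' : Fin d → ℝ) {ρ : ℝ} (hk : ∀ i, |k i - k' i| ≤ ρ)
    (hf : 200 * (ρ ^ 2 * ∑' x, (1 + nn x ^ 2) * t x) ≤ cs t k) :
    cs t k / 2 ≤ cs t k' := by
  have hst : Summable t := by
    refine Summable.of_nonneg_of_le hpos (fun x => ?_) hs
    nlinarith [mul_nonneg (sq_nonneg (nn x)) (hpos x)]
  let β : (Fin d → ℤ) → ℝ := fun x => dot k' x - dot k x
  have hβ : ∀ x, |β x| ≤ ρ * nn x := dot_diff k k' hk
  have hβ2 : ∀ x, β x ^ 2 ≤ ρ ^ 2 * nn x ^ 2 := by
    intro x
    rw [← sq_abs, ← mul_pow]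
    exact pow_le_pow_left₀ (abs_nonneg _) (hβ x) 2
  have hsB : Summable fun x => t x * β x ^ 2 := by
    refine Summable.of_nonneg_of_le (fun x => mul_nonneg (hpos x) (sq_nonneg _)) (fun x => ?_)
      (hs.mul_left (ρ ^ 2))
    have h1 := mul_le_mul_of_nonneg_left (hβ2 x) (hpos x)
    nlinarith [mul_nonneg (sq_nonneg ρ) (hpos x)]
  have hsS : Summable fun x => t x * (β x * Real.sin (dot k x)) := by
    refine Summable.of_norm ?_
    refine Summable.of_nonneg_of_le (fun x => norm_nonneg _) (fun x => ?_) (hsB.add hst)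
    rw [Real.norm_eq_abs, abs_mul, abs_of_nonneg (hpos x), abs_mul]
    have h1 : |β x| * |Real.sin (dot k x)| ≤ β x ^ 2 + 1 := by
      have h2 : |β x| * |Real.sin (dot k x)| ≤ |β x| :=
        mul_le_of_le_one_right (abs_nonneg _) (Real.abs_sin_le_one _)
      have h3 : |β x| ≤ β x ^ 2 + 1 := by
        rw [← sq_abs]; nlinarith [sq_nonneg (|β x| - 1), abs_nonneg (β x)]
      linarith
    have h2 := mul_le_mul_of_nonneg_left h1 (hpos x)
    linarith
  have hcs : ∀ κ : Fin d → ℝ, Summable fun x => t x * Real.cos (dot κ x) := by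
    intro κ
    refine Summable.of_norm ?_
    refine Summable.of_nonneg_of_le (fun x => norm_nonneg _) (fun x => ?_) hst
    rw [Real.norm_eq_abs, abs_mul, abs_of_nonneg (hpos x)]
    exact mul_le_of_le_one_right (hpos x) (Real.abs_cos_le_one _)
  set f := cs t k with hfdef
  set B := ∑' x, t x * β x ^ 2 with hB
  set s := ∑' x, t x * (β x * Real.sin (dot k x)) with hsdef
  have hB0 : 0 ≤ B := tsum_nonneg fun x => mul_nonneg (hpos x) (sq_nonneg _)
  have hBle : B ≤ ρ ^ 2 * ∑' x, (1 + nn x ^ 2) * t x := by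
    rw [hB, ← tsum_mul_left]
    refine hsB.tsum_le_tsum (fun x => ?_) (hs.mul_left _)
    have h1 := mul_le_mul_of_nonneg_left (hβ2 x) (hpos x)
    nlinarith [mul_nonneg (sq_nonneg ρ) (hpos x)]
  have hdot : ∀ (r : ℝ) (x : Fin d → ℤ), dot (fun i => k i + r * (k' i - k i)) x =
      dot k x + r * β x := by
    intro r x
    simp only [β]
    unfold dot
    rw [← Finset.sum_sub_distrib, Finset.mul_sum, ← Finset.sum_add_distrib]
    exact Finset.sum_congr rfl fun i _ => by ring
  have hkey : ∀ r : ℝ, |cs t (fun i => k i + r * (k' i - k i)) - f + r * s| ≤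
      3 * r ^ 2 * B := by
    intro r
    have e1 : cs t (fun i => k i + r * (k' i - k i)) - f + r * s =
        ∑' x, t x * (Real.cos (dot k x + r * β x) - Real.cos (dot k x) +
          (r * β x) * Real.sin (dot k x)) := by
      rw [hfdef, hsdef]
      unfold cs
      rw [← tsum_mul_left, ← Summable.tsum_sub (hcs _) (hcs _),
        ← Summable.tsum_add ((hcs _).sub (hcs _)) (hsS.mul_left r)]
      refine tsum_congr fun x => ?_
      rw [hdot]
      ring
    have hterm : ∀ x, |t x * (Real.cos (dot k x + r * β x) - Real.cos (dot k x) +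
          (r * β x) * Real.sin (dot k x))| ≤ 3 * r ^ 2 * (t x * β x ^ 2) := by
      intro x
      rw [abs_mul, abs_of_nonneg (hpos x)]
      have h1 := taylor_cos (dot k x) (r * β x)
      have h2 := mul_le_mul_of_nonneg_left h1 (hpos x)
      nlinarith
    rw [e1, hB, ← tsum_mul_left]
    have hsum1 := hsB.mul_left (3 * r ^ 2)
    have hsum2 : Summable fun x => |t x * (Real.cos (dot k x + r * β x) -
        Real.cos (dot k x) + (r * β x) * Real.sin (dot k x))| :=
      Summable.of_nonneg_of_le (fun x => abs_nonneg _) hterm hsum1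
    have h3 := norm_tsum_le_tsum_norm (f := fun x => t x * (Real.cos (dot k x + r * β x) -
        Real.cos (dot k x) + (r * β x) * Real.sin (dot k x))) hsum2
    simp only [Real.norm_eq_abs] at h3
    exact h3.trans (hsum2.tsum_le_tsum hterm hsum1)
  have hdisc : s ^ 2 ≤ 12 * B * f := by
    have h1 : ∀ r : ℝ, 0 ≤ (3 * B) * (r * r) + (-s) * r + f := by
      intro r
      have h3 := (abs_le.1 (hkey r)).2
      have h5 : 0 ≤ cs t (fun i => k i + r * (k' i - k i)) := hnn _
      nlinarith
    have h2 := discrim_le_zero h1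
    unfold discrim at h2
    nlinarith
  have hB200 : 200 * B ≤ f := by linarith
  have hf0 : 0 ≤ f := by linarith
  have hs1 : |s| ≤ f / 4 := by
    refine abs_le_of_sq_le_sq ?_ (by positivity)
    nlinarith [mul_le_mul_of_nonneg_right hB200 hf0]
  have hfin := (abs_le.1 (hkey 1)).1
  have e1 : (fun i => k i + 1 * (k' i - k i)) = k' := by
    funext i; ring
  rw [e1] at hfin
  have := (abs_le.1 hs1).2
  nlinarith


end Pool.Agent.Helper33P
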