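import Pool.Agent.Helper33P.Sub4

set_option autoImplicit false
set_option linter.unusedSectionVars false

/-! Large clusters contribute little, in terms of the second moment. -/

open MeasureTheory Filter Topology
open Pool.Agent.Results.MP_54f242_pr.InfraredMean

namespace Pool.Agent.Helper33P

variable {d : ℕ}

/-- the second moment of `τ_{p,n}` -/
noncomputable def Tn (d n : ℕ) (p : NNReal) (hp : p ≤ 1) : ℝ :=
  ∑' x : Fin d → ℤ, (1 + nn x ^ 2) * tn d n p hp x

theorem tn_w_summable (n : ℕ) (p : NNReal) (hp : p ≤ 1) :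
    Summable fun x : Fin d → ℤ => (1 + nn x ^ 2) * tn d n p hp x :=
  summable_of_ne_finset_zero (s := FF d n) fun x hx => by rw [tn_support n p hp x hx, mul_zero]

theorem Tn_nonneg (n : ℕ) (p : NNReal) (hp : p ≤ 1) : 0 ≤ Tn d n p hp :=
  tsum_nonneg fun x => mul_nonneg (by positivity) (tn_nonneg n p hp x)

theorem cube_count (R : ℕ) (A : Finset (Fin d → ℤ)) (hA : ∀ x ∈ A, ∀ i, |x i| ≤ R) :
    A.card ≤ (2 * R + 1) ^ d := by
  have h1 : A ⊆ FF d R := by
    intro x hx
    rw [FF, Fintype.mem_piFinset]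
    intro i
    rw [Finset.mem_Icc]
    exact abs_le.1 (hA x hx i)
  refine (Finset.card_le_card h1).trans (le_of_eq ?_)
  unfold FF
  rw [Fintype.card_piFinset]
  simp only [Int.card_Icc, Finset.prod_const, Finset.card_univ, Fintype.card_fin]
  congr 1
  omega

theorem geo (R : ℕ) (A : Finset (Fin d → ℤ)) (hA : 2 * (2 * R + 1) ^ d ≤ A.card) :
    (A.card : ℝ) / 2 * (R : ℝ) ^ 2 ≤ ∑ x ∈ A, nn x ^ 2 := by
  classical
  set B := A.filter fun x => ∀ i, |x i| ≤ (R : ℤ) with hB
  have h1 : B.card ≤ (2 * R + 1) ^ d := cube_count R B fun x hx => (Finset.mem_filter.1 hx).2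
  have h2 : ∀ x ∈ A \ B, (R : ℝ) ^ 2 ≤ nn x ^ 2 := by
    intro x hx
    rw [Finset.mem_sdiff, hB, Finset.mem_filter] at hx
    have h3 : ¬ ∀ i, |x i| ≤ (R : ℤ) := fun h => hx.2 ⟨hx.1, h⟩
    push Not at h3
    obtain ⟨i, hi⟩ := h3
    have h4 : |(x i : ℝ)| ≤ nn x :=
      Finset.single_le_sum (f := fun i => |(x i : ℝ)|) (fun _ _ => abs_nonneg _) (Finset.mem_univ i)
    have h5 : (R : ℝ) ≤ |(x i : ℝ)| := by exact_mod_cast hi.le
    exact pow_le_pow_left₀ (Nat.cast_nonneg R) (h5.trans h4) 2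
  have h3 : ∑ x ∈ A \ B, (R : ℝ) ^ 2 ≤ ∑ x ∈ A, nn x ^ 2 :=
    (Finset.sum_le_sum h2).trans
      (Finset.sum_le_sum_of_subset_of_nonneg Finset.sdiff_subset fun _ _ _ => sq_nonneg _)
  rw [Finset.sum_const, nsmul_eq_mul] at h3
  have h4 : ((A \ B).card : ℝ) = A.card - B.card := by
    rw [Finset.card_sdiff_of_subset (Finset.filter_subset _ _),
      Nat.cast_sub (Finset.card_le_card (Finset.filter_subset _ _))]
  rw [h4] at h3
  refine le_trans (mul_le_mul_of_nonneg_right ?_ (sq_nonneg _)) h3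
  have h5 : 2 * (B.card : ℝ) ≤ A.card := by
    have : 2 * B.card ≤ A.card := (Nat.mul_le_mul_left 2 h1).trans hA
    exact_mod_cast this
  linarith

theorem pr (p : NNReal) (hp : p ≤ 1) {E : Set ((Fin d → ℤ) × Fin d → Bool)}
    (hE : MeasurableSet E) :
    (P d p hp E).toReal = ∫ ω, E.indicator (fun _ => (1 : ℝ)) ω ∂(P d p hp) := by
  rw [integral_indicator_const _ hE, smul_eq_mul, mul_one]
  rfl

theorem tn_le_tn {n m : ℕ} (h : m ≤ n) (p : NNReal) (hp : p ≤ 1) (x : Fin d → ℤ) :
    tn d m p hp x ≤ tn d n p hp x :=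
  ENNReal.toReal_mono (measure_ne_top _ _) (measure_mono fun _ hω => ⟨hω.1, small_mono h hω.2⟩)

theorem tail (n m R : ℕ) (hR : 0 < R) (hm : 2 * (2 * R + 1) ^ d ≤ m) (p : NNReal) (hp : p ≤ 1)
    (k : Fin d → ℝ) :
    cs (tn d n p hp) k ≤ cs (tn d m p hp) k + 2 / (R : ℝ) ^ 2 * Tn d n p hp := by
  classical
  have hT := Tn_nonneg (d := d) n p hp
  have hR' : (0 : ℝ) < R := by exact_mod_cast hR
  rcases le_or_gt n m with hnm | hnm
  · have h1 := tn_hat_mono hnm p hp k
    have : 0 ≤ 2 / (R : ℝ) ^ 2 * Tn d n p hp := by positivity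
    linarith
  let E : (Fin d → ℤ) → Set ((Fin d → ℤ) × Fin d → Bool) := fun x =>
    {ω | (opn ω).Reachable 0 x ∧ small n ω 0} \ {ω | small m ω 0}
  have hE : ∀ x, MeasurableSet (E x) := fun x => (tn_meas n 0 x).diff (small_meas m 0)
  have hD : ∀ x, tn d n p hp x - tn d m p hp x = (P d p hp (E x)).toReal := by
    intro x
    have h := measureReal_inter_add_sdiff (μ := P d p hp)
      (s := {ω | (opn (d := d) ω).Reachable 0 x ∧ small n ω 0}) (small_meas m 0)
    have h2 : {ω | (opn (d := d) ω).Reachable 0 x ∧ small n ω 0} ∩ {ω | small m ω 0} =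
        {ω | (opn ω).Reachable 0 x ∧ small m ω 0} := by
      ext ω
      constructor
      · rintro ⟨⟨h1, _⟩, h3⟩; exact ⟨h1, h3⟩
      · rintro ⟨h1, h3⟩; exact ⟨⟨h1, small_mono hnm.le h3⟩, h3⟩
    rw [h2] at h
    have h3 : tn d m p hp x + (P d p hp (E x)).toReal = tn d n p hp x := h
    linarith
  have e1 : cs (tn d n p hp) k = ∑ x ∈ FF d n, tn d n p hp x * Real.cos (dot k x) :=
    cs_tn (d := d) n ⟨p, hp⟩ k
  have e2 : cs (tn d m p hp) k = ∑ x ∈ FF d n, tn d m p hp x * Real.cos (dot k x) := by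
    unfold cs
    refine tsum_eq_sum fun x hx => ?_
    have h1 := tn_le_tn hnm.le p hp x
    rw [tn_support n p hp x hx] at h1
    rw [le_antisymm h1 (tn_nonneg m p hp x), zero_mul]
  have h1 : cs (tn d n p hp) k - cs (tn d m p hp) k ≤ ∑ x ∈ FF d n, (P d p hp (E x)).toReal := by
    rw [e1, e2, ← Finset.sum_sub_distrib]
    refine Finset.sum_le_sum fun x _ => ?_
    rw [← sub_mul, hD x]
    exact mul_le_of_le_one_right ENNReal.toReal_nonneg (Real.cos_le_one _)
  have h2 : ∑ x ∈ FF d n, (P d p hp (E x)).toReal ≤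
      2 / (R : ℝ) ^ 2 * ∑ x ∈ FF d n, nn x ^ 2 * tn d n p hp x := by
    have e3 : ∀ x, tn d n p hp x = ∫ ω, Set.indicator
        {ω : (Fin d → ℤ) × Fin d → Bool | (opn ω).Reachable 0 x ∧ small n ω 0}
        (fun _ => (1 : ℝ)) ω ∂(P d p hp) := fun x => pr p hp (tn_meas n 0 x)
    simp_rw [e3, pr p hp (hE _), Finset.mul_sum, ← integral_const_mul]
    rw [← integral_finsetSum _ fun x _ => (integrable_const _).indicator (hE x),
      ← integral_finsetSum _ fun x _ => (((integrable_const _).indicator (tn_meas n 0 x)).const_mul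
        _).const_mul _]
    refine integral_mono (integrable_finsetSum _ fun x _ => (integrable_const _).indicator (hE x))
      (integrable_finsetSum _ fun x _ => (((integrable_const _).indicator
        (tn_meas n 0 x)).const_mul _).const_mul _) fun ω => ?_
    simp only [Set.indicator_apply]
    by_cases hs : small n ω 0 ∧ ¬ small m ω 0
    · have e4 : ∀ x, (ω ∈ E x) ↔ (opn ω).Reachable 0 x := by
        intro x
        constructor
        · rintro ⟨⟨h, _⟩, _⟩; exact h
        · intro h; exact ⟨⟨h, hs.1⟩, hs.2⟩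
      have e5 : ∀ x, (ω ∈ {ω : (Fin d → ℤ) × Fin d → Bool | (opn ω).Reachable 0 x ∧ small n ω 0})
          ↔ (opn ω).Reachable 0 x := fun x => ⟨fun h => h.1, fun h => ⟨h, hs.1⟩⟩
      simp_rw [e4, e5]
      set A := (FF d n).filter fun x => (opn ω).Reachable 0 x with hA
      have hAset : (A : Set (Fin d → ℤ)) = {y | (opn ω).Reachable 0 y} := by
        ext y
        simp only [hA, Finset.coe_filter, Set.mem_ofPred_eq, and_iff_right_iff_imp]
        intro hy
        by_contra hc
        have : ω ∈ {ω : (Fin d → ℤ) × Fin d → Bool | (opn ω).Reachable 0 y ∧ small n ω 0} :=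
          ⟨hy, hs.1⟩
        rw [set_empty hc] at this
        exact this
      have hcard : m < A.card := by
        by_contra hc
        rw [not_lt] at hc
        apply hs.2
        unfold small
        rw [← hAset, Set.encard_coe_eq_coe_finsetCard]
        exact_mod_cast hc
      have hgeo := geo R A (hm.trans hcard.le)
      have e6 : ∑ x ∈ FF d n, (if (opn ω).Reachable 0 x then (1 : ℝ) else 0) = A.card := by
        rw [← Finset.sum_filter, Finset.sum_const, nsmul_eq_mul, mul_one]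
      have e7 : ∑ x ∈ FF d n, 2 / (R : ℝ) ^ 2 * (nn x ^ 2 *
          (if (opn ω).Reachable 0 x then (1 : ℝ) else 0)) = 2 / (R : ℝ) ^ 2 * ∑ x ∈ A, nn x ^ 2 := by
        rw [← Finset.mul_sum, hA, Finset.sum_filter]
        congr 1
        refine Finset.sum_congr rfl fun x _ => ?_
        split_ifs <;> simp
      rw [e6, e7]
      rw [div_mul_eq_mul_div, le_div_iff₀ (by positivity)]
      linarith
    · have e4 : ∀ x, ω ∉ E x := by
        rintro x ⟨⟨_, h1⟩, h2⟩
        exact hs ⟨h1, h2⟩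
      simp only [e4, if_false, Finset.sum_const_zero]
      refine Finset.sum_nonneg fun x _ => ?_
      have := nn_nonneg x
      split_ifs <;> positivity
  have h3 : ∑ x ∈ FF d n, nn x ^ 2 * tn d n p hp x ≤ Tn d n p hp := by
    unfold Tn
    rw [tsum_eq_sum (s := FF d n) fun x hx => by rw [tn_support n p hp x hx, mul_zero]]
    refine Finset.sum_le_sum fun x _ => mul_le_mul_of_nonneg_right ?_ (tn_nonneg n p hp x)
    linarith
  have h4 := mul_le_mul_of_nonneg_left h3 (by positivity : (0 : ℝ) ≤ 2 / (R : ℝ) ^ 2)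
  linarith

end Pool.Agent.Helper33P
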