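import Pool.Agent.Helper33P.Sub5

set_option autoImplicit false
set_option linter.unusedSectionVars false

/-! Counting and the dimension for all parameters and all sizes. -/

open MeasureTheory Filter Topology
open Pool.Agent.Results.MP_54f242_pr.InfraredMean

namespace Pool.Agent.Helper33P

variable {d : ℕ}

theorem count_pairs (hd : 1 ≤ d) (j M : ℕ) (hM : 0 < M) {lam : ℝ} (hlam : 0 < lam)
    (hρ : 200 * ((2 * Real.pi / M) ^ 2 * 2 ^ j) ≤ lam) (G : Finset (Fin d → Fin M))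
    (hG : ∀ Q ∈ G, ∃ k ∈ cell M Q, ∃ (n : ℕ) (p : NNReal) (hp : p ≤ 1),
      Tn d n p hp ≤ 2 ^ j ∧ lam ≤ cs (tn d n p hp) k) :
    (G.card : ℝ) * lam ≤ 2 * (M : ℝ) ^ d * (110 * (d : ℝ) ^ 3 * (2 + (j : ℝ)) ^ 3) := by
  classical
  have hMp : (0 : ℝ) < M := by exact_mod_cast hM
  set R : ℕ := 2 ^ (j + 1) with hR
  set m : ℕ := 2 ^ (1 + d * (j + 3)) with hm
  have hR0 : 0 < R := by positivity
  have hmR : 2 * (2 * R + 1) ^ d ≤ m := by
    have h1 : 2 * R + 1 ≤ 2 ^ (j + 3) := by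
      rw [hR, pow_add, pow_add]
      have : 1 ≤ 2 ^ j := Nat.one_le_two_pow
      omega
    calc 2 * (2 * R + 1) ^ d ≤ 2 * (2 ^ (j + 3)) ^ d :=
          Nat.mul_le_mul_left 2 (Nat.pow_le_pow_left h1 d)
      _ = m := by rw [hm, ← pow_mul, pow_add, pow_one, mul_comm d]
  have hRX : 2 / (R : ℝ) ^ 2 * 2 ^ j ≤ 1 := by
    rw [div_mul_eq_mul_div, div_le_one (by positivity), hR]
    push_cast
    have h1 : (1 : ℝ) ≤ 2 ^ j := one_le_pow₀ (by norm_num)
    rw [pow_succ (2 : ℝ) j]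
    nlinarith
  obtain ⟨W, hW1, hW2, hW3⟩ := majorant_small (d := d) m
  have hlogm : Nat.log 2 m = 1 + d * (j + 3) := by rw [hm]; exact Nat.log_pow (by norm_num) _
  rw [hlogm] at hW3
  have hWpos : ∀ k, 0 ≤ W k := fun k =>
    (tn_hat_nonneg _ 0 zero_le_one k).trans (hW2 0 zero_le_one k)
  have hlow : ∀ Q ∈ G, ∀ k ∈ cell M Q, lam / 2 ≤ W k + 1 := by
    intro Q hQ k hk
    obtain ⟨k', hk', n, p, hp, hT, hl⟩ := hG Q hQ
    have h1 := half_low' (tn d n p hp) (tn_nonneg n p hp) (tn_w_summable n p hp)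
      (tn_hat_nonneg n p hp) k' k (fun i => cell_close M Q hk' hk i) (by
        refine le_trans ?_ (hρ.trans hl)
        have := mul_le_mul_of_nonneg_left hT (sq_nonneg (2 * Real.pi / M))
        unfold Tn at this
        linarith)
    have h2 := tail n m R hR0 hmR p hp k
    have h3 : 2 / (R : ℝ) ^ 2 * Tn d n p hp ≤ 2 / (R : ℝ) ^ 2 * 2 ^ j :=
      mul_le_mul_of_nonneg_left hT (by positivity)
    have h4 := hW2 p hp k
    linarith
  have hW' : Continuous fun k => W k + 1 := hW1.add continuous_const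
  have hint : ∀ Q, IntegrableOn (fun k => W k + 1) (cell M Q) volume := fun Q =>
    (show IntegrableOn (fun k => W k + 1) (cube d) volume from
      integrable_of_cont hW').mono_set (cell_sub M hM Q)
  have h5 : ∑ Q ∈ G, ∫ k in cell M Q, (W k + 1) ≤ ∫ k in cube d, (W k + 1) := by
    rw [← integral_biUnion_finset G (fun Q _ => cell_meas M Q)
      (fun Q _ Q' _ h => cell_disj M (Set.mem_univ Q) (Set.mem_univ Q') h)
      (fun Q _ => hint Q)]
    refine setIntegral_mono_set (integrable_of_cont hW') (Eventually.of_forall fun k => by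
      have := hWpos k
      show (0 : ℝ) ≤ W k + 1
      linarith) ?_
    refine LE.le.eventuallyLE ?_
    exact Set.iUnion₂_subset fun Q _ => cell_sub M hM Q
  have h6 : ∀ Q ∈ G, (2 * Real.pi / M) ^ d * (lam / 2) ≤ ∫ k in cell M Q, (W k + 1) := by
    intro Q hQ
    have h7 : ∫ _ in cell M Q, (lam / 2 : ℝ) = (2 * Real.pi / M) ^ d * (lam / 2) := by
      rw [setIntegral_const, smul_eq_mul, Measure.real, cell_vol, ENNReal.toReal_ofReal
        (by positivity)]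
    rw [← h7]
    refine setIntegral_mono_on ?_ (hint Q) (cell_meas M Q) (hlow Q hQ)
    exact integrableOn_const (by rw [cell_vol]; exact ENNReal.ofReal_ne_top)
  have hpd : (0 : ℝ) < (2 * Real.pi) ^ d := by positivity
  have hMd : (0 : ℝ) < (M : ℝ) ^ d := by positivity
  have hd1 : (1 : ℝ) ≤ d := by exact_mod_cast hd
  have hj0 : (0 : ℝ) ≤ j := Nat.cast_nonneg j
  have hWI : ∫ k in cube d, (W k + 1) ≤
      (2 * Real.pi) ^ d * (110 * (d : ℝ) ^ 3 * (2 + (j : ℝ)) ^ 3) := by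
    have hfm : IsFiniteMeasure (volume.restrict (cube d)) := ⟨by simpa using cube_fin⟩
    rw [integral_add (integrable_of_cont hW1) (integrable_const _)]
    have h2 : ∫ _ in cube d, (1 : ℝ) = (2 * Real.pi) ^ d := by
      rw [integral_const, smul_eq_mul, mul_one, measureReal_restrict_apply_univ, Measure.real,
        cube_vol, ENNReal.toReal_ofReal (by positivity)]
    rw [h2]
    have h3 : (1 + ((1 + d * (j + 3) : ℕ) : ℝ)) ^ 3 ≤ (3 * (d : ℝ) * (2 + (j : ℝ))) ^ 3 := by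
      refine pow_le_pow_left₀ (by positivity) ?_ 3
      push_cast
      nlinarith
    have h4 : (1 : ℝ) ≤ (d : ℝ) ^ 3 * (2 + (j : ℝ)) ^ 3 := by
      rw [← mul_pow]
      exact one_le_pow₀ (by nlinarith)
    have h5' : (3 * (d : ℝ) * (2 + (j : ℝ))) ^ 3 = 27 * ((d : ℝ) ^ 3 * (2 + (j : ℝ)) ^ 3) := by ring
    rw [h5'] at h3
    have h6' : 1 + 4 * (1 + ((1 + d * (j + 3) : ℕ) : ℝ)) ^ 3 + 1 ≤
        110 * ((d : ℝ) ^ 3 * (2 + (j : ℝ)) ^ 3) := by linarith
    have h7' := mul_le_mul_of_nonneg_left h6' hpd.le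
    linarith
  have h8 : (G.card : ℝ) * ((2 * Real.pi / M) ^ d * (lam / 2)) ≤
      (2 * Real.pi) ^ d * (110 * (d : ℝ) ^ 3 * (2 + (j : ℝ)) ^ 3) := by
    rw [← nsmul_eq_mul, ← Finset.sum_const]
    exact (Finset.sum_le_sum h6).trans (h5.trans hWI)
  rw [div_pow] at h8
  have h9 : (G.card : ℝ) * lam * (2 * Real.pi) ^ d ≤
      2 * (M : ℝ) ^ d * (110 * (d : ℝ) ^ 3 * (2 + (j : ℝ)) ^ 3) * (2 * Real.pi) ^ d := by
    calc (G.card : ℝ) * lam * (2 * Real.pi) ^ d
        = ((G.card : ℝ) * ((2 * Real.pi) ^ d / (M : ℝ) ^ d * (lam / 2))) * (2 * (M : ℝ) ^ d) := by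
          field_simp
      _ ≤ ((2 * Real.pi) ^ d * (110 * (d : ℝ) ^ 3 * (2 + (j : ℝ)) ^ 3)) * (2 * (M : ℝ) ^ d) :=
          mul_le_mul_of_nonneg_right h8 (by positivity)
      _ = _ := by ring
  exact le_of_mul_le_mul_right h9 hpd

/-- the exceptional wave vectors for all `n` and `p` -/
def EG (d : ℕ) (a : ℝ) : Set (Fin d → ℝ) :=
  {k | k ∈ cube d ∧ ∀ B : ℝ, ∃ (n : ℕ) (p : NNReal) (hp : p ≤ 1), B ≤ Tn d n p hp ∧
      (Tn d n p hp) ^ a ≤ cs (tn d n p hp) k}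

theorem dim_aux3 (hd : 1 ≤ d) (a s : ℝ) (ha : 0 < a) (ha1 : a < 1) (hs0 : 0 < s) (hsd : s < d)
    (hs : (1 - a) * (d - s) < 2 * a) : dimH (EG d a) ≤ ENNReal.ofReal s := by
  classical
  have hpi := Real.pi_pos
  let lam : ℕ → ℝ := fun m => ((2 : ℝ) ^ m / 2) ^ a
  have hlam : ∀ m, 0 < lam m := fun m => Real.rpow_pos_of_pos (by positivity) a
  let M : ℕ → ℕ := fun m => ⌈2 * Real.pi * √(200 * (2 : ℝ) ^ m / lam m)⌉₊ + 1
  have hM : ∀ m, 0 < M m := fun m => Nat.succ_pos _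
  have hM1 : ∀ m, 2 * Real.pi * √(200 * (2 : ℝ) ^ m / lam m) ≤ M m := by
    intro m
    have := Nat.le_ceil (2 * Real.pi * √(200 * (2 : ℝ) ^ m / lam m))
    simp only [M]
    push_cast
    linarith
  let bad : ∀ m, (Fin d → Fin (M m)) → Prop := fun m Q =>
    ∃ k ∈ cell (M m) Q, ∃ (n : ℕ) (p : NNReal) (hp : p ≤ 1),
      Tn d n p hp ≤ (2 : ℝ) ^ m ∧ lam m ≤ cs (tn d n p hp) k
  let U : (Σ m : ℕ, (Fin d → Fin (M m))) → Set (Fin d → ℝ) := fun i =>
    if bad i.1 i.2 then cell (M i.1) i.2 else ∅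
  -- the exceptional set is contained in the limsup set
  have hsub : EG d a ⊆ {x | {i | x ∈ U i}.Infinite} := by
    rintro k ⟨hk, hinf⟩
    by_contra hfin
    rw [Set.mem_ofPred_eq, Set.not_infinite] at hfin
    obtain ⟨m₀, hm₀⟩ := (hfin.image Sigma.fst).bddAbove
    obtain ⟨n', p, hp, hB, hl⟩ := hinf ((2 : ℝ) ^ (m₀ + 1))
    set S := Tn d n' p hp with hS
    have h1S : (1 : ℝ) < S := by
      have : (1 : ℝ) < 2 ^ (m₀ + 1) := one_lt_pow₀ (by norm_num) (by omega)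
      linarith
    set n := ⌈S⌉₊ with hn
    have hSn : S ≤ n := Nat.le_ceil S
    have hnS : (n : ℝ) < S + 1 := Nat.ceil_lt_add_one (by linarith)
    have hn1 : 1 < n := by
      have : (1 : ℝ) < n := by linarith
      exact_mod_cast this
    set m := Nat.clog 2 n with hm
    have h1 : n ≤ 2 ^ m := Nat.le_pow_clog (by norm_num) n
    have h2 : 2 ^ (m - 1) < n := by
      have := Nat.pow_pred_clog_lt_self (by norm_num : 1 < 2) hn1
      simpa [hm, Nat.pred_eq_sub_one] using this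
    have h1' : S ≤ (2 : ℝ) ^ m := hSn.trans (by exact_mod_cast h1)
    have h3 : m₀ + 1 ≤ m := by
      by_contra hc
      rw [not_le] at hc
      have : (2 : ℝ) ^ m < 2 ^ (m₀ + 1) := pow_lt_pow_right₀ (by norm_num) hc
      linarith
    have h4 : lam m ≤ cs (tn d n' p hp) k := by
      refine le_trans ?_ hl
      simp only [lam]
      refine Real.rpow_le_rpow (by positivity) ?_ ha.le
      have h5 : ((2 ^ (m - 1) : ℕ) : ℝ) + 1 ≤ n := by exact_mod_cast h2
      have h6 : (2 : ℝ) ^ m / 2 = ((2 ^ (m - 1) : ℕ) : ℝ) := by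
        obtain ⟨j, hj⟩ := Nat.exists_eq_succ_of_ne_zero (by omega : m ≠ 0)
        rw [hj, Nat.succ_eq_add_one, pow_succ, Nat.add_sub_cancel]
        push_cast
        ring
      rw [h6]
      linarith
    obtain ⟨Q, hQ⟩ := cell_cover (M m) (hM m) hk
    have hbad : bad m Q := ⟨k, hQ, n', p, hp, h1', h4⟩
    have hmem : (⟨m, Q⟩ : Σ m : ℕ, (Fin d → Fin (M m))) ∈ {i | k ∈ U i} := by
      show k ∈ U ⟨m, Q⟩
      simp only [U, if_pos hbad]
      exact hQ
    have := hm₀ (Set.mem_image_of_mem Sigma.fst hmem)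
    simp only at this
    omega
  refine (dimH_mono hsub).trans (Pool.Agent.R942.AX.dimH_limsup U hs0 ?_)
  -- the sum
  have hcard : ∀ m, (((Finset.univ.filter (bad m)).card : ℝ)) * lam m ≤
      2 * (M m : ℝ) ^ d * (110 * (d : ℝ) ^ 3 * (2 + (m : ℝ)) ^ 3) := by
    intro m
    exact count_pairs (d := d) hd m (M m) (hM m) (hlam m) (by
      have h1 := hM1 m
      have hMp : (0 : ℝ) < M m := by exact_mod_cast hM m
      have h2 : (2 * Real.pi) ^ 2 * (200 * (2 : ℝ) ^ m / lam m) ≤ (M m : ℝ) ^ 2 := by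
        have h3 := pow_le_pow_left₀ (by positivity) h1 2
        rw [mul_pow, Real.sq_sqrt (by have := hlam m; positivity)] at h3
        exact h3
      have h4 := hlam m
      rw [div_pow]
      have h5 : 200 * ((2 * Real.pi) ^ 2 / (M m : ℝ) ^ 2 * 2 ^ m) =
          ((2 * Real.pi) ^ 2 * (200 * (2 : ℝ) ^ m / lam m)) * lam m / (M m : ℝ) ^ 2 := by
        field_simp
      rw [h5, div_le_iff₀ (by positivity)]
      nlinarith) (Finset.univ.filter (bad m)) (fun Q hQ => (Finset.mem_filter.1 hQ).2)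
  set b : ℝ := (1 - a) / 2 with hb
  have hb0 : 0 ≤ b := by rw [hb]; linarith
  set q : ℝ := (2 : ℝ) ^ (b * (d - s) - a) with hq
  have hq0 : 0 < q := Real.rpow_pos_of_pos (by norm_num) _
  have hq1 : q < 1 := Real.rpow_lt_one_of_one_lt_of_neg (by norm_num) (by rw [hb]; nlinarith)
  have hds : 0 < (d : ℝ) - s := by linarith
  set K : ℝ := 440 * (d : ℝ) ^ 3 * (2 * Real.pi) ^ s * 130 ^ ((d : ℝ) - s) with hK
  have hterm : ∀ m, ((Finset.univ.filter (bad m)).card : ℝ) * (2 * Real.pi / M m) ^ s ≤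
      K * (((m : ℝ) + 2) ^ 3 * q ^ m) := by
    intro m
    have hMp : (0 : ℝ) < M m := by exact_mod_cast hM m
    have hlm := hlam m
    have h1 : ((Finset.univ.filter (bad m)).card : ℝ) ≤
        220 * (d : ℝ) ^ 3 * (M m : ℝ) ^ d * (2 + (m : ℝ)) ^ 3 / lam m := by
      rw [le_div_iff₀ hlm]
      refine (hcard m).trans (le_of_eq ?_)
      ring
    -- lower bound for `lam`
    have h2m : (1 : ℝ) ≤ 2 ^ m := one_le_pow₀ (by norm_num)
    have h5 : ((2 : ℝ) ^ a) ^ m / 2 ≤ lam m := by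
      simp only [lam]
      rw [Real.div_rpow (by positivity) (by norm_num), ← Real.rpow_natCast 2 m, ← Real.rpow_mul
        (by norm_num), ← Real.rpow_natCast (2 ^ a) m, ← Real.rpow_mul (by norm_num), mul_comm a]
      refine div_le_div_of_nonneg_left (by positivity) (by positivity) ?_
      calc (2 : ℝ) ^ a ≤ 2 ^ (1 : ℝ) := Real.rpow_le_rpow_of_exponent_le (by norm_num) ha1.le
        _ = 2 := Real.rpow_one 2
    have h2a : (0 : ℝ) < (2 : ℝ) ^ a := Real.rpow_pos_of_pos (by norm_num) a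
    -- upper bound for `M`
    have h6 : (M m : ℝ) ≤ 130 * ((2 : ℝ) ^ b) ^ m := by
      have h7 : (M m : ℝ) ≤ 2 * Real.pi * √(200 * (2 : ℝ) ^ m / lam m) + 2 := by
        have := (Nat.ceil_lt_add_one
          (by positivity : (0 : ℝ) ≤ 2 * Real.pi * √(200 * (2 : ℝ) ^ m / lam m))).le
        simp only [M]
        push_cast
        linarith
      have h8 : 200 * (2 : ℝ) ^ m / lam m ≤ 200 * (2 : ℝ) ^ m / (((2 : ℝ) ^ a) ^ m / 2) :=
        div_le_div_of_nonneg_left (by positivity) (by positivity) h5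
      have h9 : (2 : ℝ) ^ m / ((2 : ℝ) ^ a) ^ m = (((2 : ℝ) ^ b) ^ m) ^ 2 := by
        rw [← div_pow, ← pow_mul, mul_comm m 2, pow_mul]
        congr 1
        rw [← Real.rpow_natCast ((2 : ℝ) ^ b) 2, ← Real.rpow_mul (by norm_num), hb]
        rw [show (1 - a) / 2 * ((2 : ℕ) : ℝ) = 1 - a by push_cast; ring, Real.rpow_sub (by norm_num),
          Real.rpow_one]
      have h10 : 200 * (2 : ℝ) ^ m / (((2 : ℝ) ^ a) ^ m / 2) = (20 * ((2 : ℝ) ^ b) ^ m) ^ 2 := by
        rw [mul_pow, ← h9]; field_simp; ring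
      have h11 : (1 : ℝ) ≤ ((2 : ℝ) ^ b) ^ m :=
        one_le_pow₀ (Real.one_le_rpow (by norm_num) hb0)
      have h12 : √(200 * (2 : ℝ) ^ m / lam m) ≤ 20 * ((2 : ℝ) ^ b) ^ m := by
        rw [Real.sqrt_le_left (by positivity), ← h10]
        exact h8
      have hpi3 : Real.pi < 3.15 := Real.pi_lt_d2
      have h13 := mul_le_mul_of_nonneg_left h12 (by positivity : (0 : ℝ) ≤ 2 * Real.pi)
      nlinarith
    have h12 : (M m : ℝ) ^ d * (M m : ℝ) ^ (-s) = (M m : ℝ) ^ ((d : ℝ) - s) := by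
      rw [← Real.rpow_natCast, ← Real.rpow_add hMp]; rfl
    have h13 : (M m : ℝ) ^ ((d : ℝ) - s) ≤ 130 ^ ((d : ℝ) - s) * (((2 : ℝ) ^ b) ^ m) ^ ((d : ℝ) - s) := by
      rw [← Real.mul_rpow (by norm_num) (by positivity)]
      exact Real.rpow_le_rpow hMp.le h6 hds.le
    have h14 : (2 * Real.pi / M m) ^ s = (2 * Real.pi) ^ s * (M m : ℝ) ^ (-s) := by
      rw [Real.div_rpow (by positivity) hMp.le, Real.rpow_neg hMp.le]; rfl
    have h15 : (((2 : ℝ) ^ b) ^ m) ^ ((d : ℝ) - s) * (((2 : ℝ) ^ a) ^ m)⁻¹ = q ^ m := by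
      rw [hq, ← Real.rpow_natCast (2 ^ b) m, ← Real.rpow_natCast (2 ^ a) m,
        ← Real.rpow_natCast (2 ^ (b * (d - s) - a)) m, ← Real.rpow_mul (by positivity),
        ← Real.rpow_mul (by positivity), ← Real.rpow_mul (by positivity),
        ← Real.rpow_mul (by positivity), ← Real.rpow_neg (by norm_num), ← Real.rpow_add (by norm_num)]
      congr 1
      ring
    have h16 : (lam m)⁻¹ ≤ 2 * (((2 : ℝ) ^ a) ^ m)⁻¹ := by
      have := inv_anti₀ (by positivity : (0 : ℝ) < ((2 : ℝ) ^ a) ^ m / 2) h5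
      rw [inv_div] at this
      rw [← div_eq_mul_inv]
      exact this
    have hMd : (0 : ℝ) < (M m : ℝ) ^ ((d : ℝ) - s) := Real.rpow_pos_of_pos hMp _
    calc ((Finset.univ.filter (bad m)).card : ℝ) * (2 * Real.pi / M m) ^ s
        ≤ (220 * (d : ℝ) ^ 3 * (M m : ℝ) ^ d * (2 + (m : ℝ)) ^ 3 / lam m) * (2 * Real.pi / M m) ^ s :=
          mul_le_mul_of_nonneg_right h1 (by positivity)
      _ = 220 * (d : ℝ) ^ 3 * (2 * Real.pi) ^ s * (2 + (m : ℝ)) ^ 3 * ((M m : ℝ) ^ ((d : ℝ) - s) * (lam m)⁻¹) := by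
          rw [h14, ← h12, div_eq_mul_inv]; ring
      _ ≤ 220 * (d : ℝ) ^ 3 * (2 * Real.pi) ^ s * (2 + (m : ℝ)) ^ 3 * ((130 ^ ((d : ℝ) - s) *
            (((2 : ℝ) ^ b) ^ m) ^ ((d : ℝ) - s)) * (2 * (((2 : ℝ) ^ a) ^ m)⁻¹)) := by
          refine mul_le_mul_of_nonneg_left ?_ (by positivity)
          exact mul_le_mul h13 h16 (by positivity) (by positivity)
      _ = K * (((m : ℝ) + 2) ^ 3 * ((((2 : ℝ) ^ b) ^ m) ^ ((d : ℝ) - s) *
            (((2 : ℝ) ^ a) ^ m)⁻¹)) := by rw [hK]; ring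
      _ = K * (((m : ℝ) + 2) ^ 3 * q ^ m) := by rw [h15]
  have hsum : Summable fun m : ℕ => K * (((m : ℝ) + 2) ^ 3 * q ^ m) := by
    refine Summable.mul_left _ ?_
    have h1 : Summable fun m : ℕ => (m : ℝ) ^ 3 * q ^ m :=
      summable_pow_mul_geometric_of_norm_lt_one 3 (by
        rw [Real.norm_eq_abs, abs_of_pos hq0]; exact hq1)
    have h2 := ((summable_nat_add_iff 2).2 h1).mul_left (q ^ 2)⁻¹
    refine h2.congr fun m => ?_
    push_cast
    rw [pow_add q m]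
    field_simp
  have hK0 : 0 ≤ K := by positivity
  have hfinal : ∑' i, Metric.ediam (U i) ^ s ≤
      ∑' m : ℕ, ENNReal.ofReal (K * (((m : ℝ) + 2) ^ 3 * q ^ m)) := by
    rw [ENNReal.tsum_sigma']
    refine ENNReal.tsum_le_tsum fun m => ?_
    rw [tsum_fintype]
    have hMp : (0 : ℝ) < M m := by exact_mod_cast hM m
    have h1 : ∀ Q : Fin d → Fin (M m), Metric.ediam (U ⟨m, Q⟩) ^ s ≤
        if bad m Q then ENNReal.ofReal ((2 * Real.pi / M m) ^ s) else 0 := by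
      intro Q
      simp only [U]
      split_ifs with h
      · rw [← ENNReal.ofReal_rpow_of_pos (by positivity)]
        exact ENNReal.rpow_le_rpow (cell_diam (M m) Q) hs0.le
      · simp [hs0]
    refine (Finset.sum_le_sum fun Q _ => h1 Q).trans ?_
    rw [← Finset.sum_filter, Finset.sum_const, nsmul_eq_mul,
      ← ENNReal.ofReal_natCast, ← ENNReal.ofReal_mul (Nat.cast_nonneg _)]
    exact ENNReal.ofReal_le_ofReal (hterm m)
  refine ne_top_of_le_ne_top ?_ hfinal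
  rw [← ENNReal.ofReal_tsum_of_nonneg (fun m => by positivity) hsum]
  exact ENNReal.ofReal_ne_top

theorem dim_main3 (hd : 1 ≤ d) (a : ℝ) (ha : 0 < a) (ha1 : a < 1) :
    dimH (EG d a) ≤ ENNReal.ofReal (d - 2 * a / (1 - a)) := by
  have h2a : 0 < 1 - a := by linarith
  have hd1 : (1 : ℝ) ≤ d := by exact_mod_cast hd
  have hfrac0 : 0 < 2 * a / (1 - a) := div_pos (by linarith) h2a
  set v : ℝ := max 0 ((d : ℝ) - 2 * a / (1 - a)) with hv
  have hv0 : ENNReal.ofReal v = ENNReal.ofReal ((d : ℝ) - 2 * a / (1 - a)) := by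
    rw [hv]
    rcases le_total 0 ((d : ℝ) - 2 * a / (1 - a)) with h | h
    · rw [max_eq_right h]
    · rw [max_eq_left h, ENNReal.ofReal_zero, ENNReal.ofReal_of_nonpos h]
  rw [← hv0]
  have ht : Tendsto (fun s : ℝ => ENNReal.ofReal s) (𝓝[>] v) (𝓝 (ENNReal.ofReal v)) :=
    ENNReal.tendsto_ofReal (tendsto_id.mono_left nhdsWithin_le_nhds)
  refine ge_of_tendsto ht ?_
  have hvd : v < d := by rw [hv]; exact max_lt (by linarith) (by linarith)
  filter_upwards [Ioo_mem_nhdsGT hvd] with s hs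
  have hs1 : 0 < s := lt_of_le_of_lt (le_max_left _ _) hs.1
  have hs2 : (d : ℝ) - 2 * a / (1 - a) < s := lt_of_le_of_lt (le_max_right _ _) hs.1
  refine dim_aux3 hd a s ha ha1 hs1 hs.2 ?_
  have h1 : (d : ℝ) - s < 2 * a / (1 - a) := by linarith
  rw [lt_div_iff₀ h2a] at h1
  linarith


end Pool.Agent.Helper33P
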