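import Pool.Agent.Helper33P.Sub6

set_option autoImplicit false
set_option linter.unusedSectionVars false

/-! Powers of `n`, and the final form. -/

open MeasureTheory Filter Topology
open Pool.Agent.Results.MP_54f242_pr.InfraredMean

namespace Pool.Agent.Helper33P

variable {d : ℕ}

theorem cs_le_Tn (n : ℕ) (p : NNReal) (hp : p ≤ 1) (k : Fin d → ℝ) :
    cs (tn d n p hp) k ≤ Tn d n p hp := by
  have e1 : cs (tn d n p hp) k = ∑ x ∈ FF d n, tn d n p hp x * Real.cos (dot k x) :=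
    cs_tn (d := d) n ⟨p, hp⟩ k
  rw [e1]
  unfold Tn
  rw [tsum_eq_sum (s := FF d n) fun x hx => by rw [tn_support n p hp x hx, mul_zero]]
  refine Finset.sum_le_sum fun x _ => ?_
  have h1 := tn_nonneg n p hp x
  have h2 := mul_le_of_le_one_right h1 (Real.cos_le_one (dot k x))
  nlinarith [mul_nonneg (sq_nonneg (nn x)) h1]

theorem Tn_le (n : ℕ) (p : NNReal) (hp : p ≤ 1) : Tn d n p hp ≤ (1 + (n : ℝ) ^ 2) * n := by
  unfold Tn
  rw [tsum_eq_sum (s := FF d n) fun x hx => by rw [tn_support n p hp x hx, mul_zero]]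
  refine le_trans ?_ (mul_le_mul_of_nonneg_left (tn_sum_le (d := d) n p hp) (by positivity))
  rw [Finset.mul_sum]
  refine Finset.sum_le_sum fun x _ => ?_
  rcases lt_or_ge (n : ℤ) (∑ i, |x i|) with h | h
  · rw [tn_zero_of_far n p hp x h]; simp
  · refine mul_le_mul_of_nonneg_right ?_ (tn_nonneg n p hp x)
    have h1 : nn x ≤ n := by
      have : nn x = ((∑ i, |x i| : ℤ) : ℝ) := by unfold nn; push_cast; rfl
      rw [this]
      exact_mod_cast h
    have := pow_le_pow_left₀ (nn_nonneg x) h1 2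
    linarith

theorem EE_sub (b a : ℝ) (hb : 0 < b) (ha : 0 < a) (hab : 3 * a < b) : EE d b ⊆ EG d a := by
  rintro k ⟨hk, hinf⟩
  refine ⟨hk, fun B => ?_⟩
  have h1 : ∀ᶠ n : ℕ in atTop, B ≤ (n : ℝ) ^ b :=
    ((tendsto_rpow_atTop hb).comp tendsto_natCast_atTop_atTop).eventually_ge_atTop B
  have h2 : ∀ᶠ n : ℕ in atTop, (2 : ℝ) ^ a ≤ (n : ℝ) ^ (b - 3 * a) :=
    ((tendsto_rpow_atTop (by linarith : 0 < b - 3 * a)).comp
      tendsto_natCast_atTop_atTop).eventually_ge_atTop _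
  obtain ⟨N, hN⟩ := eventually_atTop.1 (h1.and (h2.and (eventually_ge_atTop 1)))
  obtain ⟨n, hn, hnl⟩ := hinf.exists_gt N
  obtain ⟨p, hp, hl⟩ := hn
  obtain ⟨h3, h4, h5⟩ := hN n hnl.le
  have hn1 : (1 : ℝ) ≤ n := by exact_mod_cast h5
  refine ⟨n, p, hp, h3.trans (hl.trans (cs_le_Tn n p hp k)), le_trans ?_ hl⟩
  have h6 : Tn d n p hp ≤ 2 * (n : ℝ) ^ 3 := by
    refine (Tn_le n p hp).trans ?_
    nlinarith [sq_nonneg (n : ℝ)]
  calc Tn d n p hp ^ a ≤ (2 * (n : ℝ) ^ 3) ^ a :=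
        Real.rpow_le_rpow (Tn_nonneg n p hp) h6 ha.le
    _ = 2 ^ a * (n : ℝ) ^ (3 * a) := by
        rw [Real.mul_rpow (by norm_num) (by positivity), ← Real.rpow_natCast (n : ℝ) 3,
          ← Real.rpow_mul (by positivity)]
        norm_num
    _ ≤ (n : ℝ) ^ (b - 3 * a) * (n : ℝ) ^ (3 * a) :=
        mul_le_mul_of_nonneg_right h4 (by positivity)
    _ = (n : ℝ) ^ b := by
        rw [← Real.rpow_add (by positivity)]
        congr 1
        ring

theorem dim_EE (hd : 1 ≤ d) (b : ℝ) (hb : 0 < b) (hb1 : b ≤ 1) :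
    dimH (EE d b) ≤ ENNReal.ofReal (d - 2 * b / (3 - b)) := by
  have hc : (d : ℝ) - 2 * (b / 3) / (1 - b / 3) = d - 2 * b / (3 - b) := by
    have : (3 - b) ≠ 0 := by linarith
    have h' : (1 - b / 3) ≠ 0 := by intro h; apply this; linarith
    field_simp
  rw [← hc]
  have ht : Tendsto (fun a : ℝ => ENNReal.ofReal ((d : ℝ) - 2 * a / (1 - a))) (𝓝[<] (b / 3))
      (𝓝 (ENNReal.ofReal ((d : ℝ) - 2 * (b / 3) / (1 - b / 3)))) := by
    refine ENNReal.tendsto_ofReal (Tendsto.mono_left ?_ nhdsWithin_le_nhds)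
    have : ContinuousAt (fun a : ℝ => (d : ℝ) - 2 * a / (1 - a)) (b / 3) := by
      have h' : (1 - b / 3) ≠ 0 := by intro h; linarith
      fun_prop (disch := exact h')
    exact this
  refine ge_of_tendsto ht ?_
  filter_upwards [Ioo_mem_nhdsLT (show 0 < b / 3 by linarith)] with a ha
  exact (dimH_mono (EE_sub b a hb ha.1 (by linarith [ha.2]))).trans
    (dim_main3 hd a ha.1 (by linarith [ha.2]))

/-- bounded by `C S ^ a` for all sizes and parameters, outside `EG` -/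
theorem bound_EG (a : ℝ) (ha : 0 < a) (ha1 : a < 1) (k : Fin d → ℝ) (hk : k ∈ cube d)
    (hno : k ∉ EG d a) : ∃ C : ℝ, 0 ≤ C ∧ ∀ (n : ℕ) (p : NNReal) (hp : p ≤ 1),
      cs (tn d n p hp) k ≤ C * Tn d n p hp ^ a := by
  have h0 : ¬ ∀ B : ℝ, ∃ (n : ℕ) (p : NNReal) (hp : p ≤ 1), B ≤ Tn d n p hp ∧
      (Tn d n p hp) ^ a ≤ cs (tn d n p hp) k := fun h => hno ⟨hk, h⟩
  push Not at h0
  obtain ⟨B, hB⟩ := h0
  refine ⟨max 1 B, zero_le_one.trans (le_max_left _ _), fun n p hp => ?_⟩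
  have hT := Tn_nonneg (d := d) n p hp
  have hTa : 0 ≤ Tn d n p hp ^ a := Real.rpow_nonneg hT a
  rcases le_or_gt B (Tn d n p hp) with h | h
  · have h1 := hB n p hp h
    have h2 : (1 : ℝ) ≤ max 1 B := le_max_left _ _
    nlinarith
  · refine (cs_le_Tn n p hp k).trans ?_
    rcases le_or_gt (Tn d n p hp) 1 with h1 | h1
    · have h2 : Tn d n p hp ≤ Tn d n p hp ^ a := by
        rcases hT.eq_or_lt with h3 | h3
        · rw [← h3, Real.zero_rpow ha.ne']
        · have := Real.rpow_le_rpow_of_exponent_ge h3 h1 ha1.le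
          rwa [Real.rpow_one] at this
      have h3 : (1 : ℝ) ≤ max 1 B := le_max_left _ _
      nlinarith
    · have h2 : (1 : ℝ) ≤ Tn d n p hp ^ a := Real.one_le_rpow h1.le ha.le
      have h3 : B ≤ max 1 B := le_max_right _ _
      have h4 : (0 : ℝ) ≤ max 1 B := zero_le_one.trans (le_max_left _ _)
      nlinarith [mul_le_mul_of_nonneg_left h2 h4]

/-- the same for the full two-point function outside `EF` -/
theorem bound_EF (a : ℝ) (ha : 0 < a) (k : Fin d → ℝ) (hk : k ∈ cube d)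
    (hno : k ∉ EF d a) : ∃ C : ℝ, 0 ≤ C ∧ ∀ (p : NNReal) (hp : p ≤ 1),
      (Summable fun x : Fin d → ℤ => (1 + nn x ^ 2) * tau d p hp x) →
        cs (tau d p hp) k ≤ C * S2 d p hp ^ a := by
  have h0 : ¬ ∀ B : ℝ, ∃ (p : NNReal) (hp : p ≤ 1),
    (Summable fun x : Fin d → ℤ => (1 + nn x ^ 2) * tau d p hp x) ∧ B ≤ S2 d p hp ∧
      (S2 d p hp) ^ a ≤ cs (tau d p hp) k := fun h => hno ⟨hk, h⟩
  push Not at h0
  obtain ⟨B, hB⟩ := h0
  refine ⟨max 1 B, zero_le_one.trans (le_max_left _ _), fun p hp hs => ?_⟩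
  have hst := tau_summable p hp hs
  have h1 : (1 : ℝ) ≤ S2 d p hp := (chi_ge p hp hst).trans (chi_le_S2 p hp hs)
  have h2 : (1 : ℝ) ≤ S2 d p hp ^ a := Real.one_le_rpow h1 ha.le
  rcases le_or_gt B (S2 d p hp) with h | h
  · have h3 := hB p hp hs h
    have h4 : (1 : ℝ) ≤ max 1 B := le_max_left _ _
    nlinarith
  · have h3 : cs (tau d p hp) k ≤ chi d p hp := by
      refine Summable.tsum_le_tsum (fun x => ?_) (Summable.of_norm ?_) hst
      · exact mul_le_of_le_one_right (tau_nonneg p hp x) (Real.cos_le_one _)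
      · refine Summable.of_nonneg_of_le (fun x => norm_nonneg _) (fun x => ?_) hst
        rw [Real.norm_eq_abs, abs_mul, abs_of_nonneg (tau_nonneg p hp x)]
        exact mul_le_of_le_one_right (tau_nonneg p hp x) (Real.abs_cos_le_one _)
    have h4 := h3.trans (chi_le_S2 p hp hs)
    have h5 : B ≤ max 1 B := le_max_right _ _
    have h6 : (0 : ℝ) ≤ max 1 B := zero_le_one.trans (le_max_left _ _)
    nlinarith [mul_le_mul_of_nonneg_left h2 h6]

theorem dim_all (hd : 1 ≤ d) (a : ℝ) (ha : 0 < a) (ha1 : a < 1) :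
    dimH {k : Fin d → ℝ | k ∈ cube d ∧ ¬ ∃ C : ℝ,
      (∀ (n : ℕ) (p : NNReal) (hp : p ≤ 1), cs (tn d n p hp) k ≤ C * Tn d n p hp ^ a) ∧
      ∀ (p : NNReal) (hp : p ≤ 1),
        (Summable fun x : Fin d → ℤ => (1 + nn x ^ 2) * tau d p hp x) →
          cs (tau d p hp) k ≤ C * S2 d p hp ^ a} ≤ ENNReal.ofReal (d - 2 * a / (1 - a)) := by
  have hsub : {k : Fin d → ℝ | k ∈ cube d ∧ ¬ ∃ C : ℝ,
      (∀ (n : ℕ) (p : NNReal) (hp : p ≤ 1), cs (tn d n p hp) k ≤ C * Tn d n p hp ^ a) ∧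
      ∀ (p : NNReal) (hp : p ≤ 1),
        (Summable fun x : Fin d → ℤ => (1 + nn x ^ 2) * tau d p hp x) →
          cs (tau d p hp) k ≤ C * S2 d p hp ^ a} ⊆ EG d a ∪ EF d a := by
    rintro k ⟨hk, hno⟩
    by_contra hc
    rw [Set.mem_union, not_or] at hc
    obtain ⟨C₁, h1, h2⟩ := bound_EG a ha ha1 k hk hc.1
    obtain ⟨C₂, h3, h4⟩ := bound_EF a ha k hk hc.2
    refine hno ⟨max C₁ C₂, fun n p hp => (h2 n p hp).trans ?_, fun p hp hs =>
      (h4 p hp hs).trans ?_⟩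
    · exact mul_le_mul_of_nonneg_right (le_max_left _ _)
        (Real.rpow_nonneg (Tn_nonneg n p hp) a)
    · refine mul_le_mul_of_nonneg_right (le_max_right _ _) (Real.rpow_nonneg ?_ a)
      exact tsum_nonneg fun x => mul_nonneg (by positivity) (tau_nonneg p hp x)
  refine (dimH_mono hsub).trans ?_
  rw [dimH_union]
  exact max_le (dim_main3 hd a ha ha1) (dim_main2 hd a ha ha1)

end Pool.Agent.Helper33P
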