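import Pool.Agent.Helper33P.Main

set_option autoImplicit false
set_option linter.unusedSectionVars false

/-! The clusters with at most `n` points, at all parameters. -/

open MeasureTheory Filter Topology
open Pool.Agent.Results.MP_54f242_pr.InfraredMean

namespace Pool.Agent.Helper33P

variable {d : ℕ}

/-- the cluster of `x` has at most `n` points -/
def small (n : ℕ) (ω : (Fin d → ℤ) × Fin d → Bool) (x : Fin d → ℤ) : Prop :=
  Set.encard {y | (opn ω).Reachable x y} ≤ n

theorem small_eq (n : ℕ) (ω : (Fin d → ℤ) × Fin d → Bool) (x : Fin d → ℤ) :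
    small n ω x ↔ Nr ω x ≤ n := by
  rw [Nr_eq, small]
  constructor
  · intro h
    exact_mod_cast h
  · intro h
    exact_mod_cast h

theorem small_meas (n : ℕ) (x : Fin d → ℤ) :
    MeasurableSet {ω : (Fin d → ℤ) × Fin d → Bool | small n ω x} := by
  have : {ω : (Fin d → ℤ) × Fin d → Bool | small n ω x} = {ω | Nr ω x ≤ n} := by
    ext ω; exact small_eq n ω x
  rw [this]
  exact measurableSet_le (Nr_meas x) measurable_const

theorem small_congr {n : ℕ} {ω : (Fin d → ℤ) × Fin d → Bool} {x y : Fin d → ℤ}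
    (h : (opn ω).Reachable x y) : small n ω x ↔ small n ω y := by
  have : {z | (opn ω).Reachable x z} = {z | (opn ω).Reachable y z} := by
    ext z
    exact ⟨fun hz => h.symm.trans hz, fun hz => h.trans hz⟩
  unfold small
  rw [this]

theorem small_mono {n m : ℕ} (h : n ≤ m) {ω : (Fin d → ℤ) × Fin d → Bool} {x : Fin d → ℤ}
    (hs : small n ω x) : small m ω x :=
  hs.trans (by exact_mod_cast h)

/-- `P_p(0 ↔ x, |C(0)| ≤ n)` -/
noncomputable def tn (d n : ℕ) (p : NNReal) (hp : p ≤ 1) (x : Fin d → ℤ) : ℝ :=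
  (P d p hp {ω | (opn ω).Reachable 0 x ∧ small n ω 0}).toReal

theorem tn_meas (n : ℕ) (x y : Fin d → ℤ) :
    MeasurableSet {ω : (Fin d → ℤ) × Fin d → Bool | (opn ω).Reachable x y ∧ small n ω x} :=
  (meas_reach x y).inter (small_meas n x)

theorem tn_nonneg (n : ℕ) (p : NNReal) (hp : p ≤ 1) (x : Fin d → ℤ) : 0 ≤ tn d n p hp x :=
  ENNReal.toReal_nonneg

/-- translation invariance -/
theorem tn_trans (n : ℕ) (p : NNReal) (hp : p ≤ 1) (u v : Fin d → ℤ) :
    (P d p hp {ω | (opn ω).Reachable u v ∧ small n ω u}).toReal = tn d n p hp (v - u) := by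
  unfold tn
  congr 1
  let T : ((Fin d → ℤ) × Fin d → Bool) → ((Fin d → ℤ) × Fin d → Bool) := fun ω e => ω (sh u e)
  have hT : Measurable T := measurable_pi_iff.2 fun e => measurable_pi_apply _
  have hmap : (P d p hp).map T = P d p hp :=
    MeasureTheory.Measure.map_infinitePi_infinitePi_of_inj (sh u).injective
  have hadj : ∀ ω a b, (opn (T ω)).Adj a b ↔ (opn ω).Adj (a + u) (b + u) := by
    intro ω a b
    have e1 : ∀ (i : Fin d) (x y : Fin d → ℤ),
        (y + u = x + u + Pi.single i (1 : ℤ)) ↔ (y = x + Pi.single i (1 : ℤ)) := by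
      intro i x y
      rw [add_right_comm, add_left_inj]
    simp only [opn, SimpleGraph.fromRel_adj, T, sh, e1]
    simp
  have hreach : ∀ ω a b, (opn (T ω)).Reachable a b ↔ (opn ω).Reachable (a + u) (b + u) := by
    intro ω a b
    let φ : opn (T ω) ≃g opn ω := ⟨Equiv.addRight u, fun {a b} => (hadj ω a b).symm⟩
    exact (SimpleGraph.Iso.reachable_iff (φ := φ) (u := a) (v := b)).symm
  have hsm : ∀ ω, small n (T ω) 0 ↔ small n ω u := by
    intro ω
    unfold small
    have h1 : {y | (opn ω).Reachable u y} =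
        (fun z => z + u) '' {y | (opn (T ω)).Reachable 0 y} := by
      ext y
      simp only [Set.mem_image, Set.mem_ofPred_eq]
      constructor
      · intro hy
        refine ⟨y - u, ?_, by abel⟩
        rw [hreach]
        simpa using hy
      · rintro ⟨z, hz, rfl⟩
        have := (hreach ω 0 z).1 hz
        simpa using this
    rw [h1, (add_left_injective u).encard_image]
  have h1 : {ω | (opn (d := d) ω).Reachable u v ∧ small n ω u} =
      T ⁻¹' {ω | (opn (d := d) ω).Reachable 0 (v - u) ∧ small n ω 0} := by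
    ext ω
    simp only [Set.mem_ofPred_eq, Set.mem_preimage, hreach, hsm]
    simp
  rw [h1, ← Measure.map_apply hT (tn_meas _ _ _), hmap]

theorem tn_prob (n : ℕ) (t : NNReal) (ht : t ≤ 1) (x y : Fin d → ℤ) :
    (mu d).real {U | rel U t x y ∧ small n (conf t U) x} = tn d n t ht (y - x) := by
  rw [← tn_trans n t ht x y, ← map_conf t ht, Measure.map_apply (conf_meas t) (tn_meas n x y)]
  rfl

theorem tn_rel_meas (n : ℕ) (t : NNReal) (x y : Fin d → ℤ) :
    MeasurableSet {U : (Fin d → ℤ) × Fin d → ℝ | rel U t x y ∧ small n (conf t U) x} :=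
  conf_meas t (tn_meas n x y)

theorem small_rel_meas (n : ℕ) (t : NNReal) (x : Fin d → ℤ) :
    MeasurableSet {U : (Fin d → ℤ) × Fin d → ℝ | small n (conf t U) x} :=
  conf_meas t (small_meas n x)

/-! ### the quadratic form -/

open Classical in
/-- the quadratic form of the small classes -/
noncomputable def qs (Λ : Finset (Fin d → ℤ)) (r : (Fin d → ℤ) → (Fin d → ℤ) → Prop)
    (s : (Fin d → ℤ) → Prop) (k : Fin d → ℝ) : ℝ :=
  ∑ x ∈ Λ, ∑ y ∈ Λ, if r x y ∧ s x then Real.cos (dot k (y - x)) else 0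

open Classical in
theorem qs_eq (Λ : Finset (Fin d → ℤ)) {r : (Fin d → ℤ) → (Fin d → ℤ) → Prop}
    (hr : Equivalence r) {s : (Fin d → ℤ) → Prop} (hs : ∀ x y, r x y → (s x ↔ s y))
    (k : Fin d → ℝ) :
    qs Λ r s k = ∑ x ∈ Λ, if s x then ft (cl Λ r x) k / (cl Λ r x).card else 0 := by
  have hcl : ∀ x y, r x y → cl Λ r x = cl Λ r y := by
    intro x y h
    ext z
    rw [mem_cl, mem_cl]
    exact ⟨fun hz => ⟨hz.1, hr.trans (hr.symm h) hz.2⟩, fun hz => ⟨hz.1, hr.trans h hz.2⟩⟩
  have h1 : ∀ x ∈ Λ, (if s x then ft (cl Λ r x) k / (cl Λ r x).card else 0) =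
      ∑ u ∈ Λ, ∑ v ∈ Λ, (if r x u then (if r u v ∧ s u then Real.cos (dot k (v - u)) else 0) /
        ((cl Λ r u).card : ℝ) else 0) := by
    intro x hx
    by_cases hsx : s x
    · rw [if_pos hsx, ft_eq, Finset.sum_div]
      conv_lhs => rw [cl, Finset.sum_filter]
      refine Finset.sum_congr rfl fun u hu => ?_
      by_cases h : r x u
      · simp only [h, if_true]
        rw [← Finset.sum_div, ← hcl x u h, Finset.sum_filter]
        congr 1
        refine Finset.sum_congr rfl fun v hv => ?_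
        have h2 : r x v ↔ r u v := ⟨fun h' => hr.trans (hr.symm h) h', fun h' => hr.trans h h'⟩
        have h3 : s u := (hs x u h).1 hsx
        simp only [h2, h3, and_true]
      · simp [h]
    · rw [if_neg hsx]
      symm
      refine Finset.sum_eq_zero fun u hu => Finset.sum_eq_zero fun v hv => ?_
      by_cases h : r x u
      · have h3 : ¬ s u := fun h' => hsx ((hs x u h).2 h')
        simp [h3]
      · simp [h]
  rw [Finset.sum_congr rfl h1, Finset.sum_comm, qs]
  refine Finset.sum_congr rfl fun u hu => ?_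
  rw [Finset.sum_comm]
  refine Finset.sum_congr rfl fun v hv => ?_
  rw [← Finset.sum_filter, Finset.sum_const]
  have h2 : Λ.filter (fun x => r x u) = cl Λ r u := by
    ext z
    rw [mem_cl, Finset.mem_filter]
    exact ⟨fun h => ⟨h.1, hr.symm h.2⟩, fun h => ⟨h.1, hr.symm h.2⟩⟩
  rw [h2, nsmul_eq_mul]
  have h3 : ((cl Λ r u).card : ℝ) ≠ 0 := by
    have : u ∈ cl Λ r u := mem_cl.2 ⟨hu, hr.refl u⟩
    exact_mod_cast (Finset.card_pos.2 ⟨u, this⟩).ne'
  field_simp

variable {τ : Type*} [LinearOrder τ]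

/-- the majorant for the small classes of a chain of partitions -/
noncomputable def HS (Λ : Finset (Fin d → ℤ)) (M : Finset τ)
    (r : τ → (Fin d → ℤ) → (Fin d → ℤ) → Prop) (J : ℕ) (k : Fin d → ℝ) : ℝ :=
  ∑ x ∈ Λ, gg M (fun t => cl Λ (r t) x) J k

theorem HS_cont (Λ : Finset (Fin d → ℤ)) (M : Finset τ)
    (r : τ → (Fin d → ℤ) → (Fin d → ℤ) → Prop) (J : ℕ) : Continuous (HS Λ M r J) := by
  unfold HS
  exact continuous_finsetSum _ fun x _ => gg_cont _ _ _

theorem qs_le (Λ : Finset (Fin d → ℤ)) {M : Finset τ}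
    {r : τ → (Fin d → ℤ) → (Fin d → ℤ) → Prop} (hr : ∀ t, Equivalence (r t))
    (hm : ∀ s t, s ≤ t → ∀ x y, r s x y → r t x y) {s : τ → (Fin d → ℤ) → Prop}
    (hs : ∀ t x y, r t x y → (s t x ↔ s t y)) {n : ℕ}
    (hn : ∀ t x, s t x → (cl Λ (r t) x).card ≤ n) {t : τ} (ht : t ∈ M)
    (k : Fin d → ℝ) : qs Λ (r t) (s t) k ≤ HS Λ M r (Nat.log 2 n) k := by
  classical
  rw [qs_eq Λ (hr t) (hs t)]
  refine Finset.sum_le_sum fun x hx => ?_
  split_ifs with h
  · have hB : Monotone fun t => cl Λ (r t) x := by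
      intro s s' h y hy
      rw [mem_cl] at hy ⊢
      exact ⟨hy.1, hm s s' h x y hy.2⟩
    have hne : ∀ t, (cl Λ (r t) x).card ≠ 0 := fun t =>
      (Finset.card_pos.2 ⟨x, mem_cl.2 ⟨hx, (hr t).refl x⟩⟩).ne'
    exact le_gg (B := fun t => cl Λ (r t) x) hB ht (hne t) (Nat.log_mono_right (hn t x h)) k
  · exact gg_nonneg _ _ _ _

theorem int_HS (Λ : Finset (Fin d → ℤ)) {M : Finset τ}
    {r : τ → (Fin d → ℤ) → (Fin d → ℤ) → Prop}
    (hm : ∀ s t, s ≤ t → ∀ x y, r s x y → r t x y) (J : ℕ) :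
    ∫ k in cube d, HS Λ M r J k ≤ (Λ.card : ℝ) * ((2 * Real.pi) ^ d * (4 * (1 + (J : ℝ)) ^ 3)) := by
  unfold HS
  rw [integral_finsetSum _ fun x _ => integrable_of_cont (gg_cont _ _ _), ← nsmul_eq_mul,
    ← Finset.sum_const]
  refine Finset.sum_le_sum fun x hx => ?_
  have hB : Monotone fun t => cl Λ (r t) x := by
    intro s s' h y hy
    rw [mem_cl] at hy ⊢
    exact ⟨hy.1, hm s s' h x y hy.2⟩
  exact int_gg hB _

open Classical in
theorem qs_ind (Λ : Finset (Fin d → ℤ)) (n : ℕ) (t : NNReal) (k : Fin d → ℝ)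
    (U : (Fin d → ℤ) × Fin d → ℝ) :
    qs Λ (rel U t) (small n (conf t U)) k = ∑ x ∈ Λ, ∑ y ∈ Λ,
      Set.indicator {U : (Fin d → ℤ) × Fin d → ℝ | rel U t x y ∧ small n (conf t U) x}
        (fun _ => Real.cos (dot k (y - x))) U := by
  unfold qs
  refine Finset.sum_congr rfl fun x _ => Finset.sum_congr rfl fun y _ => ?_
  simp only [Set.indicator_apply, Set.mem_ofPred_eq]

theorem qs_integrable (Λ : Finset (Fin d → ℤ)) (n : ℕ) (t : NNReal) (k : Fin d → ℝ) :
    Integrable (fun U => qs Λ (rel U t) (small n (conf t U)) k) (mu d) := by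
  simp_rw [qs_ind]
  exact integrable_finsetSum _ fun x _ => integrable_finsetSum _ fun y _ =>
    (integrable_const _).indicator (tn_rel_meas n t x y)

theorem qs_int (n : ℕ) (t : NNReal) (ht : t ≤ 1) (Λ : Finset (Fin d → ℤ)) (k : Fin d → ℝ) :
    ∫ U, qs Λ (rel U t) (small n (conf t U)) k ∂(mu d) =
      ∑ x ∈ Λ, ∑ y ∈ Λ, tn d n t ht (y - x) * Real.cos (dot k (y - x)) := by
  have hint : ∀ x y : Fin d → ℤ, Integrable (Set.indicator
      {U : (Fin d → ℤ) × Fin d → ℝ | rel U t x y ∧ small n (conf t U) x}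
      (fun _ => Real.cos (dot k (y - x)))) (mu d) :=
    fun x y => (integrable_const _).indicator (tn_rel_meas n t x y)
  simp_rw [qs_ind]
  rw [integral_finsetSum _ fun x _ => integrable_finsetSum _ fun y _ => hint x y]
  refine Finset.sum_congr rfl fun x _ => ?_
  rw [integral_finsetSum _ fun y _ => hint x y]
  refine Finset.sum_congr rfl fun y _ => ?_
  rw [integral_indicator_const _ (tn_rel_meas n t x y), tn_prob n t ht, smul_eq_mul]

theorem small_hs (n : ℕ) (U : (Fin d → ℤ) × Fin d → ℝ) (t : NNReal) (x y : Fin d → ℤ)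
    (h : rel U t x y) : small n (conf t U) x ↔ small n (conf t U) y := small_congr h

theorem small_card (n : ℕ) (U : (Fin d → ℤ) × Fin d → ℝ) (t : NNReal) (Λ : Finset (Fin d → ℤ))
    (x : Fin d → ℤ) (h : small n (conf t U) x) : (cl Λ (rel U t) x).card ≤ n := by
  have h1 : ((cl Λ (rel U t) x : Finset (Fin d → ℤ)) : Set (Fin d → ℤ)) ⊆
      {y | (opn (conf t U)).Reachable x y} := fun y hy => (mem_cl.1 hy).2
  have h2 := (Set.encard_le_encard h1).trans h
  rw [Set.encard_coe_eq_coe_finsetCard] at h2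
  exact_mod_cast h2

/-- the quadratic forms increase with `n` -/
theorem av_tn_mono {n m : ℕ} (h : n ≤ m) (t : NNReal) (ht : t ≤ 1) (N : ℕ) (k : Fin d → ℝ) :
    av N (tn d n t ht) k ≤ av N (tn d m t ht) k := by
  classical
  unfold av
  refine div_le_div_of_nonneg_right ?_ (by positivity)
  rw [← qs_int n t ht (box d N) k, ← qs_int m t ht (box d N) k]
  refine integral_mono (qs_integrable _ _ _ _) (qs_integrable _ _ _ _) fun U => ?_
  simp only
  rw [qs_eq _ (rel_equiv U t) (small_hs n U t), qs_eq _ (rel_equiv U t) (small_hs m U t)]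
  refine Finset.sum_le_sum fun x _ => ?_
  by_cases h1 : small n (conf t U) x
  · rw [if_pos h1, if_pos (small_mono h h1)]
  · rw [if_neg h1]
    split_ifs
    · exact div_nonneg (ft_nonneg _ _) (Nat.cast_nonneg _)
    · exact le_rfl

theorem finite_max_small (Λ : Finset (Fin d → ℤ)) (M : Finset NNReal) (n : ℕ)
    (hM1 : ∀ t ∈ M, t ≤ 1) :
    ∃ h : (Fin d → ℝ) → ℝ, Continuous h ∧ (∀ t (ht : t ∈ M) (k : Fin d → ℝ),
      ∑ x ∈ Λ, ∑ y ∈ Λ, tn d n t (hM1 t ht) (y - x) * Real.cos (dot k (y - x)) ≤ h k) ∧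
      ∫ k in cube d, h k ≤ (Λ.card : ℝ) *
        ((2 * Real.pi) ^ d * (4 * (1 + (Nat.log 2 n : ℝ)) ^ 3)) := by
  classical
  let I := ({t // t ∈ M} × {x // x ∈ Λ} × {y // y ∈ Λ}) ⊕ ({t // t ∈ M} × {x // x ∈ Λ})
  let A : I → Set ((Fin d → ℤ) × Fin d → ℝ) := fun i => match i with
    | Sum.inl i => {U | rel U i.1.1 i.2.1.1 i.2.2.1}
    | Sum.inr i => {U | small n (conf i.1.1 U) i.2.1}
  obtain ⟨D, hD, w, U, hw, hrep⟩ := finite_repr (mu d) A (fun i => by
    rcases i with i | i
    · exact rel_meas _ _ _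
    · exact small_rel_meas _ _ _)
  have hone : ∑ δ, w δ = 1 := by
    have := hrep (fun _ => 1) (fun _ _ _ => rfl)
    simpa using this.symm
  refine ⟨fun k => ∑ δ, w δ * HS Λ M (rel (U δ)) (Nat.log 2 n) k, ?_, ?_, ?_⟩
  · refine continuous_finsetSum _ fun δ _ => ?_
    exact continuous_const.mul (HS_cont _ _ _ _)
  · intro t ht k
    rw [← qs_int n t (hM1 t ht) Λ k, hrep (fun V => qs Λ (rel V t) (small n (conf t V)) k)]
    · refine Finset.sum_le_sum fun δ _ => mul_le_mul_of_nonneg_left ?_ (hw δ)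
      exact qs_le Λ (rel_equiv (U δ)) (fun s t h x y => rel_mono (U δ) s t h x y)
        (s := fun t => small n (conf t (U δ))) (fun t x y h => small_hs n (U δ) t x y h)
        (fun t x h => small_card n (U δ) t Λ x h) ht k
    · intro a b hab
      unfold qs
      refine Finset.sum_congr rfl fun x hx => Finset.sum_congr rfl fun y hy => ?_
      have h1 : rel a t x y ↔ rel b t x y := hab (Sum.inl ⟨⟨t, ht⟩, ⟨x, hx⟩, ⟨y, hy⟩⟩)
      have h2 : small n (conf t a) x ↔ small n (conf t b) x := hab (Sum.inr ⟨⟨t, ht⟩, ⟨x, hx⟩⟩)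
      simp only [h1, h2]
  · have hI : ∀ δ, Integrable (fun k => w δ * HS Λ M (rel (U δ)) (Nat.log 2 n) k)
        (volume.restrict (cube d)) := fun δ =>
      integrable_of_cont (continuous_const.mul (HS_cont _ _ _ _))
    rw [integral_finsetSum _ fun δ _ => hI δ]
    set R := (Λ.card : ℝ) * ((2 * Real.pi) ^ d * (4 * (1 + (Nat.log 2 n : ℝ)) ^ 3)) with hR
    calc ∑ δ, ∫ k in cube d, w δ * HS Λ M (rel (U δ)) (Nat.log 2 n) k
        ≤ ∑ δ, w δ * R := by
          refine Finset.sum_le_sum fun δ _ => ?_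
          rw [integral_const_mul]
          exact mul_le_mul_of_nonneg_left (int_HS Λ (M := M) (r := rel (U δ))
            (fun s t h x y => rel_mono (U δ) s t h x y) _) (hw δ)
      _ = R := by rw [← Finset.sum_mul, hone, one_mul]

end Pool.Agent.Helper33P
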